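import Pool.Agent.Lib_MP_4d7355_co.Graph

/-!
# The inequalities for rank functions: loopless, simple (MP_4d7355_co)
-/

namespace Pool.Agent.MW

variable {α : Type*} [DecidableEq α] [Fintype α]

/-- loopless, any `b > 1` -/
theorem loopless_bound (R : RankFn α) (hl : ∀ e, R.r {e} = 1) {b : ℝ} (hb : 1 < b) :
    √b ^ Fintype.card α * TT R (√b) 1 ≤
      (1 + √b) ^ (Fintype.card α - R.r Finset.univ) * TT R b 0 := by
  have hb0 : 0 < b := by linarith
  set s := √b with hs
  have hs2 : s ^ 2 = b := Real.sq_sqrt hb0.le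
  have hs0 : 0 < s := Real.sqrt_pos.2 hb0
  have hs1 : 1 < s := by
    by_contra hneg
    push Not at hneg
    nlinarith
  have h1 : VQ (1 / s) R Finset.univ ≤ VT (1 / b) R Finset.univ := by
    apply VQ_le_VT (by positivity) (by rw [div_lt_one hb0]; exact hb) (by positivity)
      (by rw [div_le_one hs0]; exact hs1.le) _ _ R Finset.univ rfl (fun e _ => hl e)
    rw [div_pow, one_pow, hs2]
  have h2 := TT_of_VQ_le_VT R hb (q := 1 / s) (by positivity) h1
  have e1 : 1 / (1 / s) = s := by field_simp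
  have e2 : b * (1 / s) = s := by
    rw [← hs2]
    field_simp
  have e3 : b * (1 - 1 / s) / (b - 1) = s / (1 + s) := by
    rw [← hs2]
    have h3 : s ^ 2 - 1 ≠ 0 := by nlinarith
    field_simp
    ring
  rw [e1, e2, e3] at h2
  have h5 : R.r Finset.univ ≤ Fintype.card α := by
    have := R.le_card Finset.univ
    rwa [Finset.card_univ] at this
  obtain ⟨k, hk⟩ : ∃ k, Fintype.card α = R.r Finset.univ + k :=
    ⟨Fintype.card α - R.r Finset.univ, by omega⟩
  have hk' : Fintype.card α - R.r Finset.univ = k := by omega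
  rw [hk'] at h2 ⊢
  have h6 : 0 < (1 + s) ^ k := by positivity
  calc s ^ Fintype.card α * TT R s 1
      = (1 + s) ^ k * (s ^ R.r Finset.univ * (s / (1 + s)) ^ k * TT R s 1) := by
        rw [hk, pow_add, div_pow]
        field_simp
    _ ≤ (1 + s) ^ k * TT R b 0 := mul_le_mul_of_nonneg_left h2 h6.le

/-- simple, `b = 2` -/
theorem simple_bound_two (R : RankFn α) (hl : ∀ e, R.r {e} = 1)
    (hs : ∀ e f, e ≠ f → R.r {e, f} = 2) {t : ℝ} (ht : t ^ 3 = 2) :
    t ^ R.r Finset.univ * (2 - t) ^ (Fintype.card α - R.r Finset.univ) * TT R (2 / t) 1 ≤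
      TT R 2 0 := by
  have ht1 : 1.2599 < t := by
    by_contra hneg
    push Not at hneg
    have h1 : t ^ 3 ≤ 1.2599 ^ 3 := by
      rcases le_or_gt t 0 with h0 | h0
      · have : t ^ 3 ≤ 0 := by
          have := mul_nonneg_of_nonpos_of_nonpos h0 h0
          nlinarith
        norm_num
        linarith
      · exact pow_le_pow_left₀ h0.le hneg 3
    rw [ht] at h1
    norm_num at h1
  have ht2 : t < 1.26 := by
    by_contra hneg
    push Not at hneg
    have h1 : (1.26 : ℝ) ^ 3 ≤ t ^ 3 := pow_le_pow_left₀ (by norm_num) hneg 3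
    rw [ht] at h1
    norm_num at h1
  have ht0 : 0 < t := by linarith
  have h2t : 0 < 2 - t := by linarith
  have h1 : VQ (t / 2) R Finset.univ ≤ VT (1 / 2) R Finset.univ := by
    have hβ5 : ∀ σ : ℕ, 5 ≤ σ → (1 - t * (t - 1) / (2 * (2 - t)) * σ) ≤ 0 := by
      intro σ hσ
      have h5 : (5 : ℝ) ≤ σ := by exact_mod_cast hσ
      have h6 : (1 : ℝ) / 5 ≤ t * (t - 1) / (2 * (2 - t)) := by
        rw [div_le_div_iff₀ (by norm_num) (by linarith)]
        nlinarith
      nlinarith
    have hbd : ∀ σ : ℕ, (2 * (2 - t)) ^ σ * (1 - t * (t - 1) / (2 * (2 - t)) * σ) ≤ 4 / 3 := by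
      intro σ
      rcases le_or_gt 5 σ with h5 | h5
      · have := mul_nonpos_of_nonneg_of_nonpos (a := (2 * (2 - t)) ^ σ) (by positivity) (hβ5 σ h5)
        linarith
      · have h2 : 2 * (2 - t) ≠ 0 := by positivity
        have hh : 2 * (2 - t) < 1.4802 := by linarith
        have e : t * (t - 1) / (2 * (2 - t)) = t * (t - 1) / (2 * (2 - t)) := rfl
        have hβ : 0.2212 ≤ t * (t - 1) / (2 * (2 - t)) := by
          rw [le_div_iff₀ (by positivity)]
          nlinarith
        have hhp : ∀ k : ℕ, (2 * (2 - t)) ^ k ≤ 1.4802 ^ k := fun k =>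
          pow_le_pow_left₀ (by positivity) hh.le k
        have hσ : (0 : ℝ) ≤ 1 - 0.2212 * σ := by
          have : (σ : ℝ) ≤ 4 := by
            have : σ ≤ 4 := by omega
            exact_mod_cast this
          linarith
        have h3 : 1 - t * (t - 1) / (2 * (2 - t)) * σ ≤ 1 - 0.2212 * σ := by
          have : (0 : ℝ) ≤ σ := by positivity
          nlinarith
        calc (2 * (2 - t)) ^ σ * (1 - t * (t - 1) / (2 * (2 - t)) * σ)
            ≤ (2 * (2 - t)) ^ σ * (1 - 0.2212 * σ) :=
              mul_le_mul_of_nonneg_left h3 (by positivity)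
          _ ≤ 1.4802 ^ σ * (1 - 0.2212 * σ) := mul_le_mul_of_nonneg_right (hhp σ) hσ
          _ ≤ 4 / 3 := by
            interval_cases σ <;> norm_num
    apply VQ_le_VT_simple (h := 2 - t) (β := t * (t - 1) / (2 * (2 - t))) (by norm_num)
      (by norm_num) (by linarith) (by linarith) (by ring) _ _ _ _ _ R Finset.univ rfl
      (fun e _ => hl e) (fun e _ f _ hef => hs e f hef)
    · field_simp
    · rw [div_pow, ht]
      norm_num
    · intro σ
      have h2 := hbd σ
      have h3 : (2 - t) < 0.7401 := by linarith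
      rcases le_or_gt ((2 * (2 - t)) ^ σ * (1 - t * (t - 1) / (2 * (2 - t)) * σ)) 0 with h4 | h4
      · have := mul_nonpos_of_nonneg_of_nonpos h2t.le h4
        linarith
      · nlinarith
    · intro σ
      have h2 := hbd σ
      linarith
  have h2 := TT_of_VQ_le_VT R (b := 2) (by norm_num) (q := t / 2) (by positivity) h1
  have e1 : 1 / (t / 2) = 2 / t := by field_simp
  have e2 : 2 * (t / 2) = t := by ring
  have e3 : 2 * (1 - t / 2) / (2 - 1) = 2 - t := by ring
  rw [e1, e2, e3] at h2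
  exact h2

/-- simple, `b = c ^ 3` where `c ^ 3 = c + 1` -/
theorem simple_bound_plastic (R : RankFn α) (hl : ∀ e, R.r {e} = 1)
    (hs : ∀ e f, e ≠ f → R.r {e, f} = 2) {c : ℝ} (hc0 : 0 < c) (hc : c ^ 3 = c + 1) :
    c ^ R.r Finset.univ * TT R (c ^ 2) 1 ≤
      c ^ (Fintype.card α - R.r Finset.univ) * TT R (c ^ 3) 0 := by
  have hc1 : 1.3247 < c := by
    by_contra hneg
    push Not at hneg
    nlinarith [sq_nonneg (c - 1), mul_pos hc0 hc0, mul_nonneg hc0.le (sub_nonneg.2 hneg)]
  have hc2 : c < 1.3248 := by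
    by_contra hneg
    push Not at hneg
    nlinarith [mul_nonneg hc0.le (sub_nonneg.2 hneg),
      mul_nonneg (mul_nonneg hc0.le hc0.le) (sub_nonneg.2 hneg)]
  have hb : 1 < c ^ 3 := by rw [hc]; linarith
  have h1 : VQ (1 / c ^ 2) R Finset.univ ≤ VT (1 / c ^ 3) R Finset.univ := by
    have hβ5 : ∀ σ : ℕ, 5 ≤ σ → (1 - c * (c - 1) / 2 * σ) ≤ 0 := by
      intro σ hσ
      have h5 : (5 : ℝ) ≤ σ := by exact_mod_cast hσ
      have h6 : (1 : ℝ) / 5 ≤ c * (c - 1) / 2 := by nlinarith
      nlinarith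
    have h2c : 2 * (1 / c) < 1.5098 := by
      rw [mul_one_div, div_lt_iff₀ hc0]
      linarith
    have hbd : ∀ σ : ℕ, (2 * (1 / c)) ^ σ * (1 - c * (c - 1) / 2 * σ) ≤ 1.3247 := by
      intro σ
      rcases le_or_gt 5 σ with h5 | h5
      · have := mul_nonpos_of_nonneg_of_nonpos (a := (2 * (1 / c)) ^ σ) (by positivity) (hβ5 σ h5)
        linarith
      · have hβ : 0.215 ≤ c * (c - 1) / 2 := by nlinarith
        have hhp : ∀ k : ℕ, (2 * (1 / c)) ^ k ≤ 1.5098 ^ k := fun k =>
          pow_le_pow_left₀ (by positivity) h2c.le k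
        have hσ : (0 : ℝ) ≤ 1 - 0.215 * σ := by
          have : (σ : ℝ) ≤ 4 := by
            have : σ ≤ 4 := by omega
            exact_mod_cast this
          linarith
        have h3 : 1 - c * (c - 1) / 2 * σ ≤ 1 - 0.215 * σ := by
          have : (0 : ℝ) ≤ σ := by positivity
          nlinarith
        calc (2 * (1 / c)) ^ σ * (1 - c * (c - 1) / 2 * σ)
            ≤ (2 * (1 / c)) ^ σ * (1 - 0.215 * σ) :=
              mul_le_mul_of_nonneg_left h3 (by positivity)
          _ ≤ 1.5098 ^ σ * (1 - 0.215 * σ) := mul_le_mul_of_nonneg_right (hhp σ) hσ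
          _ ≤ 1.3247 := by
            interval_cases σ <;> norm_num
    have hc3 : c ^ 3 ≠ 0 := by positivity
    have e1 : 1 - 1 / c ^ 2 = 1 / c ^ 3 := by
      field_simp
      nlinarith [hc]
    apply VQ_le_VT_simple (h := 1 / c) (β := c * (c - 1) / 2) (by positivity)
      (by rw [div_lt_one (by positivity)]; exact hb) _ _ _ _ _ _ _ _ R Finset.univ rfl
      (fun e _ => hl e) (fun e _ f _ hef => hs e f hef)
    · rw [div_le_div_iff₀ (by positivity) (by positivity)]
      nlinarith [mul_pos hc0 hc0]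
    · rw [div_lt_one (by positivity)]
      nlinarith
    · rw [e1]
      field_simp
      nlinarith [hc]
    · rw [e1]
      field_simp
    · rw [div_pow, div_pow, one_pow, one_pow]
      congr 1
      ring
    · intro σ
      have h2 := hbd σ
      have h3 : 1 / c * 1.3247 ≤ 1 := by
        rw [div_mul_eq_mul_div, div_le_one hc0]
        linarith
      have h4 : 1 / c * ((2 * (1 / c)) ^ σ * (1 - c * (c - 1) / 2 * σ)) ≤ 1 / c * 1.3247 :=
        mul_le_mul_of_nonneg_left h2 (by positivity)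
      linarith
    · intro σ
      have h2 := hbd σ
      linarith
  have h2 := TT_of_VQ_le_VT R hb (q := 1 / c ^ 2) (by positivity) h1
  have e1 : 1 / (1 / c ^ 2) = c ^ 2 := by field_simp
  have e2 : c ^ 3 * (1 / c ^ 2) = c := by field_simp
  have e3 : c ^ 3 * (1 - 1 / c ^ 2) / (c ^ 3 - 1) = 1 / c := by
    have h3 : c ^ 3 - 1 = c := by rw [hc]; ring
    rw [h3]
    field_simp
    nlinarith [hc]
  rw [e1, e2, e3] at h2
  have h6 : 0 < c ^ (Fintype.card α - R.r Finset.univ) := by positivity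
  calc c ^ R.r Finset.univ * TT R (c ^ 2) 1
      = c ^ (Fintype.card α - R.r Finset.univ) * (c ^ R.r Finset.univ *
        (1 / c) ^ (Fintype.card α - R.r Finset.univ) * TT R (c ^ 2) 1) := by
        rw [one_div, inv_pow]
        field_simp
    _ ≤ _ := mul_le_mul_of_nonneg_left h2 h6.le

end Pool.Agent.MW
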