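import Mathlib

/-!
# Sums over the subsets of a finite set with a map to representatives (MP_4d7355_co)
-/

namespace Pool.Agent.MW

variable {α : Type*} [DecidableEq α]

/-- the number of elements of `S` with representative `j` -/
def cls (ρ : α → α) (S : Finset α) (j : α) : ℕ := (S.filter (fun g => ρ g = j)).card

theorem cls_insert_self {ρ : α → α} {S : Finset α} {g : α} (hg : g ∉ S) :
    cls ρ (insert g S) (ρ g) = cls ρ S (ρ g) + 1 := by
  unfold cls
  rw [Finset.filter_insert, if_pos rfl, Finset.card_insert_of_notMem]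
  intro h
  exact hg (Finset.mem_filter.1 h).1

theorem cls_insert_ne {ρ : α → α} {S : Finset α} {g j : α} (hj : ρ g ≠ j) :
    cls ρ (insert g S) j = cls ρ S j := by
  unfold cls
  rw [Finset.filter_insert, if_neg hj]

theorem image_insert_card_iff {ρ : α → α} {A : Finset α} {g : α} (hg : g ∉ A) :
    ((insert g A).image ρ).card = (insert g A).card ↔
      (ρ g ∉ A.image ρ ∧ (A.image ρ).card = A.card) := by
  rw [Finset.image_insert, Finset.card_insert_of_notMem hg]
  have h1 : (A.image ρ).card ≤ A.card := Finset.card_image_le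
  by_cases h : ρ g ∈ A.image ρ
  · rw [Finset.insert_eq_of_mem h]
    constructor
    · intro h2
      omega
    · intro h2
      exact absurd h h2.1
  · rw [Finset.card_insert_of_notMem h]
    constructor
    · intro h2
      exact ⟨h, by omega⟩
    · intro h2
      omega

/-- sum over the transversals -/
theorem sum_trans (ρ : α → α) {T : Finset α} : ∀ (S : Finset α), (∀ g ∈ S, ρ g ∈ T) →
    ∀ F : Finset α → ℝ,
    ∑ A ∈ S.powerset, (if (A.image ρ).card = A.card then F (A.image ρ) else 0) =
      ∑ J ∈ T.powerset, F J * ∏ j ∈ J, (cls ρ S j : ℝ) := by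
  intro S
  induction S using Finset.induction_on with
  | empty =>
    intro _ F
    rw [Finset.powerset_empty, Finset.sum_singleton, Finset.image_empty, if_pos rfl]
    rw [← Finset.sum_subset (s₁ := {∅}) (Finset.singleton_subset_iff.2 (Finset.empty_mem_powerset T))]
    · simp
    · intro J _ hJ
      rw [Finset.mem_singleton] at hJ
      obtain ⟨j, hj⟩ := Finset.nonempty_iff_ne_empty.2 hJ
      rw [Finset.prod_eq_zero hj (by simp [cls]), mul_zero]
  | insert g S hg ih =>
    intro hST F
    have ht : ρ g ∈ T := hST g (Finset.mem_insert_self g S)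
    have hST' : ∀ x ∈ S, ρ x ∈ T := fun x hx => hST x (Finset.mem_insert_of_mem hx)
    obtain ⟨T', hT', htT'⟩ : ∃ T', T = insert (ρ g) T' ∧ ρ g ∉ T' :=
      ⟨T.erase (ρ g), (Finset.insert_erase ht).symm, Finset.notMem_erase _ _⟩
    rw [Finset.sum_powerset_insert hg, ih hST' F]
    have e1 : ∑ A ∈ S.powerset, (if ((insert g A).image ρ).card = (insert g A).card then
        F ((insert g A).image ρ) else 0) =
        ∑ A ∈ S.powerset, (if (A.image ρ).card = A.card then
          (fun J => if ρ g ∈ J then 0 else F (insert (ρ g) J)) (A.image ρ) else 0) := by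
      apply Finset.sum_congr rfl
      intro A hA
      have hgA : g ∉ A := fun h => hg (Finset.mem_powerset.1 hA h)
      by_cases h : ((insert g A).image ρ).card = (insert g A).card
      · rw [if_pos h]
        rw [image_insert_card_iff hgA] at h
        rw [if_pos h.2]
        show _ = if ρ g ∈ A.image ρ then 0 else F (insert (ρ g) (A.image ρ))
        rw [if_neg h.1, Finset.image_insert]
      · rw [if_neg h]
        rw [image_insert_card_iff hgA] at h
        by_cases h2 : (A.image ρ).card = A.card
        · rw [if_pos h2]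
          show _ = if ρ g ∈ A.image ρ then 0 else F (insert (ρ g) (A.image ρ))
          rw [if_pos]
          by_contra h3
          exact h ⟨h3, h2⟩
        · rw [if_neg h2]
    rw [e1, ih hST' (fun J => if ρ g ∈ J then 0 else F (insert (ρ g) J)), hT',
      Finset.sum_powerset_insert htT', Finset.sum_powerset_insert htT',
      Finset.sum_powerset_insert htT']
    have hne : ∀ J ∈ T'.powerset, ρ g ∉ J := fun J hJ h => htT' (Finset.mem_powerset.1 hJ h)
    have e2 : ∑ J ∈ T'.powerset, (fun J => if ρ g ∈ J then 0 else F (insert (ρ g) J))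
        (insert (ρ g) J) * ∏ j ∈ insert (ρ g) J, (cls ρ S j : ℝ) = 0 := by
      apply Finset.sum_eq_zero
      intro J _
      show (if ρ g ∈ insert (ρ g) J then 0 else F (insert (ρ g) (insert (ρ g) J))) * _ = 0
      rw [if_pos (Finset.mem_insert_self _ _), zero_mul]
    rw [e2, add_zero, ← Finset.sum_add_distrib, ← Finset.sum_add_distrib,
      ← Finset.sum_add_distrib]
    apply Finset.sum_congr rfl
    intro J hJ
    have hJ' := hne J hJ
    rw [Finset.prod_insert hJ', Finset.prod_insert hJ', cls_insert_self hg]
    have e3 : ∏ j ∈ J, (cls ρ (insert g S) j : ℝ) = ∏ j ∈ J, (cls ρ S j : ℝ) := by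
      apply Finset.prod_congr rfl
      intro j hj
      rw [cls_insert_ne]
      rintro rfl
      exact hJ' hj
    rw [e3]
    show _ + (if ρ g ∈ J then 0 else F (insert (ρ g) J)) * _ = _
    rw [if_neg hJ']
    push_cast
    ring

theorem image_insert_card_iff' {ρ : α → α} {A : Finset α} {g : α} (hg : g ∉ A) :
    (insert g A).card = ((insert g A).image ρ).card + 1 ↔
      ((ρ g ∈ A.image ρ ∧ (A.image ρ).card = A.card) ∨
        (ρ g ∉ A.image ρ ∧ A.card = (A.image ρ).card + 1)) := by
  rw [Finset.image_insert, Finset.card_insert_of_notMem hg]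
  by_cases h : ρ g ∈ A.image ρ
  · rw [Finset.insert_eq_of_mem h]
    constructor
    · intro h2
      exact Or.inl ⟨h, by omega⟩
    · rintro (h2 | h2)
      · omega
      · exact absurd h h2.1
  · rw [Finset.card_insert_of_notMem h]
    constructor
    · intro h2
      exact Or.inr ⟨h, by omega⟩
    · rintro (h2 | h2)
      · exact absurd h2.1 h
      · omega

/-- sum over the sets with exactly one doubled class -/
theorem sum_dbl (ρ : α → α) {T : Finset α} : ∀ (S : Finset α), (∀ g ∈ S, ρ g ∈ T) →
    ∀ F : Finset α → ℝ,
    ∑ A ∈ S.powerset, (if A.card = (A.image ρ).card + 1 then F (A.image ρ) else 0) =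
      ∑ J ∈ T.powerset, F J * ((∏ j ∈ J, (cls ρ S j : ℝ)) *
        (∑ j ∈ J, ((cls ρ S j : ℝ) - 1)) / 2) := by
  intro S
  induction S using Finset.induction_on with
  | empty =>
    intro _ F
    rw [Finset.powerset_empty, Finset.sum_singleton, Finset.image_empty, if_neg (by simp)]
    symm
    apply Finset.sum_eq_zero
    intro J _
    by_cases hJ : J = ∅
    · subst hJ
      simp
    · obtain ⟨j, hj⟩ := Finset.nonempty_iff_ne_empty.2 hJ
      rw [Finset.prod_eq_zero hj (by simp [cls])]
      simp
  | insert g S hg ih =>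
    intro hST F
    have ht : ρ g ∈ T := hST g (Finset.mem_insert_self g S)
    have hST' : ∀ x ∈ S, ρ x ∈ T := fun x hx => hST x (Finset.mem_insert_of_mem hx)
    obtain ⟨T', hT', htT'⟩ : ∃ T', T = insert (ρ g) T' ∧ ρ g ∉ T' :=
      ⟨T.erase (ρ g), (Finset.insert_erase ht).symm, Finset.notMem_erase _ _⟩
    rw [Finset.sum_powerset_insert hg, ih hST' F]
    have e1 : ∑ A ∈ S.powerset, (if (insert g A).card = ((insert g A).image ρ).card + 1 then
        F ((insert g A).image ρ) else 0) =
        ∑ A ∈ S.powerset, (if (A.image ρ).card = A.card then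
          (fun J => if ρ g ∈ J then F J else 0) (A.image ρ) else 0) +
        ∑ A ∈ S.powerset, (if A.card = (A.image ρ).card + 1 then
          (fun J => if ρ g ∈ J then 0 else F (insert (ρ g) J)) (A.image ρ) else 0) := by
      rw [← Finset.sum_add_distrib]
      apply Finset.sum_congr rfl
      intro A hA
      have hgA : g ∉ A := fun h => hg (Finset.mem_powerset.1 hA h)
      show _ = (if (A.image ρ).card = A.card then
        (if ρ g ∈ A.image ρ then F (A.image ρ) else 0) else 0) +
        (if A.card = (A.image ρ).card + 1 then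
        (if ρ g ∈ A.image ρ then 0 else F (insert (ρ g) (A.image ρ))) else 0)
      by_cases h : (insert g A).card = ((insert g A).image ρ).card + 1
      · rw [if_pos h]
        rw [image_insert_card_iff' hgA] at h
        rcases h with h | h
        · rw [if_pos h.2, if_pos h.1, if_neg (by omega), add_zero, Finset.image_insert,
            Finset.insert_eq_of_mem h.1]
        · rw [if_neg (by omega), if_pos h.2, if_neg h.1, zero_add, Finset.image_insert]
      · rw [if_neg h]
        rw [image_insert_card_iff' hgA] at h
        by_cases h2 : ρ g ∈ A.image ρ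
        · rw [if_pos h2, if_pos h2, if_neg, zero_add]
          · split_ifs <;> rfl
          · intro h3
            exact h (Or.inl ⟨h2, h3⟩)
        · rw [if_neg h2, if_neg h2]
          have h3 : ¬ A.card = (A.image ρ).card + 1 := fun h3 => h (Or.inr ⟨h2, h3⟩)
          rw [if_neg h3, add_zero]
          split_ifs <;> rfl
    rw [e1, ih hST' (fun J => if ρ g ∈ J then 0 else F (insert (ρ g) J)),
      sum_trans ρ S hST' (fun J => if ρ g ∈ J then F J else 0), hT',
      Finset.sum_powerset_insert htT',
      Finset.sum_powerset_insert htT', Finset.sum_powerset_insert htT',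
      Finset.sum_powerset_insert htT']
    have hne : ∀ J ∈ T'.powerset, ρ g ∉ J := fun J hJ h => htT' (Finset.mem_powerset.1 hJ h)
    have e2 : ∑ J ∈ T'.powerset, (fun J => if ρ g ∈ J then 0 else F (insert (ρ g) J))
        (insert (ρ g) J) * ((∏ j ∈ insert (ρ g) J, (cls ρ S j : ℝ)) *
          (∑ j ∈ insert (ρ g) J, ((cls ρ S j : ℝ) - 1)) / 2) = 0 := by
      apply Finset.sum_eq_zero
      intro J _
      show (if ρ g ∈ insert (ρ g) J then 0 else F (insert (ρ g) (insert (ρ g) J))) * _ = 0
      rw [if_pos (Finset.mem_insert_self _ _), zero_mul]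
    have e3 : ∑ J ∈ T'.powerset, (fun J => if ρ g ∈ J then F J else 0) J *
        ∏ j ∈ J, (cls ρ S j : ℝ) = 0 := by
      apply Finset.sum_eq_zero
      intro J hJ
      show (if ρ g ∈ J then F J else 0) * _ = 0
      rw [if_neg (hne J hJ), zero_mul]
    rw [e2, e3, add_zero, zero_add, ← Finset.sum_add_distrib, ← Finset.sum_add_distrib,
      ← Finset.sum_add_distrib, ← Finset.sum_add_distrib]
    apply Finset.sum_congr rfl
    intro J hJ
    have hJ' := hne J hJ
    rw [Finset.prod_insert hJ', Finset.prod_insert hJ', Finset.sum_insert hJ',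
      Finset.sum_insert hJ', cls_insert_self hg]
    have e3 : ∏ j ∈ J, (cls ρ (insert g S) j : ℝ) = ∏ j ∈ J, (cls ρ S j : ℝ) := by
      apply Finset.prod_congr rfl
      intro j hj
      rw [cls_insert_ne]
      rintro rfl
      exact hJ' hj
    have e4 : ∑ j ∈ J, ((cls ρ (insert g S) j : ℝ) - 1) = ∑ j ∈ J, ((cls ρ S j : ℝ) - 1) := by
      apply Finset.sum_congr rfl
      intro j hj
      rw [cls_insert_ne]
      rintro rfl
      exact hJ' hj
    rw [e3, e4]
    show _ + ((if ρ g ∈ insert (ρ g) J then F (insert (ρ g) J) else 0) * _ +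
      (if ρ g ∈ J then 0 else F (insert (ρ g) J)) * _) = _
    rw [if_neg hJ', if_pos (Finset.mem_insert_self _ _)]
    push_cast
    ring

/-- sums over the subsets of a disjoint union -/
theorem sum_powerset_union {Z X : Finset α} (h : Disjoint Z X) (f : Finset α → ℝ) :
    ∑ J ∈ (Z ∪ X).powerset, f J = ∑ K ∈ X.powerset, ∑ L ∈ Z.powerset, f (K ∪ L) := by
  induction Z using Finset.induction_on generalizing f with
  | empty => simp
  | insert z Z hz ih =>
    rw [Finset.disjoint_insert_left] at h
    have hzZX : z ∉ Z ∪ X := by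
      rw [Finset.mem_union]
      exact fun h2 => h2.elim hz h.1
    rw [Finset.insert_union, Finset.sum_powerset_insert hzZX, ih h.2 f,
      ih h.2 (fun J => f (insert z J)), ← Finset.sum_add_distrib]
    apply Finset.sum_congr rfl
    intro K _
    rw [Finset.sum_powerset_insert hz]
    congr 1
    apply Finset.sum_congr rfl
    intro L _
    rw [Finset.union_insert]

theorem sum_card_mul_pow (a b : ℝ) (Z : Finset α) :
    ∑ L ∈ Z.powerset, (L.card : ℝ) * (a ^ L.card * b ^ (Z.card - L.card)) =
      Z.card * a * (a + b) ^ (Z.card - 1) := by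
  induction Z using Finset.induction_on with
  | empty => simp
  | insert z Z hz ih =>
    have hA : ∑ L ∈ Z.powerset, a ^ L.card * b ^ (Z.card - L.card) = (a + b) ^ Z.card :=
      Finset.sum_pow_mul_eq_add_pow a b Z
    rw [Finset.sum_powerset_insert hz, Finset.card_insert_of_notMem hz]
    have e1 : ∑ L ∈ Z.powerset, (L.card : ℝ) * (a ^ L.card * b ^ (Z.card + 1 - L.card)) =
        b * ∑ L ∈ Z.powerset, (L.card : ℝ) * (a ^ L.card * b ^ (Z.card - L.card)) := by
      rw [Finset.mul_sum]
      apply Finset.sum_congr rfl
      intro L hL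
      have := Finset.card_le_card (Finset.mem_powerset.1 hL)
      have h1 : Z.card + 1 - L.card = Z.card - L.card + 1 := by omega
      rw [h1, pow_succ]
      ring
    have e2 : ∑ L ∈ Z.powerset, ((insert z L).card : ℝ) *
        (a ^ (insert z L).card * b ^ (Z.card + 1 - (insert z L).card)) =
        a * (∑ L ∈ Z.powerset, (L.card : ℝ) * (a ^ L.card * b ^ (Z.card - L.card)) +
          ∑ L ∈ Z.powerset, a ^ L.card * b ^ (Z.card - L.card)) := by
      rw [← Finset.sum_add_distrib, Finset.mul_sum]
      apply Finset.sum_congr rfl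
      intro L hL
      have hzL : z ∉ L := fun h => hz (Finset.mem_powerset.1 hL h)
      rw [Finset.card_insert_of_notMem hzL]
      have h1 : Z.card + 1 - (L.card + 1) = Z.card - L.card := by omega
      rw [h1, pow_succ]
      push_cast
      ring
    rw [e1, e2, ih, hA]
    have h2 : Z.card + 1 - 1 = Z.card := by omega
    rw [h2]
    rcases Nat.eq_zero_or_pos Z.card with h0 | h0
    · rw [h0]
      simp
    · have h3 : Z.card = (Z.card - 1) + 1 := by omega
      have h4 : (a + b) ^ Z.card = (a + b) ^ (Z.card - 1) * (a + b) := by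
        conv_lhs => rw [h3]
        rw [pow_succ]
      push_cast
      rw [h4]
      ring

end Pool.Agent.MW
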