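import Pool.Agent.Lib_MP_4d7355_co.Comb

/-!
# The inequality for down-closed families (MP_4d7355_co)
-/

namespace Pool.Agent.MW

set_option linter.unusedSectionVars false

variable {α : Type*} [DecidableEq α]

/-- `1 - h^W ∏_J w (1 - β ∑_J (w - 1))` -/
noncomputable def phi (h β : ℝ) (T : Finset α) (w : α → ℕ) (J : Finset α) : ℝ :=
  1 - h ^ (∑ t ∈ T, (w t - 1)) * (∏ j ∈ J, (w j : ℝ)) * (1 - β * (∑ j ∈ J, (w j - 1) : ℕ))

theorem prod_le_two_pow (w : α → ℕ) (J : Finset α) (hw : ∀ j ∈ J, 1 ≤ w j) :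
    (∏ j ∈ J, (w j : ℝ)) ≤ 2 ^ (∑ j ∈ J, (w j - 1)) := by
  rw [← Finset.prod_pow_eq_pow_sum]
  apply Finset.prod_le_prod
  · intro j _
    positivity
  · intro j hj
    have h1 := hw j hj
    have h2 : w j ≤ 2 ^ (w j - 1) := by
      have := Nat.lt_two_pow_self (n := w j - 1)
      omega
    exact_mod_cast h2

theorem prod_le_three_quarters (w : α → ℕ) (J : Finset α) (hw : ∀ j ∈ J, 1 ≤ w j) {t : α}
    (ht : t ∈ J) (h3 : 3 ≤ w t) :
    (∏ j ∈ J, (w j : ℝ)) ≤ 3 / 4 * 2 ^ (∑ j ∈ J, (w j - 1)) := by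
  rw [← Finset.mul_prod_erase J _ ht, ← Finset.add_sum_erase J _ ht, pow_add]
  have h1 := prod_le_two_pow w (J.erase t) (fun j hj => hw j (Finset.mem_of_mem_erase hj))
  have h2 : (w t : ℝ) ≤ 3 / 4 * 2 ^ (w t - 1) := by
    have key : ∀ n : ℕ, ((n + 3 : ℕ) : ℝ) ≤ 3 / 4 * 2 ^ (n + 2) := by
      intro n
      induction n with
      | zero => norm_num
      | succ n ih =>
        rw [show n + 1 + 2 = (n + 2) + 1 by ring, pow_succ]
        push_cast at ih ⊢
        have : (1 : ℝ) ≤ 2 ^ (n + 2) := one_le_pow₀ (by norm_num)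
        nlinarith
    have := key (w t - 3)
    have e1 : w t - 3 + 3 = w t := by omega
    have e2 : w t - 3 + 2 = w t - 1 := by omega
    rwa [e1, e2] at this
  have h4 : (0 : ℝ) ≤ ∏ j ∈ J.erase t, (w j : ℝ) := Finset.prod_nonneg (fun j _ => by positivity)
  calc (w t : ℝ) * ∏ j ∈ J.erase t, (w j : ℝ)
      ≤ (3 / 4 * 2 ^ (w t - 1)) * 2 ^ (∑ j ∈ J.erase t, (w j - 1)) :=
        mul_le_mul h2 h1 h4 (by positivity)
    _ = _ := by ring

theorem pow_prod_aux {h β P c : ℝ} (h0 : 0 < h) (h1 : h ≤ 1) {σ W : ℕ} (hW : σ ≤ W)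
    (hP0 : 0 ≤ P) (hP : P ≤ c * 2 ^ σ)
    (hg : c * ((2 * h) ^ σ * (1 - β * σ)) ≤ 1) :
    h ^ W * P * (1 - β * σ) ≤ 1 := by
  rcases le_or_gt (1 - β * σ) 0 with h2 | h2
  · have : h ^ W * P * (1 - β * σ) ≤ 0 :=
      mul_nonpos_of_nonneg_of_nonpos (by positivity) h2
    linarith
  · have h3 : h ^ W ≤ h ^ σ := pow_le_pow_of_le_one h0.le h1 hW
    have h4 : h ^ W * P ≤ h ^ σ * (c * 2 ^ σ) := mul_le_mul h3 hP hP0 (by positivity)
    have h5 : h ^ W * P * (1 - β * σ) ≤ h ^ σ * (c * 2 ^ σ) * (1 - β * σ) :=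
      mul_le_mul_of_nonneg_right h4 h2.le
    refine h5.trans (le_of_eq_of_le ?_ hg)
    rw [mul_pow]
    ring

theorem phi_nonneg_of_lt {h β : ℝ} (h0 : 0 < h) (h1 : h ≤ 1)
    (hg : ∀ σ : ℕ, h * ((2 * h) ^ σ * (1 - β * σ)) ≤ 1) {T : Finset α} {w : α → ℕ}
    (hw : ∀ j ∈ T, 1 ≤ w j) {J : Finset α} (hJ : J ⊆ T)
    (hlt : ∑ j ∈ J, (w j - 1) < ∑ t ∈ T, (w t - 1)) : 0 ≤ phi h β T w J := by
  unfold phi
  rw [sub_nonneg]
  have hP := prod_le_two_pow w J (fun j hj => hw j (hJ hj))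
  have hP0 : (0 : ℝ) ≤ ∏ j ∈ J, (w j : ℝ) := Finset.prod_nonneg (fun j _ => by positivity)
  obtain ⟨d, hd⟩ : ∃ d, ∑ t ∈ T, (w t - 1) = 1 + d := ⟨∑ t ∈ T, (w t - 1) - 1, by omega⟩
  have hd' : ∑ j ∈ J, (w j - 1) ≤ d := by omega
  rw [hd, pow_add, pow_one]
  have := pow_prod_aux (h := h) (β := β) (P := h * ∏ j ∈ J, (w j : ℝ)) (c := h) h0 h1 hd'
    (by positivity) (mul_le_mul_of_nonneg_left hP h0.le) (hg _)
  refine le_trans (le_of_eq ?_) this
  ring

theorem phi_nonneg_of_three {h β : ℝ} (h0 : 0 < h) (h1 : h ≤ 1)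
    (hg : ∀ σ : ℕ, h * ((2 * h) ^ σ * (1 - β * σ)) ≤ 1)
    (hg' : ∀ σ : ℕ, 3 / 4 * ((2 * h) ^ σ * (1 - β * σ)) ≤ 1) {T : Finset α} {w : α → ℕ}
    (hw : ∀ j ∈ T, 1 ≤ w j) {t : α} (ht : t ∈ T) (h3 : 3 ≤ w t) {J : Finset α} (hJ : J ⊆ T) :
    0 ≤ phi h β T w J := by
  by_cases hlt : ∑ j ∈ J, (w j - 1) < ∑ t ∈ T, (w t - 1)
  · exact phi_nonneg_of_lt h0 h1 hg hw hJ hlt
  · have hle : ∑ j ∈ J, (w j - 1) ≤ ∑ t ∈ T, (w t - 1) :=
      Finset.sum_le_sum_of_subset hJ
    have htJ : t ∈ J := by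
      by_contra htJ
      have h4 : ∑ j ∈ insert t J, (w j - 1) ≤ ∑ t ∈ T, (w t - 1) :=
        Finset.sum_le_sum_of_subset (Finset.insert_subset ht hJ)
      rw [Finset.sum_insert htJ] at h4
      omega
    unfold phi
    rw [sub_nonneg]
    have hP := prod_le_three_quarters w J (fun j hj => hw j (hJ hj)) htJ h3
    have hP0 : (0 : ℝ) ≤ ∏ j ∈ J, (w j : ℝ) := Finset.prod_nonneg (fun j _ => by positivity)
    exact pow_prod_aux h0 h1 hle hP0 hP (hg' _)

theorem bern {v : ℝ} (hv : 0 ≤ v) (n : ℕ) : (1 + v) ^ n * (1 - n * v) ≤ 1 := by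
  induction n with
  | zero => simp
  | succ n ih =>
    rcases le_or_gt (1 - (n : ℝ) * v) 0 with h | h
    · have : (1 + v) ^ (n + 1) * (1 - ((n + 1 : ℕ) : ℝ) * v) ≤ 0 := by
        apply mul_nonpos_of_nonneg_of_nonpos
        · positivity
        · push_cast
          nlinarith
      linarith
    · rw [pow_succ]
      have h2 : (1 + v) * (1 - ((n + 1 : ℕ) : ℝ) * v) ≤ 1 - n * v := by
        push_cast
        nlinarith [mul_nonneg (Nat.cast_nonneg (α := ℝ) n) (sq_nonneg v), sq_nonneg v]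
      have h3 : (0 : ℝ) ≤ (1 + v) ^ n := by positivity
      calc (1 + v) ^ n * (1 + v) * (1 - ((n + 1 : ℕ) : ℝ) * v)
          = (1 + v) ^ n * ((1 + v) * (1 - ((n + 1 : ℕ) : ℝ) * v)) := by ring
        _ ≤ (1 + v) ^ n * (1 - n * v) := mul_le_mul_of_nonneg_left h2 h3
        _ ≤ 1 := ih

/-- the total over all subsets of the doubled classes -/
theorem total_nonneg {q h β : ℝ} (hq0 : 0 ≤ q) (hh : 0 < h) (hβ : 0 ≤ β)
    (huv : h * (1 + q) = 1 + 2 * q * β * h) (Z : Finset α) :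
    0 ≤ ∑ L ∈ Z.powerset, q ^ L.card * (1 - q) ^ (Z.card - L.card) *
      (1 - h ^ Z.card * 2 ^ L.card * (1 - β * L.card)) := by
  have e : ∀ L : Finset α, q ^ L.card * (1 - q) ^ (Z.card - L.card) *
      (1 - h ^ Z.card * 2 ^ L.card * (1 - β * L.card)) =
      q ^ L.card * (1 - q) ^ (Z.card - L.card) -
      h ^ Z.card * ((2 * q) ^ L.card * (1 - q) ^ (Z.card - L.card)) +
      h ^ Z.card * β * ((L.card : ℝ) * ((2 * q) ^ L.card * (1 - q) ^ (Z.card - L.card))) := by
    intro L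
    rw [mul_pow]
    ring
  rw [Finset.sum_congr rfl (fun L _ => e L), Finset.sum_add_distrib, Finset.sum_sub_distrib,
    ← Finset.mul_sum, ← Finset.mul_sum, sum_card_mul_pow, Finset.sum_pow_mul_eq_add_pow,
    Finset.sum_pow_mul_eq_add_pow]
  rcases Nat.eq_zero_or_pos Z.card with h0 | h0
  · rw [h0]
    simp
  · obtain ⟨n, hn⟩ : ∃ n, Z.card = n + 1 := ⟨Z.card - 1, by omega⟩
    rw [hn]
    have h1 : n + 1 - 1 = n := by omega
    rw [h1]
    have hv : 0 ≤ 2 * q * β * h := by positivity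
    have hb := bern hv n
    have e2 : 2 * q + (1 - q) = 1 + q := by ring
    have e3 : q + (1 - q) = 1 := by ring
    rw [e2, e3, one_pow]
    have e4 : 1 - h ^ (n + 1) * (1 + q) ^ (n + 1) +
        h ^ (n + 1) * β * (((n + 1 : ℕ) : ℝ) * (2 * q) * (1 + q) ^ n) =
        1 - (h * (1 + q)) ^ n * (h * (1 + q) - (n + 1) * (2 * q * β * h)) := by
      rw [mul_pow, pow_succ h, pow_succ (1 + q)]
      push_cast
      ring
    rw [e4, huv]
    have e5 : (1 + 2 * q * β * h - ((n : ℝ) + 1) * (2 * q * β * h)) =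
        1 - n * (2 * q * β * h) := by ring
    rw [e5]
    linarith

/-- **The core inequality.** -/
theorem core {q h β : ℝ} (hq0 : 0 ≤ q) (hq1 : q ≤ 1) (h0 : 0 < h) (h1 : h ≤ 1) (hβ : 0 ≤ β)
    (huv : h * (1 + q) = 1 + 2 * q * β * h)
    (hg : ∀ σ : ℕ, h * ((2 * h) ^ σ * (1 - β * σ)) ≤ 1)
    (hg' : ∀ σ : ℕ, 3 / 4 * ((2 * h) ^ σ * (1 - β * σ)) ≤ 1) {T : Finset α} {w : α → ℕ}
    (hw : ∀ j ∈ T, 1 ≤ w j) (I : Finset α → Prop) [DecidablePred I]
    (hI : ∀ A B, A ⊆ B → I B → I A) :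
    0 ≤ ∑ J ∈ T.powerset, (if I J then q ^ J.card * (1 - q) ^ (T.card - J.card) else 0) *
      phi h β T w J := by
  have hq2 : 0 ≤ 1 - q := by linarith
  have hπ : ∀ J : Finset α, 0 ≤ (if I J then q ^ J.card * (1 - q) ^ (T.card - J.card) else 0) := by
    intro J
    split_ifs
    · positivity
    · exact le_rfl
  by_cases h3 : ∃ t ∈ T, 3 ≤ w t
  · obtain ⟨t, ht, h3⟩ := h3
    apply Finset.sum_nonneg
    intro J hJ
    exact mul_nonneg (hπ J) (phi_nonneg_of_three h0 h1 hg hg' hw ht h3 (Finset.mem_powerset.1 hJ))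
  · push Not at h3
    set Z := T.filter (fun t => w t = 2) with hZ
    set X := T.filter (fun t => ¬ w t = 2) with hX
    have hZX : Disjoint Z X := Finset.disjoint_filter_filter_not _ _ _
    have hT : Z ∪ X = T := Finset.filter_union_filter_not_eq _ _
    have hwZ : ∀ z ∈ Z, w z = 2 := fun z hz => (Finset.mem_filter.1 hz).2
    have hwX : ∀ x ∈ X, w x = 1 := by
      intro x hx
      have hx' := Finset.mem_filter.1 hx
      have h4 := hw x hx'.1
      have h5 := h3 x hx'.1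
      have h6 := hx'.2
      omega
    have hcard : T.card = Z.card + X.card := by
      rw [← hT, Finset.card_union_of_disjoint hZX]
    have sK : ∀ K, K ⊆ X → ∑ x ∈ K, (w x - 1) = 0 := by
      intro K hK
      apply Finset.sum_eq_zero
      intro x hx
      have := hwX x (hK hx)
      omega
    have sL : ∀ L, L ⊆ Z → ∑ x ∈ L, (w x - 1) = L.card := by
      intro L hL
      rw [Finset.card_eq_sum_ones]
      apply Finset.sum_congr rfl
      intro x hx
      have := hwZ x (hL hx)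
      omega
    have pK : ∀ K, K ⊆ X → ∏ x ∈ K, (w x : ℝ) = 1 := by
      intro K hK
      apply Finset.prod_eq_one
      intro x hx
      rw [hwX x (hK hx)]
      simp
    have pL : ∀ L, L ⊆ Z → ∏ x ∈ L, (w x : ℝ) = 2 ^ L.card := by
      intro L hL
      rw [← Finset.prod_const]
      apply Finset.prod_congr rfl
      intro x hx
      rw [hwZ x (hL hx)]
      simp
    have hWT : ∑ t ∈ T, (w t - 1) = Z.card := by
      rw [← hT, Finset.sum_union hZX, sL Z (Finset.Subset.refl Z), sK X (Finset.Subset.refl X),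
        add_zero]
    rw [← hT, sum_powerset_union hZX, hT]
    apply Finset.sum_nonneg
    intro K hK
    have hK' := Finset.mem_powerset.1 hK
    have hphi : ∀ L ∈ Z.powerset, phi h β T w (K ∪ L) =
        1 - h ^ Z.card * 2 ^ L.card * (1 - β * L.card) := by
      intro L hL
      have hL' := Finset.mem_powerset.1 hL
      have hdis : Disjoint K L :=
        (Finset.disjoint_of_subset_left hL' (Finset.disjoint_of_subset_right hK' hZX)).symm
      unfold phi
      rw [hWT, Finset.prod_union hdis, Finset.sum_union hdis, pK K hK', pL L hL', sK K hK',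
        sL L hL', zero_add, one_mul]
    have hcardKL : ∀ L ∈ Z.powerset, (K ∪ L).card = K.card + L.card := by
      intro L hL
      have hL' := Finset.mem_powerset.1 hL
      exact Finset.card_union_of_disjoint
        (Finset.disjoint_of_subset_left hL' (Finset.disjoint_of_subset_right hK' hZX)).symm
    have hKX := Finset.card_le_card hK'
    by_cases hIK : I (K ∪ Z)
    · have hall : ∀ L ∈ Z.powerset, (if I (K ∪ L) then
          q ^ (K ∪ L).card * (1 - q) ^ (T.card - (K ∪ L).card) else 0) * phi h β T w (K ∪ L) =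
          q ^ K.card * (1 - q) ^ (X.card - K.card) *
          (q ^ L.card * (1 - q) ^ (Z.card - L.card) *
            (1 - h ^ Z.card * 2 ^ L.card * (1 - β * L.card))) := by
        intro L hL
        have hL' := Finset.mem_powerset.1 hL
        have hLZ := Finset.card_le_card hL'
        rw [if_pos (hI _ _ (Finset.union_subset_union_right hL') hIK), hphi L hL, hcardKL L hL]
        have e1 : T.card - (K.card + L.card) = (X.card - K.card) + (Z.card - L.card) := by omega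
        rw [e1, pow_add, pow_add]
        ring
      rw [Finset.sum_congr rfl hall, ← Finset.mul_sum]
      exact mul_nonneg (by positivity) (total_nonneg hq0 h0 hβ huv Z)
    · apply Finset.sum_nonneg
      intro L hL
      have hL' := Finset.mem_powerset.1 hL
      by_cases hLZ : L = Z
      · subst hLZ
        rw [if_neg hIK, zero_mul]
      · apply mul_nonneg (hπ _)
        apply phi_nonneg_of_lt h0 h1 hg hw
        · rw [← hT, Finset.union_comm Z X]
          exact Finset.union_subset_union hK' hL'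
        · rw [hWT]
          have hdis : Disjoint K L :=
            (Finset.disjoint_of_subset_left hL' (Finset.disjoint_of_subset_right hK' hZX)).symm
          rw [Finset.sum_union hdis, sK K hK', sL L hL', zero_add]
          exact Finset.card_lt_card (Finset.ssubset_iff_subset_ne.2 ⟨hL', hLZ⟩)

end Pool.Agent.MW
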