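import Pool.Agent.Lib_MP_4d7355_co.Tutte

/-!
# The rank function of a multigraph (MP_4d7355_co)
-/

namespace Pool.Agent.MW

variable {n m : ℕ}

/-- the simple graph with the edges in `A` -/
def gr (e : Fin m → Fin n × Fin n) (A : Finset (Fin m)) : SimpleGraph (Fin n) :=
  SimpleGraph.fromRel (fun a b : Fin n => ∃ j ∈ A, e j = (a, b))

/-- the vector of an edge -/
noncomputable def evec (e : Fin m → Fin n × Fin n) (j : Fin m) : Fin n →₀ ℚ :=
  Finsupp.single (e j).1 1 - Finsupp.single (e j).2 1

/-- the span of the edges in `A` -/
noncomputable def esp (e : Fin m → Fin n × Fin n) (A : Finset (Fin m)) :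
    Submodule ℚ (Fin n →₀ ℚ) := Submodule.span ℚ ((A.image (evec e) : Finset (Fin n →₀ ℚ)) : Set _)

theorem evec_mem (e : Fin m → Fin n × Fin n) {A : Finset (Fin m)} {j : Fin m} (hj : j ∈ A) :
    evec e j ∈ esp e A :=
  Submodule.subset_span (Finset.mem_coe.2 (Finset.mem_image_of_mem _ hj))

theorem reach_mem (e : Fin m → Fin n × Fin n) {A : Finset (Fin m)} {a b : Fin n}
    (h : (gr e A).Reachable a b) :
    Finsupp.single a (1 : ℚ) - Finsupp.single b 1 ∈ esp e A := by
  obtain ⟨p⟩ := h
  induction p with
  | nil => rw [sub_self]; exact Submodule.zero_mem _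
  | @cons u v w hadj p ih =>
    have h1 : Finsupp.single u (1 : ℚ) - Finsupp.single v 1 ∈ esp e A := by
      have h2 := hadj
      unfold gr at h2
      rw [SimpleGraph.fromRel_adj] at h2
      rcases h2.2 with ⟨j, hj, hje⟩ | ⟨j, hj, hje⟩
      · have := evec_mem e hj
        unfold evec at this
        rwa [hje] at this
      · have := Submodule.neg_mem _ (evec_mem e hj)
        unfold evec at this
        rwa [hje, neg_sub] at this
    have h3 := Submodule.add_mem _ h1 ih
    rwa [sub_add_sub_cancel] at h3

theorem finrank_aux {K E F : Type*} [Field K] [AddCommGroup E] [Module K E] [AddCommGroup F]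
    [Module K F] [FiniteDimensional K E] (L : E →ₗ[K] F) (hL : Function.Surjective L) :
    Module.finrank K F + Module.finrank K (LinearMap.ker L) = Module.finrank K E := by
  rw [← LinearMap.finrank_range_add_finrank_ker L, LinearMap.range_eq_top.mpr hL, finrank_top]

theorem finrank_add_comps (e : Fin m → Fin n × Fin n) (A : Finset (Fin m)) :
    Module.finrank ℚ (esp e A) + Nat.card (gr e A).ConnectedComponent = n := by
  classical
  set H := gr e A with hH
  set π : Fin n → H.ConnectedComponent := H.connectedComponentMk with hπ
  have hsurj : Function.Surjective π := fun c => by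
    induction c using SimpleGraph.ConnectedComponent.ind with
    | _ v => exact ⟨v, rfl⟩
  have hfin : Finite H.ConnectedComponent := Finite.of_surjective π hsurj
  have : Fintype H.ConnectedComponent := Fintype.ofFinite _
  set L := Finsupp.lmapDomain ℚ ℚ π with hL
  have hker : LinearMap.ker L = esp e A := by
    apply le_antisymm
    · intro f hf
      rw [LinearMap.mem_ker, hL, Finsupp.lmapDomain_apply] at hf
      set r : H.ConnectedComponent → Fin n := Function.surjInv hsurj with hr
      have hr' : ∀ c, π (r c) = c := Function.surjInv_eq hsurj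
      have h1 : Finsupp.mapDomain (r ∘ π) f = 0 := by
        rw [Finsupp.mapDomain_comp, hf]; simp
      have h2 : ∀ g : Fin n →₀ ℚ, g - Finsupp.mapDomain (r ∘ π) g ∈ esp e A := by
        intro g
        induction g using Finsupp.induction_linear with
        | zero => simp
        | add g1 g2 h3 h4 =>
          rw [Finsupp.mapDomain_add]
          have h5 := Submodule.add_mem _ h3 h4
          have h6 : g1 - Finsupp.mapDomain (r ∘ π) g1 + (g2 - Finsupp.mapDomain (r ∘ π) g2) =
              g1 + g2 - (Finsupp.mapDomain (r ∘ π) g1 + Finsupp.mapDomain (r ∘ π) g2) := by abel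
          rw [h6] at h5
          exact h5
        | single v c =>
          rw [Finsupp.mapDomain_single]
          have h5 : H.Reachable v (r (π v)) := by
            have := hr' (π v)
            rw [hπ, SimpleGraph.ConnectedComponent.eq] at this
            exact this.symm
          have h6 := Submodule.smul_mem _ c (reach_mem e h5)
          simpa [smul_sub, Finsupp.smul_single] using h6
      have h3 := h2 f
      rwa [h1, sub_zero] at h3
    · unfold esp
      rw [Submodule.span_le]
      intro v hv
      obtain ⟨j, hj, rfl⟩ := Finset.mem_image.1 (Finset.mem_coe.1 hv)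
      rw [SetLike.mem_coe, LinearMap.mem_ker, hL]
      unfold evec
      rw [map_sub, Finsupp.lmapDomain_apply, Finsupp.lmapDomain_apply, Finsupp.mapDomain_single,
        Finsupp.mapDomain_single]
      have hab : π (e j).1 = π (e j).2 := by
        by_cases hne : (e j).1 = (e j).2
        · rw [hne]
        · rw [hπ, SimpleGraph.ConnectedComponent.eq]
          apply SimpleGraph.Adj.reachable
          rw [hH]
          unfold gr
          rw [SimpleGraph.fromRel_adj]
          exact ⟨hne, Or.inl ⟨j, hj, rfl⟩⟩
      rw [hab, sub_self]
  have h1 := finrank_aux L (by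
    rw [hL]
    exact Finsupp.mapDomain_surjective hsurj)
  rw [hker, Module.finrank_finsupp_self, Module.finrank_finsupp_self, Fintype.card_fin] at h1
  rw [Nat.card_eq_fintype_card]
  omega

theorem esp_union (e : Fin m → Fin n × Fin n) (A B : Finset (Fin m)) :
    esp e (A ∪ B) = esp e A ⊔ esp e B := by
  unfold esp
  rw [Finset.image_union, Finset.coe_union, Submodule.span_union]

theorem esp_mono (e : Fin m → Fin n × Fin n) {A B : Finset (Fin m)} (h : A ⊆ B) :
    esp e A ≤ esp e B :=
  Submodule.span_mono (Finset.coe_subset.2 (Finset.image_subset_image h))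

/-- The rank function of a multigraph. -/
noncomputable def grank (e : Fin m → Fin n × Fin n) : RankFn (Fin m) where
  r A := Module.finrank ℚ (esp e A)
  le_card A := by
    refine (finrank_span_finset_le_card _).trans ?_
    exact Finset.card_image_le
  mono A B h := Submodule.finrank_mono (esp_mono e h)
  submod A B := by
    rw [esp_union]
    have h1 := Submodule.finrank_sup_add_finrank_inf_eq (esp e A) (esp e B)
    have h2 : Module.finrank ℚ (esp e (A ∩ B)) ≤
        Module.finrank ℚ (esp e A ⊓ esp e B : Submodule ℚ (Fin n →₀ ℚ)) :=
      Submodule.finrank_mono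
        (le_inf (esp_mono e Finset.inter_subset_left) (esp_mono e Finset.inter_subset_right))
    omega

theorem grank_eq (e : Fin m → Fin n × Fin n) (A : Finset (Fin m)) :
    (grank e).r A = n - Nat.card (gr e A).ConnectedComponent := by
  have h := finrank_add_comps e A
  have h2 : (grank e).r A = Module.finrank ℚ (esp e A) := rfl
  omega

theorem grank_add (e : Fin m → Fin n × Fin n) (A : Finset (Fin m)) :
    (grank e).r A + Nat.card (gr e A).ConnectedComponent = n :=
  finrank_add_comps e A

theorem grank_single (e : Fin m → Fin n × Fin n) {j : Fin m} (hj : (e j).1 ≠ (e j).2) :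
    (grank e).r {j} = 1 := by
  have h2 : (grank e).r {j} = Module.finrank ℚ (esp e {j}) := rfl
  rw [h2]
  unfold esp
  rw [Finset.image_singleton, Finset.coe_singleton]
  apply finrank_span_singleton
  intro h
  unfold evec at h
  have h3 := DFunLike.congr_fun h (e j).1
  rw [Finsupp.sub_apply, Finsupp.single_eq_same, Finsupp.single_eq_of_ne hj] at h3
  norm_num at h3

theorem grank_pair (e : Fin m → Fin n × Fin n) {i j : Fin m} (hi : (e i).1 ≠ (e i).2)
    (hj : (e j).1 ≠ (e j).2) (h1 : e i ≠ e j) (h2 : e i ≠ (e j).swap) :
    (grank e).r {i, j} = 2 := by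
  have h3 : (grank e).r {i, j} = Module.finrank ℚ (esp e {i, j}) := rfl
  rw [h3]
  unfold esp
  rw [Finset.image_insert, Finset.image_singleton, Finset.coe_insert, Finset.coe_singleton]
  have hli : LinearIndependent ℚ ![evec e i, evec e j] := by
    rw [LinearIndependent.pair_iff]
    intro s t hst
    -- coordinates
    have key : ∀ v : Fin n, s * (evec e i v) + t * (evec e j v) = 0 := by
      intro v
      have := DFunLike.congr_fun hst v
      simpa using this
    have ev : ∀ (k : Fin m) (v : Fin n), evec e k v =
        (if (e k).1 = v then 1 else 0) - (if (e k).2 = v then 1 else 0) := by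
      intro k v
      unfold evec
      rw [Finsupp.sub_apply, Finsupp.single_apply, Finsupp.single_apply]
    have hs : s = 0 := by
      by_cases c1 : (e j).1 = (e i).1
      · -- then (e i).2 is not an end of j
        have c2 : (e j).2 ≠ (e i).2 := fun h => h1 (Prod.ext c1.symm h.symm)
        have c3 : (e j).1 ≠ (e i).2 := by rw [c1]; exact hi
        have := key (e i).2
        rw [ev, ev, if_neg hi, if_pos rfl, if_neg c3, if_neg c2] at this
        linarith
      · by_cases c4 : (e j).2 = (e i).1
        · have c5 : (e j).1 ≠ (e i).2 := fun h => h2 (Prod.ext c4.symm h.symm)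
          have c6 : (e j).2 ≠ (e i).2 := by rw [c4]; exact hi
          have := key (e i).2
          rw [ev, ev, if_neg hi, if_pos rfl, if_neg c5, if_neg c6] at this
          linarith
        · have := key (e i).1
          rw [ev, ev, if_pos rfl, if_neg (Ne.symm hi), if_neg c1, if_neg c4] at this
          linarith
    refine ⟨hs, ?_⟩
    have := key (e j).1
    rw [hs, zero_mul, zero_add, ev, if_pos rfl, if_neg (Ne.symm hj)] at this
    linarith
  have h4 := finrank_span_eq_card hli
  rw [Fintype.card_fin] at h4
  have h5 : Set.range ![evec e i, evec e j] = {evec e i, evec e j} := by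
    simp [Matrix.range_cons, Matrix.range_empty, Set.pair_comm]
  rw [h5] at h4
  exact h4

end Pool.Agent.MW
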