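import Pool.Agent.Lib_MP_4d7355_co.Mono

/-!
# The inequalities for multigraphs, in the format of the frozen statements (MP_4d7355_co)
-/

namespace Pool.Agent.MW

variable {n m : ℕ}

theorem exp_eq (e : Fin m → Fin n × Fin n) (c : Finset (Fin m) → ℕ)
    (hc : ∀ A : Finset (Fin m),
      c A = Nat.card (SimpleGraph.fromRel (fun a b : Fin n => ∃ j ∈ A, e j = (a, b))).ConnectedComponent)
    (A : Finset (Fin m)) : n - c A = (grank e).r A := by
  have h1 := hc A
  have h2 := grank_eq e A
  unfold gr at h2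
  rw [h2, h1]

theorem T_real (e : Fin m → Fin n × Fin n) (c : Finset (Fin m) → ℕ) (T : ℝ → ℝ → ℝ)
    (hc : ∀ A : Finset (Fin m),
      c A = Nat.card (SimpleGraph.fromRel (fun a b : Fin n => ∃ j ∈ A, e j = (a, b))).ConnectedComponent)
    (hT : ∀ x y : ℝ, T x y = ∑ A ∈ (Finset.univ : Finset (Fin m)).powerset,
        (x - 1) ^ ((n - c Finset.univ) - (n - c A)) * (y - 1) ^ (A.card - (n - c A)))
    (x y : ℝ) : T x y = TT (grank e) x y := by
  rw [hT, TT]
  apply Finset.sum_congr rfl
  intro A _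
  rw [exp_eq e c hc, exp_eq e c hc]

theorem T_int (e : Fin m → Fin n × Fin n) (c : Finset (Fin m) → ℕ) (T : ℤ → ℤ → ℤ)
    (hc : ∀ A : Finset (Fin m),
      c A = Nat.card (SimpleGraph.fromRel (fun a b : Fin n => ∃ j ∈ A, e j = (a, b))).ConnectedComponent)
    (hT : ∀ x y : ℤ, T x y = ∑ A ∈ (Finset.univ : Finset (Fin m)).powerset,
        (x - 1) ^ ((n - c Finset.univ) - (n - c A)) * (y - 1) ^ (A.card - (n - c A)))
    (x y : ℤ) : (T x y : ℝ) = TT (grank e) x y := by
  rw [hT, TT]
  push_cast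
  apply Finset.sum_congr rfl
  intro A _
  rw [exp_eq e c hc, exp_eq e c hc]

theorem c_add (e : Fin m → Fin n × Fin n) (c : Finset (Fin m) → ℕ)
    (hc : ∀ A : Finset (Fin m),
      c A = Nat.card (SimpleGraph.fromRel (fun a b : Fin n => ∃ j ∈ A, e j = (a, b))).ConnectedComponent)
    (A : Finset (Fin m)) : (grank e).r A + c A = n := by
  have h1 := hc A
  have h2 := grank_add e A
  unfold gr at h2
  rw [h1]
  exact h2

theorem dual_single (e : Fin m → Fin n × Fin n) (c : Finset (Fin m) → ℕ)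
    (hc : ∀ A : Finset (Fin m),
      c A = Nat.card (SimpleGraph.fromRel (fun a b : Fin n => ∃ j ∈ A, e j = (a, b))).ConnectedComponent)
    (hb : ∀ i : Fin m, c (Finset.univ.erase i) = c Finset.univ) (i : Fin m) :
    (grank e).dual.r {i} = 1 := by
  rw [RankFn.dual_r]
  have h1 := c_add e c hc (Finset.univ.erase i)
  have h2 := c_add e c hc Finset.univ
  rw [hb i] at h1
  have h3 : ({i} : Finset (Fin m))ᶜ = Finset.univ.erase i := by
    ext x
    simp
  rw [h3, Finset.card_singleton]
  omega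

theorem dual_pair (e : Fin m → Fin n × Fin n) (c : Finset (Fin m) → ℕ)
    (hc : ∀ A : Finset (Fin m),
      c A = Nat.card (SimpleGraph.fromRel (fun a b : Fin n => ∃ j ∈ A, e j = (a, b))).ConnectedComponent)
    (hb : ∀ i j : Fin m, c ((Finset.univ.erase i).erase j) = c Finset.univ) (i j : Fin m)
    (hij : i ≠ j) : (grank e).dual.r {i, j} = 2 := by
  rw [RankFn.dual_r]
  have h1 := c_add e c hc ((Finset.univ.erase i).erase j)
  have h2 := c_add e c hc Finset.univ
  rw [hb i j] at h1
  have h3 : ({i, j} : Finset (Fin m))ᶜ = (Finset.univ.erase i).erase j := by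
    ext x
    simp only [Finset.mem_compl, Finset.mem_insert, Finset.mem_singleton, Finset.mem_erase,
      Finset.mem_univ, and_true]
    tauto
  rw [h3, Finset.card_pair hij]
  omega

end Pool.Agent.MW
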