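import Pool.Agent.Lib_MP_4d7355_co.GraphBounds

/-!
# Degrees and edge-connectivity (MP_4d7355_co)
-/

namespace Pool.Agent.MW

variable {n m : ℕ}

/-- the edges at a vertex -/
def star (e : Fin m → Fin n × Fin n) (v : Fin n) : Finset (Fin m) :=
  Finset.univ.filter (fun j => (e j).1 = v ∨ (e j).2 = v)

theorem esp_ker (e : Fin m → Fin n × Fin n) (v : Fin n) {x : Fin n →₀ ℚ}
    (hx : x ∈ esp e (Finset.univ \ star e v)) : x v = 0 := by
  have h1 : esp e (Finset.univ \ star e v) ≤ LinearMap.ker (Finsupp.lapply (R := ℚ) v :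
      (Fin n →₀ ℚ) →ₗ[ℚ] ℚ) := by
    unfold esp
    rw [Submodule.span_le]
    intro y hy
    obtain ⟨j, hj, rfl⟩ := Finset.mem_image.1 (Finset.mem_coe.1 hy)
    rw [SetLike.mem_coe, LinearMap.mem_ker, Finsupp.lapply_apply]
    unfold star at hj
    rw [Finset.mem_sdiff, Finset.mem_filter] at hj
    have h2 : (e j).1 ≠ v := fun h => hj.2 ⟨Finset.mem_univ _, Or.inl h⟩
    have h3 : (e j).2 ≠ v := fun h => hj.2 ⟨Finset.mem_univ _, Or.inr h⟩
    unfold evec
    rw [Finsupp.sub_apply, Finsupp.single_apply, Finsupp.single_apply, if_neg h2, if_neg h3,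
      sub_zero]
  have h2 := h1 hx
  rwa [LinearMap.mem_ker, Finsupp.lapply_apply] at h2

theorem star_empty (e : Fin m → Fin n × Fin n) (hl : ∀ i, (e i).1 ≠ (e i).2) (v : Fin n)
    (h : (grank e).r (Finset.univ \ star e v) = (grank e).r Finset.univ) : star e v = ∅ := by
  rw [Finset.eq_empty_iff_forall_notMem]
  intro j hj
  have h1 : esp e (Finset.univ \ star e v) = esp e Finset.univ :=
    Submodule.eq_of_le_of_finrank_eq (esp_mono e (Finset.subset_univ _)) h
  have h2 : evec e j ∈ esp e (Finset.univ \ star e v) := by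
    rw [h1]
    exact evec_mem e (Finset.mem_univ _)
  have h3 := esp_ker e v h2
  have h4 := hl j
  unfold star at hj
  rw [Finset.mem_filter] at hj
  unfold evec at h3
  rw [Finsupp.sub_apply, Finsupp.single_apply, Finsupp.single_apply] at h3
  rcases hj.2 with h5 | h5
  · rw [if_pos h5, if_neg (fun h6 => h4 (h5.trans h6.symm))] at h3
    norm_num at h3
  · rw [if_pos h5, if_neg (fun h6 => h4 (h6.trans h5.symm))] at h3
    norm_num at h3

theorem sum_star (e : Fin m → Fin n × Fin n) (hl : ∀ i, (e i).1 ≠ (e i).2) :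
    ∑ v, (star e v).card = 2 * m := by
  classical
  have h1 : ∀ v, (star e v).card = ∑ j : Fin m, if (e j).1 = v ∨ (e j).2 = v then 1 else 0 := by
    intro v
    unfold star
    rw [Finset.card_filter]
  simp_rw [h1]
  rw [Finset.sum_comm]
  have h2 : ∀ j : Fin m, (∑ v : Fin n, if (e j).1 = v ∨ (e j).2 = v then 1 else 0) = 2 := by
    intro j
    rw [← Finset.card_filter]
    have h3 : (Finset.univ.filter (fun v : Fin n => (e j).1 = v ∨ (e j).2 = v)) =
        {(e j).1, (e j).2} := by
      ext v
      simp only [Finset.mem_filter, Finset.mem_univ, true_and, Finset.mem_insert,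
        Finset.mem_singleton]
      constructor
      · rintro (h | h)
        · exact Or.inl h.symm
        · exact Or.inr h.symm
      · rintro (h | h)
        · exact Or.inl h.symm
        · exact Or.inr h.symm
    rw [h3, Finset.card_pair (hl j)]
  rw [Finset.sum_congr rfl (fun j _ => h2 j)]
  simp [mul_comm]

theorem rank_le_nonisolated (e : Fin m → Fin n × Fin n) :
    (grank e).r Finset.univ ≤ (Finset.univ.filter (fun v => star e v ≠ ∅)).card := by
  classical
  set V := Finset.univ.filter (fun v : Fin n => star e v ≠ ∅) with hV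
  have h1 : esp e Finset.univ ≤ Submodule.span ℚ
      ((V.image (fun v => (Finsupp.single v (1 : ℚ))) : Finset (Fin n →₀ ℚ)) : Set _) := by
    unfold esp
    rw [Submodule.span_le]
    intro y hy
    obtain ⟨j, hj, rfl⟩ := Finset.mem_image.1 (Finset.mem_coe.1 hy)
    have h2 : ∀ v, ((e j).1 = v ∨ (e j).2 = v) → Finsupp.single v (1 : ℚ) ∈ Submodule.span ℚ
      ((V.image (fun v => (Finsupp.single v (1 : ℚ))) : Finset (Fin n →₀ ℚ)) : Set _) := by
      intro v hv
      apply Submodule.subset_span
      apply Finset.mem_coe.2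
      apply Finset.mem_image_of_mem
      rw [hV, Finset.mem_filter]
      refine ⟨Finset.mem_univ _, Finset.Nonempty.ne_empty ⟨j, ?_⟩⟩
      unfold star
      rw [Finset.mem_filter]
      exact ⟨Finset.mem_univ _, hv⟩
    exact Submodule.sub_mem _ (h2 _ (Or.inl rfl)) (h2 _ (Or.inr rfl))
  have h3 : (grank e).r Finset.univ = Module.finrank ℚ (esp e Finset.univ) := rfl
  rw [h3]
  exact (Submodule.finrank_mono h1).trans
    ((finrank_span_finset_le_card _).trans Finset.card_image_le)

theorem five_rank_le (e : Fin m → Fin n × Fin n) (hl : ∀ i, (e i).1 ≠ (e i).2)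
    (h : ∀ A : Finset (Fin m), A.card ≤ 4 →
      (grank e).r (Finset.univ \ A) = (grank e).r Finset.univ) :
    5 * (grank e).r Finset.univ ≤ 2 * m := by
  classical
  have h1 := rank_le_nonisolated e
  set V := Finset.univ.filter (fun v : Fin n => star e v ≠ ∅) with hV
  have h2 : ∀ v ∈ V, 5 ≤ (star e v).card := by
    intro v hv
    by_contra hneg
    push Not at hneg
    rw [hV, Finset.mem_filter] at hv
    exact hv.2 (star_empty e hl v (h _ (by omega)))
  have h3 : V.card * 5 ≤ ∑ v ∈ V, (star e v).card := by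
    have := Finset.card_nsmul_le_sum V (fun v => (star e v).card) 5 h2
    simpa using this
  have h4 : ∑ v ∈ V, (star e v).card ≤ ∑ v, (star e v).card :=
    Finset.sum_le_sum_of_subset (Finset.subset_univ _)
  rw [sum_star e hl] at h4
  omega

end Pool.Agent.MW
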