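import Pool.Agent.Lib_MP_4d7355_co.Bounds

/-!
# Monotonicity of the Tutte polynomial on the axis (MP_4d7355_co)
-/

namespace Pool.Agent.MW

variable {α : Type*} [DecidableEq α]

/-- the rank-nullity sum at `(b, 0)` on the subsets of `S` -/
noncomputable def W (b : ℝ) (R : RankFn α) (S : Finset α) : ℝ :=
  ∑ A ∈ S.powerset, (b - 1) ^ (R.r S - R.r A) * (-1) ^ (A.card - R.r A)

theorem W_insert (b : ℝ) (R : RankFn α) {e : α} {S : Finset α} (heS : e ∉ S)
    (he : R.r {e} = 1) :
    W b R (insert e S) = (b - 1) ^ (R.r (insert e S) - R.r S) * W b R S +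
      W b (R.contract e) S := by
  unfold W
  rw [Finset.sum_powerset_insert heS, Finset.mul_sum]
  congr 1
  · apply Finset.sum_congr rfl
    intro A hA
    have h1 := R.mono A S (Finset.mem_powerset.1 hA)
    have h2 := R.r_le_insert e S
    have e1 : R.r (insert e S) - R.r A = (R.r (insert e S) - R.r S) + (R.r S - R.r A) := by omega
    rw [e1, pow_add]
    ring
  · apply Finset.sum_congr rfl
    intro A hA
    have hA' := Finset.mem_powerset.1 hA
    have heA : e ∉ A := fun h => heS (hA' h)
    have h1 := R.contract_r' he A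
    have h2 := R.contract_r' he S
    rw [← h1, ← h2, Finset.card_insert_of_notMem heA]
    have h3 : A.card + 1 - ((R.contract e).r A + 1) = A.card - (R.contract e).r A := by omega
    have h4 : (R.contract e).r S + 1 - ((R.contract e).r A + 1) =
      (R.contract e).r S - (R.contract e).r A := by omega
    rw [h3, h4]

theorem W_loop (b : ℝ) (R : RankFn α) {e : α} {S : Finset α} (heS : e ∉ S)
    (he : R.r {e} = 0) : W b R (insert e S) = 0 := by
  unfold W
  rw [Finset.sum_powerset_insert heS, ← Finset.sum_add_distrib]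
  apply Finset.sum_eq_zero
  intro A hA
  have hA' := Finset.mem_powerset.1 hA
  have heA : e ∉ A := fun h => heS (hA' h)
  rw [R.r_insert_loop he, R.r_insert_loop he, Finset.card_insert_of_notMem heA]
  have h1 := R.le_card A
  have h2 : A.card + 1 - R.r A = A.card - R.r A + 1 := by omega
  rw [h2, pow_succ]
  ring

theorem W_mono {b b' : ℝ} (hb : 1 ≤ b) (hbb : b ≤ b') (n : ℕ) :
    ∀ (R : RankFn α) (S : Finset α), S.card = n → 0 ≤ W b R S ∧ W b R S ≤ W b' R S := by
  induction n with
  | zero =>
    intro R S hS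
    rw [Finset.card_eq_zero] at hS
    subst hS
    unfold W
    simp [R.r_empty]
  | succ n ih =>
    intro R S hS
    obtain ⟨e, S', heS', rfl, hS'⟩ : ∃ e S', e ∉ S' ∧ insert e S' = S ∧ S'.card = n :=
      Finset.card_eq_succ.1 hS
    rcases Nat.eq_zero_or_pos (R.r {e}) with he | he
    · rw [W_loop b R heS' he, W_loop b' R heS' he]
      exact ⟨le_rfl, le_rfl⟩
    · have he1 : R.r {e} = 1 := by
        have := R.r_singleton_le e
        omega
      obtain ⟨h1, h2⟩ := ih R S' hS'
      obtain ⟨h3, h4⟩ := ih (R.contract e) S' hS'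
      rw [W_insert b R heS' he1, W_insert b' R heS' he1]
      have hb0 : 0 ≤ b - 1 := by linarith
      have h5 : (b - 1) ^ (R.r (insert e S') - R.r S') ≤
          (b' - 1) ^ (R.r (insert e S') - R.r S') :=
        pow_le_pow_left₀ hb0 (by linarith) _
      have h6 : 0 ≤ (b - 1) ^ (R.r (insert e S') - R.r S') := by positivity
      constructor
      · positivity
      · have h7 : (b - 1) ^ (R.r (insert e S') - R.r S') * W b R S' ≤
            (b' - 1) ^ (R.r (insert e S') - R.r S') * W b' R S' :=
          mul_le_mul h5 h2 h1 (h6.trans h5)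
        linarith

variable [Fintype α]

theorem W_eq_TT (b : ℝ) (R : RankFn α) : W b R Finset.univ = TT R b 0 := by
  unfold W TT
  rw [zero_sub]

theorem TT_mono (R : RankFn α) {b b' : ℝ} (hb : 1 ≤ b) (hbb : b ≤ b') :
    TT R b 0 ≤ TT R b' 0 := by
  rw [← W_eq_TT, ← W_eq_TT]
  exact (W_mono hb hbb _ R Finset.univ rfl).2

theorem TT_nonneg (R : RankFn α) {b : ℝ} (hb : 1 ≤ b) : 0 ≤ TT R b 0 := by
  rw [← W_eq_TT]
  exact (W_mono hb le_rfl _ R Finset.univ rfl).1

end Pool.Agent.MW
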