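import Pool.Agent.Lib_MP_4d7355_co.Mono

/-!
# The dual value, the number of bases, monotonicity (MP_4d7355_co)
-/

namespace Pool.Agent.MW

variable {α : Type*} [DecidableEq α]

/-- the alternating sum for the dual value -/
noncomputable def UD (s : ℝ) (R : RankFn α) (S : Finset α) : ℝ :=
  ∑ A ∈ S.powerset, (-1) ^ (R.r S - R.r A) * s ^ ((S.card - R.r S) - (A.card - R.r A))

/-- The normalised value of the Tutte polynomial at `(0, 1/p)`. -/
noncomputable def VD (p : ℝ) (R : RankFn α) (S : Finset α) : ℝ :=
  (1 - p) ^ S.card * UD (p / (1 - p)) R S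

/-- The number of bases of `S`. -/
noncomputable def nb (R : RankFn α) (S : Finset α) : ℝ :=
  ∑ A ∈ S.powerset, if R.r A = A.card ∧ R.r A = R.r S then 1 else 0

theorem RankFn.r_insert_cases (R : RankFn α) {e : α} (he : R.r {e} = 1) (S : Finset α) :
    R.r (insert e S) = R.r S ∨ R.r (insert e S) = R.r S + 1 := by
  have h1 := R.r_insert_le e S
  have h2 := R.r_le_insert e S
  omega

/-- nullity is monotone -/
theorem RankFn.null_mono (R : RankFn α) {A B : Finset α} (h : A ⊆ B) :
    A.card - R.r A ≤ B.card - R.r B := by
  have h1 := R.submod A (B \ A)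
  rw [Finset.union_sdiff_of_subset h] at h1
  have h2 := R.le_card (B \ A)
  have h3 := Finset.card_sdiff_of_subset h
  have h4 := Finset.card_le_card h
  have h5 := R.le_card A
  have h6 := R.le_card B
  omega

/-- coloop is inherited by subsets -/
theorem RankFn.r_insert_coloop (R : RankFn α) {e : α} {S A : Finset α}
    (he : R.r (insert e S) = R.r S + 1) (hA : A ⊆ S) : R.r (insert e A) = R.r A + 1 := by
  have h1 := R.submod (insert e A) S
  have h2 : insert e A ∪ S = insert e S := by
    ext x
    simp only [Finset.mem_union, Finset.mem_insert]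
    constructor
    · rintro ((h | h) | h)
      · exact Or.inl h
      · exact Or.inr (hA h)
      · exact Or.inr h
    · rintro (h | h)
      · exact Or.inl (Or.inl h)
      · exact Or.inr h
  have h3 : R.r A ≤ R.r (insert e A ∩ S) := by
    apply R.mono
    intro x hx
    exact Finset.mem_inter.2 ⟨Finset.mem_insert_of_mem hx, hA hx⟩
  have h4 := R.r_insert_le e A
  have h5 := R.r_singleton_le e
  rw [h2] at h1
  omega

/-- non-coloop: the rank is unchanged on supersets -/
theorem RankFn.r_insert_span (R : RankFn α) {e : α} {S A : Finset α}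
    (he : R.r (insert e A) = R.r A) (hA : A ⊆ S) : R.r (insert e S) = R.r S := by
  have h1 := R.submod (insert e A) S
  have h2 : insert e A ∪ S = insert e S := by
    ext x
    simp only [Finset.mem_union, Finset.mem_insert]
    constructor
    · rintro ((h | h) | h)
      · exact Or.inl h
      · exact Or.inr (hA h)
      · exact Or.inr h
    · rintro (h | h)
      · exact Or.inl (Or.inl h)
      · exact Or.inr h
  have h3 : R.r A ≤ R.r (insert e A ∩ S) := by
    apply R.mono
    intro x hx
    exact Finset.mem_inter.2 ⟨Finset.mem_insert_of_mem hx, hA hx⟩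
  have h4 := R.r_le_insert e S
  rw [h2] at h1
  omega

theorem UD_insert (s : ℝ) (R : RankFn α) {e : α} {S : Finset α} (heS : e ∉ S)
    (he : R.r {e} = 1) (hc : R.r (insert e S) = R.r S) :
    UD s R (insert e S) = s * UD s R S + UD s (R.contract e) S := by
  unfold UD
  rw [Finset.sum_powerset_insert heS, Finset.mul_sum]
  congr 1
  · apply Finset.sum_congr rfl
    intro A hA
    have hA' := Finset.mem_powerset.1 hA
    have h1 := R.null_mono hA'
    have h2 := R.le_card S
    rw [hc, Finset.card_insert_of_notMem heS]
    have e1 : S.card + 1 - R.r S - (A.card - R.r A) =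
      (S.card - R.r S - (A.card - R.r A)) + 1 := by omega
    rw [e1, pow_succ]
    ring
  · apply Finset.sum_congr rfl
    intro A hA
    have hA' := Finset.mem_powerset.1 hA
    have heA : e ∉ A := fun h => heS (hA' h)
    have h1 := R.contract_r' he A
    have h2 := R.contract_r' he S
    have h3 := R.le_card S
    have h4 := (R.contract e).null_mono hA'
    have h5 := (R.contract e).le_card A
    have h6 := (R.contract e).le_card S
    rw [← h1, ← h2, Finset.card_insert_of_notMem heA, Finset.card_insert_of_notMem heS]
    have e1 : (R.contract e).r S + 1 - ((R.contract e).r A + 1) =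
      (R.contract e).r S - (R.contract e).r A := by omega
    have e2 : S.card + 1 - ((R.contract e).r S + 1) - (A.card + 1 - ((R.contract e).r A + 1)) =
      S.card - (R.contract e).r S - (A.card - (R.contract e).r A) := by omega
    rw [e1, e2]

theorem UD_coloop (s : ℝ) (R : RankFn α) {e : α} {S : Finset α} (heS : e ∉ S)
    (hc : R.r (insert e S) = R.r S + 1) : UD s R (insert e S) = 0 := by
  unfold UD
  rw [Finset.sum_powerset_insert heS, ← Finset.sum_add_distrib]
  apply Finset.sum_eq_zero
  intro A hA
  have hA' := Finset.mem_powerset.1 hA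
  have heA : e ∉ A := fun h => heS (hA' h)
  have h1 := R.r_insert_coloop hc hA'
  have h2 := R.mono A S hA'
  rw [h1, hc, Finset.card_insert_of_notMem heA, Finset.card_insert_of_notMem heS]
  have e1 : R.r S + 1 - R.r A = (R.r S - R.r A) + 1 := by omega
  have e2 : R.r S + 1 - (R.r A + 1) = R.r S - R.r A := by omega
  have e3 : A.card + 1 - (R.r A + 1) = A.card - R.r A := by omega
  rw [e1, e2, e3, pow_succ]
  ring

theorem UD_loop (s : ℝ) (R : RankFn α) {e : α} {S : Finset α} (heS : e ∉ S)
    (he : R.r {e} = 0) : UD s R (insert e S) = (1 + s) * UD s R S := by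
  unfold UD
  rw [Finset.sum_powerset_insert heS, ← Finset.sum_add_distrib, Finset.mul_sum]
  apply Finset.sum_congr rfl
  intro A hA
  have hA' := Finset.mem_powerset.1 hA
  have heA : e ∉ A := fun h => heS (hA' h)
  have h1 := R.null_mono hA'
  have h2 := R.le_card S
  have h3 := R.le_card A
  rw [R.r_insert_loop he, R.r_insert_loop he, Finset.card_insert_of_notMem heA,
    Finset.card_insert_of_notMem heS]
  have e1 : S.card + 1 - R.r S - (A.card - R.r A) =
      (S.card - R.r S - (A.card - R.r A)) + 1 := by omega
  have e2 : S.card + 1 - R.r S - (A.card + 1 - R.r A) =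
      (S.card - R.r S - (A.card - R.r A)) := by omega
  rw [e1, e2, pow_succ]
  ring

theorem VD_insert {p : ℝ} (hp : p < 1) (R : RankFn α) {e : α} {S : Finset α} (heS : e ∉ S)
    (he : R.r {e} = 1) (hc : R.r (insert e S) = R.r S) :
    VD p R (insert e S) = (1 - p) * VD p (R.contract e) S + p * VD p R S := by
  unfold VD
  rw [UD_insert _ R heS he hc, Finset.card_insert_of_notMem heS, pow_succ]
  have h : (1 - p) ≠ 0 := by linarith
  field_simp
  ring

theorem VD_coloop (p : ℝ) (R : RankFn α) {e : α} {S : Finset α} (heS : e ∉ S)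
    (hc : R.r (insert e S) = R.r S + 1) : VD p R (insert e S) = 0 := by
  unfold VD
  rw [UD_coloop _ R heS hc, mul_zero]

theorem VD_loop {p : ℝ} (hp : p < 1) (R : RankFn α) {e : α} {S : Finset α} (heS : e ∉ S)
    (he : R.r {e} = 0) : VD p R (insert e S) = VD p R S := by
  unfold VD
  rw [UD_loop _ R heS he, Finset.card_insert_of_notMem heS, pow_succ]
  have h : (1 - p) ≠ 0 := by linarith
  field_simp
  ring

theorem VD_congr (p : ℝ) {R R' : RankFn α} {S : Finset α} (h : ∀ A ⊆ S, R.r A = R'.r A) :
    VD p R S = VD p R' S := by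
  unfold VD UD
  congr 1
  apply Finset.sum_congr rfl
  intro A hA
  rw [h A (Finset.mem_powerset.1 hA), h S (Finset.Subset.refl S)]

theorem VT_congr (p : ℝ) {R R' : RankFn α} {S : Finset α} (h : ∀ A ⊆ S, R.r A = R'.r A) :
    VT p R S = VT p R' S := by
  unfold VT U
  congr 1
  apply Finset.sum_congr rfl
  intro A hA
  rw [h A (Finset.mem_powerset.1 hA)]

theorem nb_congr {R R' : RankFn α} {S : Finset α} (h : ∀ A ⊆ S, R.r A = R'.r A) :
    nb R S = nb R' S := by
  unfold nb
  apply Finset.sum_congr rfl
  intro A hA
  rw [h A (Finset.mem_powerset.1 hA), h S (Finset.Subset.refl S)]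

theorem nb_nonneg (R : RankFn α) (S : Finset α) : 0 ≤ nb R S := by
  unfold nb
  apply Finset.sum_nonneg
  intro A _
  split_ifs <;> norm_num

theorem nb_insert (R : RankFn α) {e : α} {S : Finset α} (heS : e ∉ S)
    (he : R.r {e} = 1) (hc : R.r (insert e S) = R.r S) :
    nb R (insert e S) = nb R S + nb (R.contract e) S := by
  unfold nb
  rw [Finset.sum_powerset_insert heS]
  congr 1
  · apply Finset.sum_congr rfl
    intro A _
    rw [hc]
  · apply Finset.sum_congr rfl
    intro A hA
    have hA' := Finset.mem_powerset.1 hA
    have heA : e ∉ A := fun h => heS (hA' h)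
    have h1 := R.contract_r' he A
    have h2 := R.contract_r' he S
    rw [← h1, ← h2, Finset.card_insert_of_notMem heA]
    by_cases h3 : (R.contract e).r A = A.card ∧ (R.contract e).r A = (R.contract e).r S
    · rw [if_pos h3, if_pos ⟨by omega, by omega⟩]
    · rw [if_neg h3, if_neg]
      intro h4
      exact h3 ⟨by omega, by omega⟩

theorem nb_coloop (R : RankFn α) {e : α} {S : Finset α} (heS : e ∉ S)
    (hc : R.r (insert e S) = R.r S + 1) :
    nb R (insert e S) = nb R S := by
  unfold nb
  rw [Finset.sum_powerset_insert heS]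
  have h0 : ∑ A ∈ S.powerset, (if R.r A = A.card ∧ R.r A = R.r (insert e S) then (1 : ℝ) else 0)
      = 0 := by
    apply Finset.sum_eq_zero
    intro A hA
    have h1 := R.mono A S (Finset.mem_powerset.1 hA)
    rw [if_neg]
    rintro ⟨_, h2⟩
    omega
  rw [h0, zero_add]
  apply Finset.sum_congr rfl
  intro A hA
  have hA' := Finset.mem_powerset.1 hA
  have heA : e ∉ A := fun h => heS (hA' h)
  have h1 := R.r_insert_coloop hc hA'
  rw [h1, hc, Finset.card_insert_of_notMem heA]
  by_cases h3 : R.r A = A.card ∧ R.r A = R.r S
  · rw [if_pos h3, if_pos ⟨by omega, by omega⟩]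
  · rw [if_neg h3, if_neg]
    intro h4
    exact h3 ⟨by omega, by omega⟩

theorem nb_loop (R : RankFn α) {e : α} {S : Finset α} (heS : e ∉ S)
    (he : R.r {e} = 0) : nb R (insert e S) = nb R S := by
  unfold nb
  rw [Finset.sum_powerset_insert heS]
  have h0 : ∑ A ∈ S.powerset, (if R.r (insert e A) = (insert e A).card ∧
      R.r (insert e A) = R.r (insert e S) then (1 : ℝ) else 0) = 0 := by
    apply Finset.sum_eq_zero
    intro A hA
    have hA' := Finset.mem_powerset.1 hA
    have heA : e ∉ A := fun h => heS (hA' h)
    rw [if_neg]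
    rintro ⟨h1, _⟩
    rw [R.r_insert_loop he, Finset.card_insert_of_notMem heA] at h1
    have := R.le_card A
    omega
  rw [h0, add_zero]
  apply Finset.sum_congr rfl
  intro A _
  rw [R.r_insert_loop he]

/-- the two orders of contraction agree -/
theorem RankFn.contract_comm (R : RankFn α) {e f : α} (he : R.r {e} = 1) (hf : R.r {f} = 1)
    (hef : R.r {e, f} = 2) (A : Finset α) :
    ((R.contract e).contract f).r A = ((R.contract f).contract e).r A := by
  have h1 : ((R.contract e).contract f).r A = R.r (insert e (insert f A)) - 1 -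
      (R.r (insert e {f}) - 1) := by
    rw [(R.contract e).contract_r, R.contract_r, R.contract_r, he]
  have h2 : ((R.contract f).contract e).r A = R.r (insert f (insert e A)) - 1 -
      (R.r (insert f {e}) - 1) := by
    rw [(R.contract f).contract_r, R.contract_r, R.contract_r, hf]
  rw [h1, h2, Finset.insert_comm e f A]
  have h3 : (insert f {e} : Finset α) = insert e {f} := Finset.pair_comm f e
  rw [h3]

theorem RankFn.contract_single (R : RankFn α) {e f : α} (he : R.r {e} = 1)
    (hef : R.r {e, f} = 2) : (R.contract e).r {f} = 1 := by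
  rw [R.contract_r, he, hef]

theorem RankFn.pair_cases (R : RankFn α) {e f : α} (he : R.r {e} = 1) :
    R.r {e, f} = 1 ∨ R.r {e, f} = 2 := by
  have h1 : R.r {e, f} ≤ 2 := by
    have := R.le_card {e, f}
    have h3 : ({e, f} : Finset α).card ≤ 2 := Finset.card_le_two
    omega
  have h2 := R.r_single_le_insert e {f}
  omega

theorem VT_nonneg_mono {p : ℝ} (hp0 : 0 ≤ p) (hp : p < 1) (n : ℕ) :
    ∀ (S : Finset α), S.card = n → (∀ R : RankFn α, 0 ≤ VT p R S) ∧
      ∀ (R : RankFn α) (e : α), R.r {e} = 1 → VT p (R.contract e) S ≤ VT p R S := by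
  induction n with
  | zero =>
    intro S hS
    rw [Finset.card_eq_zero] at hS
    subst hS
    constructor
    · intro R
      unfold VT U
      simp [R.r_empty]
    · intro R e _
      unfold VT U
      simp [R.r_empty, (R.contract e).r_empty]
  | succ n ih =>
    intro S hS
    obtain ⟨f, S', hfS', rfl, hS'⟩ : ∃ f S', f ∉ S' ∧ insert f S' = S ∧ S'.card = n :=
      Finset.card_eq_succ.1 hS
    obtain ⟨ih1, ih2⟩ := ih S' hS'
    have hnn : ∀ R : RankFn α, 0 ≤ VT p R (insert f S') := by
      intro R
      rcases Nat.eq_zero_or_pos (R.r {f}) with hf | hf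
      · rw [VT_loop p R hfS' hf]
      · have hf1 : R.r {f} = 1 := by
          have := R.r_singleton_le f
          omega
        rw [VT_insert hp R hfS' hf1]
        have h1 := ih1 R
        have h2 := ih1 (R.contract f)
        have h3 : 0 ≤ 1 - p := by linarith
        positivity
    refine ⟨hnn, ?_⟩
    intro R e he
    rcases Nat.eq_zero_or_pos (R.r {f}) with hf | hf
    · have h1 : (R.contract e).r {f} = 0 := by
        rw [R.contract_r, he]
        have h2 : (insert e {f} : Finset α) = insert f {e} := Finset.pair_comm e f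
        rw [h2, R.r_insert_loop hf, he]
      rw [VT_loop p R hfS' hf, VT_loop p _ hfS' h1]
    · have hf1 : R.r {f} = 1 := by
        have := R.r_singleton_le f
        omega
      rcases R.pair_cases (f := f) he with h1 | h1
      · have h2 : (R.contract e).r {f} = 0 := by
          rw [R.contract_r, he, h1]
        rw [VT_loop p _ hfS' h2]
        exact hnn R
      · have h2 : (R.contract e).r {f} = 1 := R.contract_single he h1
        have h1' : R.r {f, e} = 2 := by
          rw [Finset.pair_comm]
          exact h1
        have h3 : (R.contract f).r {e} = 1 := R.contract_single hf1 h1'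
        rw [VT_insert hp R hfS' hf1, VT_insert hp _ hfS' h2]
        have h4 := ih2 R e he
        have h5 := ih2 (R.contract f) e h3
        have h6 : VT p ((R.contract e).contract f) S' = VT p ((R.contract f).contract e) S' :=
          VT_congr p (fun A _ => R.contract_comm he hf1 h1 A)
        rw [h6]
        have h7 : 0 ≤ 1 - p := by linarith
        nlinarith [mul_le_mul_of_nonneg_left h4 h7, mul_le_mul_of_nonneg_left h5 hp0]

theorem VD_nonneg_mono {p : ℝ} (hp0 : 0 ≤ p) (hp : p < 1) (n : ℕ) :
    ∀ (S : Finset α), S.card = n → (∀ R : RankFn α, 0 ≤ VD p R S) ∧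
      ∀ (R : RankFn α) (e : α), R.r {e} = 1 → VD p R S ≤ VD p (R.contract e) S := by
  induction n with
  | zero =>
    intro S hS
    rw [Finset.card_eq_zero] at hS
    subst hS
    constructor
    · intro R
      unfold VD UD
      simp [R.r_empty]
    · intro R e _
      unfold VD UD
      simp [R.r_empty, (R.contract e).r_empty]
  | succ n ih =>
    intro S hS
    obtain ⟨f, S', hfS', rfl, hS'⟩ : ∃ f S', f ∉ S' ∧ insert f S' = S ∧ S'.card = n :=
      Finset.card_eq_succ.1 hS
    obtain ⟨ih1, ih2⟩ := ih S' hS'
    have hq : 0 ≤ 1 - p := by linarith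
    have hnn : ∀ R : RankFn α, 0 ≤ VD p R (insert f S') := by
      intro R
      rcases Nat.eq_zero_or_pos (R.r {f}) with hf | hf
      · rw [VD_loop hp R hfS' hf]
        exact ih1 R
      · have hf1 : R.r {f} = 1 := by
          have := R.r_singleton_le f
          omega
        rcases R.r_insert_cases hf1 S' with hc | hc
        · rw [VD_insert hp R hfS' hf1 hc]
          have h1 := ih1 R
          have h2 := ih1 (R.contract f)
          positivity
        · rw [VD_coloop p R hfS' hc]
    refine ⟨hnn, ?_⟩
    intro R e he
    rcases Nat.eq_zero_or_pos (R.r {f}) with hf | hf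
    · have h1 : (R.contract e).r {f} = 0 := by
        rw [R.contract_r, he]
        have h2 : (insert e {f} : Finset α) = insert f {e} := Finset.pair_comm e f
        rw [h2, R.r_insert_loop hf, he]
      rw [VD_loop hp R hfS' hf, VD_loop hp _ hfS' h1]
      exact ih2 R e he
    · have hf1 : R.r {f} = 1 := by
        have := R.r_singleton_le f
        omega
      rcases R.r_insert_cases hf1 S' with hc | hc
      · rcases R.pair_cases (f := f) he with h1 | h1
        · have h2 : (R.contract e).r {f} = 0 := by
            rw [R.contract_r, he, h1]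
          rw [VD_loop hp _ hfS' h2, VD_insert hp R hfS' hf1 hc]
          have h3 : VD p (R.contract f) S' = VD p (R.contract e) S' := by
            apply VD_congr
            intro A _
            rw [R.contract_r, R.contract_r, he, hf1, R.r_insert_parallel he hf1 h1]
          rw [h3]
          have h4 := ih2 R e he
          nlinarith [mul_le_mul_of_nonneg_left h4 hp0]
        · have h2 : (R.contract e).r {f} = 1 := R.contract_single he h1
          have h1' : R.r {f, e} = 2 := by
            rw [Finset.pair_comm]
            exact h1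
          have h3 : (R.contract f).r {e} = 1 := R.contract_single hf1 h1'
          have h8 : (R.contract e).r (insert f S') = (R.contract e).r S' := by
            rw [R.contract_r, R.contract_r]
            have h9 : R.r (insert f (insert e S')) = R.r (insert e S') :=
              R.r_insert_span hc (Finset.subset_insert e S')
            rw [Finset.insert_comm e f S', h9]
          rw [VD_insert hp R hfS' hf1 hc, VD_insert hp _ hfS' h2 h8]
          have h4 := ih2 R e he
          have h5 := ih2 (R.contract f) e h3
          have h6 : VD p ((R.contract e).contract f) S' = VD p ((R.contract f).contract e) S' :=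
            VD_congr p (fun A _ => R.contract_comm he hf1 h1 A)
          rw [h6]
          nlinarith [mul_le_mul_of_nonneg_left h4 hp0, mul_le_mul_of_nonneg_left h5 hq]
      · rw [VD_coloop p R hfS' hc]
        exact hnn _

theorem VT_nonneg {p : ℝ} (hp0 : 0 ≤ p) (hp : p < 1) (R : RankFn α) (S : Finset α) :
    0 ≤ VT p R S := (VT_nonneg_mono hp0 hp _ S rfl).1 R

theorem VD_nonneg {p : ℝ} (hp0 : 0 ≤ p) (hp : p < 1) (R : RankFn α) (S : Finset α) :
    0 ≤ VD p R S := (VD_nonneg_mono hp0 hp _ S rfl).1 R

theorem VT_contract_le {p : ℝ} (hp0 : 0 ≤ p) (hp : p < 1) (R : RankFn α) {e : α}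
    (he : R.r {e} = 1) (S : Finset α) : VT p (R.contract e) S ≤ VT p R S :=
  (VT_nonneg_mono hp0 hp _ S rfl).2 R e he

theorem VD_le_contract {p : ℝ} (hp0 : 0 ≤ p) (hp : p < 1) (R : RankFn α) {e : α}
    (he : R.r {e} = 1) (S : Finset α) : VD p R S ≤ VD p (R.contract e) S :=
  (VD_nonneg_mono hp0 hp _ S rfl).2 R e he

end Pool.Agent.MW
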