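import Pool.Agent.Lib_MP_4d7355_co.ProdA

/-!
# Duality on a ground set, parallel classes (MP_4d7355_co)
-/

namespace Pool.Agent.MW

variable {α : Type*} [DecidableEq α]

theorem RankFn.le_card_add (R : RankFn α) (S A : Finset α) :
    R.r S ≤ (A ∩ S).card + R.r (S \ A) := by
  have h3 := R.submod (A ∩ S) (S \ A)
  have h4 := R.le_card (A ∩ S)
  have h5 : A ∩ S ∪ S \ A = S := by
    ext x
    simp only [Finset.mem_union, Finset.mem_inter, Finset.mem_sdiff]
    tauto
  rw [h5] at h3
  omega

/-- The dual of the restriction to `S`. -/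
def RankFn.dualOn (R : RankFn α) (S : Finset α) : RankFn α where
  r A := (A ∩ S).card + R.r (S \ A) - R.r S
  le_card A := by
    have h1 := R.mono (S \ A) S Finset.sdiff_subset
    have h2 : (A ∩ S).card ≤ A.card := Finset.card_le_card Finset.inter_subset_left
    omega
  mono A B h := by
    have h1 : R.r (S \ A) ≤ R.r (S \ B) + ((B \ A) ∩ S).card := by
      have h2 := R.submod (S \ B) ((B \ A) ∩ S)
      have h3 : R.r (S \ A) ≤ R.r ((S \ B) ∪ ((B \ A) ∩ S)) := by
        apply R.mono
        intro x hx
        simp only [Finset.mem_union, Finset.mem_inter, Finset.mem_sdiff] at hx ⊢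
        tauto
      have h4 := R.le_card ((B \ A) ∩ S)
      omega
    have h5 : (B ∩ S).card = (A ∩ S).card + ((B \ A) ∩ S).card := by
      rw [← Finset.card_union_of_disjoint]
      · congr 1
        ext x
        simp only [Finset.mem_union, Finset.mem_inter, Finset.mem_sdiff]
        constructor
        · rintro ⟨h1, h2⟩
          by_cases h3 : x ∈ A
          · exact Or.inl ⟨h3, h2⟩
          · exact Or.inr ⟨⟨h1, h3⟩, h2⟩
        · rintro (⟨h1, h2⟩ | ⟨⟨h1, _⟩, h2⟩)
          · exact ⟨h h1, h2⟩
          · exact ⟨h1, h2⟩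
      · rw [Finset.disjoint_left]
        intro x hx hx'
        simp only [Finset.mem_inter, Finset.mem_sdiff] at hx hx'
        tauto
    omega
  submod A B := by
    have h1 := R.submod (S \ A) (S \ B)
    have e1 : S \ A ∪ S \ B = S \ (A ∩ B) := by
      ext x
      simp only [Finset.mem_union, Finset.mem_sdiff, Finset.mem_inter]
      tauto
    have e2 : S \ A ∩ (S \ B) = S \ (A ∪ B) := by
      ext x
      simp only [Finset.mem_union, Finset.mem_sdiff, Finset.mem_inter]
      tauto
    rw [e1, e2] at h1
    have h2 := Finset.card_union_add_card_inter (A ∩ S) (B ∩ S)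
    have e3 : A ∩ S ∪ B ∩ S = (A ∪ B) ∩ S := by
      ext x
      simp only [Finset.mem_union, Finset.mem_inter]
      tauto
    have e4 : A ∩ S ∩ (B ∩ S) = (A ∩ B) ∩ S := by
      ext x
      simp only [Finset.mem_inter]
      tauto
    rw [e3, e4] at h2
    have k1 := R.le_card_add S (A ∪ B)
    have k2 := R.le_card_add S (A ∩ B)
    have k3 := R.le_card_add S A
    have k4 := R.le_card_add S B
    omega

theorem RankFn.dualOn_r (R : RankFn α) {S A : Finset α} (h : A ⊆ S) :
    (R.dualOn S).r A = A.card + R.r (S \ A) - R.r S := by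
  show (A ∩ S).card + R.r (S \ A) - R.r S = _
  rw [Finset.inter_eq_left.2 h]

theorem RankFn.dualOn_le (R : RankFn α) {S A : Finset α} (h : A ⊆ S) :
    R.r S ≤ A.card + R.r (S \ A) := by
  have := R.le_card_add S A
  rwa [Finset.inter_eq_left.2 h] at this

theorem RankFn.dualOn_self (R : RankFn α) (S : Finset α) :
    (R.dualOn S).r S = S.card - R.r S := by
  rw [R.dualOn_r (Finset.Subset.refl S), Finset.sdiff_self, R.r_empty]
  rfl

theorem sum_compl (S : Finset α) (F : Finset α → ℝ) :
    ∑ A ∈ S.powerset, F A = ∑ A ∈ S.powerset, F (S \ A) := by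
  refine Finset.sum_bij' (fun A _ => S \ A) (fun A _ => S \ A) ?_ ?_ ?_ ?_ ?_
  · intro A _
    exact Finset.mem_powerset.2 Finset.sdiff_subset
  · intro A _
    exact Finset.mem_powerset.2 Finset.sdiff_subset
  · intro A hA
    exact Finset.sdiff_sdiff_eq_self (Finset.mem_powerset.1 hA)
  · intro A hA
    exact Finset.sdiff_sdiff_eq_self (Finset.mem_powerset.1 hA)
  · intro A hA
    rw [Finset.sdiff_sdiff_eq_self (Finset.mem_powerset.1 hA)]

theorem dual_facts (R : RankFn α) {S A : Finset α} (hA : A ⊆ S) :
    (R.dualOn S).r (S \ A) = (S.card - R.r S) - (A.card - R.r A) ∧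
    (S \ A).card - (R.dualOn S).r (S \ A) = R.r S - R.r A ∧
    (R.dualOn S).r S - (R.dualOn S).r (S \ A) = A.card - R.r A := by
  have h1 := R.dualOn_r (A := S \ A) (S := S) Finset.sdiff_subset
  rw [Finset.sdiff_sdiff_eq_self hA] at h1
  have h2 := R.dualOn_self S
  have h3 := Finset.card_sdiff_of_subset hA
  have h4 := Finset.card_le_card hA
  have h5 := R.le_card A
  have h6 := R.le_card S
  have h7 := R.mono A S hA
  have h8 := R.null_mono hA
  rw [h1, h2, h3]
  omega

theorem VT_dualOn (p : ℝ) (R : RankFn α) (S : Finset α) :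
    VT p (R.dualOn S) S = VD p R S := by
  unfold VT VD U UD
  congr 1
  rw [sum_compl]
  apply Finset.sum_congr rfl
  intro A hA
  obtain ⟨h1, h2, h3⟩ := dual_facts R (Finset.mem_powerset.1 hA)
  rw [h2, h1]
  ring

theorem VD_dualOn (p : ℝ) (R : RankFn α) (S : Finset α) :
    VD p (R.dualOn S) S = VT p R S := by
  unfold VT VD U UD
  congr 1
  rw [sum_compl]
  apply Finset.sum_congr rfl
  intro A hA
  have hA' := Finset.mem_powerset.1 hA
  obtain ⟨h1, h2, h3⟩ := dual_facts R hA'
  rw [h2, h3, R.dualOn_self]
  have h5 := R.le_card S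
  have h6 := R.mono A S hA'
  have e1 : S.card - (S.card - R.r S) - (R.r S - R.r A) = R.r A := by omega
  rw [e1]
  ring

theorem nb_dualOn (R : RankFn α) (S : Finset α) : nb (R.dualOn S) S = nb R S := by
  unfold nb
  rw [sum_compl]
  apply Finset.sum_congr rfl
  intro A hA
  have hA' := Finset.mem_powerset.1 hA
  obtain ⟨h1, h2, h3⟩ := dual_facts R hA'
  have h4 := R.le_card A
  have h5 := R.le_card S
  have h6 := R.mono A S hA'
  have h7 := (R.dualOn S).le_card (S \ A)
  have h8 := (R.dualOn S).mono (S \ A) S Finset.sdiff_subset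
  by_cases h : R.r A = A.card ∧ R.r A = R.r S
  · rw [if_pos h, if_pos ⟨by omega, by omega⟩]
  · rw [if_neg h, if_neg]
    intro h9
    exact h ⟨by omega, by omega⟩

/-! ## parallel classes -/

theorem VD_loops {p : ℝ} (hp : p < 1) (R : RankFn α) {T : Finset α} (D : Finset α) :
    Disjoint D T → (∀ g ∈ D, R.r {g} = 0) → VD p R (D ∪ T) = VD p R T := by
  induction D using Finset.induction_on with
  | empty =>
    intro _ _
    simp
  | insert g D hg ih =>
    intro hdis hD
    rw [Finset.disjoint_insert_left] at hdis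
    have hgDT : g ∉ D ∪ T := by
      rw [Finset.mem_union]
      rintro (h | h)
      · exact hg h
      · exact hdis.1 h
    rw [Finset.insert_union, VD_loop hp R hgDT (hD g (Finset.mem_insert_self _ _)),
      ih hdis.2 (fun x hx => hD x (Finset.mem_insert_of_mem hx))]

theorem nb_loops (R : RankFn α) {T : Finset α} (D : Finset α) :
    Disjoint D T → (∀ g ∈ D, R.r {g} = 0) → nb R (D ∪ T) = nb R T := by
  induction D using Finset.induction_on with
  | empty =>
    intro _ _
    simp
  | insert g D hg ih =>
    intro hdis hD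
    rw [Finset.disjoint_insert_left] at hdis
    have hgDT : g ∉ D ∪ T := by
      rw [Finset.mem_union]
      rintro (h | h)
      · exact hg h
      · exact hdis.1 h
    rw [Finset.insert_union, nb_loop R hgDT (hD g (Finset.mem_insert_self _ _)),
      ih hdis.2 (fun x hx => hD x (Finset.mem_insert_of_mem hx))]

/-- `Q` is a set of parallel copies of `e` outside `insert e S`. -/
def Copies (R : RankFn α) (e : α) (S Q : Finset α) : Prop :=
  Disjoint Q (insert e S) ∧ ∀ f ∈ Q, R.r {f} = 1 ∧ R.r {e, f} = 1

theorem Copies.mono {R : RankFn α} {e : α} {S Q Q' : Finset α} (h : Copies R e S Q)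
    (hQ : Q' ⊆ Q) : Copies R e S Q' :=
  ⟨Finset.disjoint_of_subset_left hQ h.1, fun f hf => h.2 f (hQ hf)⟩

theorem par_span (R : RankFn α) {e f : α} (he : R.r {e} = 1)
    (hef : R.r {e, f} = 1) {X : Finset α} (hX : e ∈ X) : R.r (insert f X) = R.r X := by
  apply R.r_insert_span (A := {e})
  · have : (insert f {e} : Finset α) = {e, f} := Finset.pair_comm f e
    rw [this, hef, he]
  · exact Finset.singleton_subset_iff.2 hX

theorem r_copies (R : RankFn α) {e : α} (he : R.r {e} = 1) {S : Finset α} (Q : Finset α) :
    (∀ f ∈ Q, R.r {f} = 1 ∧ R.r {e, f} = 1) → R.r (Q ∪ insert e S) = R.r (insert e S) := by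
  induction Q using Finset.induction_on with
  | empty =>
    intro _
    simp
  | insert g Q hg ih =>
    intro h
    rw [Finset.insert_union, par_span R he (h g (Finset.mem_insert_self _ _)).2 (by simp),
      ih (fun x hx => h x (Finset.mem_insert_of_mem hx))]

theorem VT_copies {p : ℝ} (hp : p < 1) (R : RankFn α) {e : α} {S Q : Finset α}
    (h : Copies R e S Q) :
    VT p R (Q ∪ insert e S) = (1 - p) ^ Q.card * VT p R (insert e S) := by
  apply VT_reps hp R Q h.1
  intro g hg
  refine ⟨(h.2 g hg).1, e, Finset.mem_insert_self _ _, ?_⟩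
  rw [Finset.pair_comm]
  exact (h.2 g hg).2

theorem contract_loops (R : RankFn α) {e f : α} (he : R.r {e} = 1) (hf : R.r {f} = 1)
    (hef : R.r {e, f} = 1) {S Q : Finset α} (h : ∀ g ∈ Q, R.r {g} = 1 ∧ R.r {e, g} = 1) :
    (∀ g ∈ insert e Q, (R.contract f).r {g} = 0) ∧
      ∀ A ⊆ S, (R.contract f).r A = (R.contract e).r A := by
  have key : ∀ A, (R.contract f).r A = (R.contract e).r A := by
    intro A
    rw [R.contract_r, R.contract_r, he, hf, R.r_insert_parallel he hf hef]
  refine ⟨?_, fun A _ => key A⟩
  intro g hg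
  rw [key, R.contract_r, he]
  rcases Finset.mem_insert.1 hg with rfl | hg
  · have : (insert g {g} : Finset α) = {g} := by simp
    rw [this, he]
  · rw [(h g hg).2]

theorem VD_copies {p : ℝ} (hp : p < 1) (R : RankFn α) {e : α} (he : R.r {e} = 1)
    {S : Finset α} (heS : e ∉ S) (Q : Finset α) : Copies R e S Q →
    VD p R (Q ∪ insert e S) = (1 - p ^ Q.card) * VD p (R.contract e) S +
      p ^ Q.card * VD p R (insert e S) := by
  induction Q using Finset.induction_on with
  | empty =>
    intro _
    simp
  | insert g Q hg ih =>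
    intro h
    have h' : Copies R e S Q := h.mono (Finset.subset_insert g Q)
    have hgg := h.2 g (Finset.mem_insert_self _ _)
    have hgQ : g ∉ Q ∪ insert e S := by
      rw [Finset.mem_union]
      rintro (h1 | h1)
      · exact hg h1
      · exact Finset.disjoint_left.1 h.1 (Finset.mem_insert_self _ _) h1
    have hc : R.r (insert g (Q ∪ insert e S)) = R.r (Q ∪ insert e S) :=
      par_span R he hgg.2 (by simp)
    rw [Finset.insert_union, VD_insert hp R hgQ hgg.1 hc, ih h']
    obtain ⟨hl, hcongr⟩ := contract_loops R he hgg.1 hgg.2 (S := S) h'.2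
    have h2 : VD p (R.contract g) (Q ∪ insert e S) = VD p (R.contract e) S := by
      have e1 : Q ∪ insert e S = insert e Q ∪ S := by
        ext x
        simp only [Finset.mem_union, Finset.mem_insert]
        tauto
      rw [e1, VD_loops hp _ _ _ hl, VD_congr p hcongr]
      rw [Finset.disjoint_insert_left]
      refine ⟨heS, ?_⟩
      exact Finset.disjoint_of_subset_right (Finset.subset_insert e S) h'.1
    rw [h2, Finset.card_insert_of_notMem hg, pow_succ]
    ring

theorem nb_copies (R : RankFn α) {e : α} (he : R.r {e} = 1)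
    {S : Finset α} (heS : e ∉ S) (Q : Finset α) : Copies R e S Q →
    nb R (Q ∪ insert e S) = nb R (insert e S) + Q.card * nb (R.contract e) S := by
  induction Q using Finset.induction_on with
  | empty =>
    intro _
    simp
  | insert g Q hg ih =>
    intro h
    have h' : Copies R e S Q := h.mono (Finset.subset_insert g Q)
    have hgg := h.2 g (Finset.mem_insert_self _ _)
    have hgQ : g ∉ Q ∪ insert e S := by
      rw [Finset.mem_union]
      rintro (h1 | h1)
      · exact hg h1
      · exact Finset.disjoint_left.1 h.1 (Finset.mem_insert_self _ _) h1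
    have hc : R.r (insert g (Q ∪ insert e S)) = R.r (Q ∪ insert e S) :=
      par_span R he hgg.2 (by simp)
    rw [Finset.insert_union, nb_insert R hgQ hgg.1 hc, ih h']
    obtain ⟨hl, hcongr⟩ := contract_loops R he hgg.1 hgg.2 (S := S) h'.2
    have h2 : nb (R.contract g) (Q ∪ insert e S) = nb (R.contract e) S := by
      have e1 : Q ∪ insert e S = insert e Q ∪ S := by
        ext x
        simp only [Finset.mem_union, Finset.mem_insert]
        tauto
      rw [e1, nb_loops _ _ _ hl, nb_congr hcongr]
      rw [Finset.disjoint_insert_left]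
      refine ⟨heS, ?_⟩
      exact Finset.disjoint_of_subset_right (Finset.subset_insert e S) h'.1
    rw [h2, Finset.card_insert_of_notMem hg]
    push_cast
    ring

/-- two series elements that are coloops after deleting the class of `e` -/
theorem nb_half (R : RankFn α) {e f f' : α} {S : Finset α} (heS : e ∉ S) (he : R.r {e} = 1)
    (hf : f ∈ S) (hf' : f' ∈ S) (hff : f ≠ f') (hA : R.r (insert e S) = R.r S)
    (h1 : R.r (S.erase f) < R.r S) (h1' : R.r (S.erase f') < R.r S)
    (h2 : R.r (insert e (S.erase f)) = R.r (insert e S))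
    (h2' : R.r (insert e (S.erase f')) = R.r (insert e S)) :
    2 * nb R S ≤ nb (R.contract e) S := by
  classical
  unfold nb
  rw [Finset.sum_boole, Finset.sum_boole]
  set B := S.powerset.filter (fun A => R.r A = A.card ∧ R.r A = R.r S) with hB
  set B' := S.powerset.filter (fun A => (R.contract e).r A = A.card ∧
    (R.contract e).r A = (R.contract e).r S) with hB'
  have hmem : ∀ g : α, R.r (S.erase g) < R.r S → ∀ A ∈ B, g ∈ A := by
    intro g hg A hAB
    rw [hB, Finset.mem_filter, Finset.mem_powerset] at hAB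
    by_contra hgA
    have h3 : A ⊆ S.erase g := fun x hx =>
      Finset.mem_erase.2 ⟨fun h => hgA (h ▸ hx), hAB.1 hx⟩
    have := R.mono _ _ h3
    omega
  have hmap : ∀ g : α, R.r (S.erase g) < R.r S →
      R.r (insert e (S.erase g)) = R.r (insert e S) → ∀ A ∈ B, A.erase g ∈ B' := by
    intro g hg hg2 A hAB
    have hgA := hmem g hg A hAB
    rw [hB, Finset.mem_filter, Finset.mem_powerset] at hAB
    obtain ⟨hAS, hA1, hA2⟩ := hAB
    have hcard : (A.erase g).card + 1 = A.card := Finset.card_erase_add_one hgA
    have h3 : R.r A ≤ R.r (A.erase g) + 1 := by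
      have h4 := R.r_insert_le g (A.erase g)
      rw [Finset.insert_erase hgA] at h4
      have := R.r_singleton_le g
      omega
    have h5 := R.le_card (A.erase g)
    have h6 := R.submod (insert e (A.erase g)) (S.erase g)
    have h7 : R.r (insert e (S.erase g)) ≤ R.r (insert e (A.erase g) ∪ S.erase g) := by
      apply R.mono
      intro x hx
      simp only [Finset.mem_union, Finset.mem_insert] at hx ⊢
      tauto
    have h8 : R.r (A.erase g) ≤ R.r (insert e (A.erase g) ∩ S.erase g) := by
      apply R.mono
      intro x hx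
      refine Finset.mem_inter.2 ⟨Finset.mem_insert_of_mem hx, ?_⟩
      exact Finset.mem_erase.2 ⟨Finset.ne_of_mem_erase hx, hAS (Finset.mem_of_mem_erase hx)⟩
    have h9 := R.r_insert_le e (A.erase g)
    have h10 := R.contract_r' he (A.erase g)
    have h11 := R.contract_r' he S
    rw [hB', Finset.mem_filter, Finset.mem_powerset]
    refine ⟨(Finset.erase_subset g A).trans hAS, ?_, ?_⟩ <;> omega
  have hinj : ∀ g : α, R.r (S.erase g) < R.r S → Set.InjOn (fun A : Finset α => A.erase g) B := by
    intro g hg A hAB A2 hAB2 h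
    have h3 := hmem g hg A hAB
    have h4 := hmem g hg A2 hAB2
    have h5 : insert g (A.erase g) = insert g (A2.erase g) := by
      have h6 : A.erase g = A2.erase g := h
      rw [h6]
    rwa [Finset.insert_erase h3, Finset.insert_erase h4] at h5
  have hsub : B.image (fun A => A.erase f) ∪ B.image (fun A => A.erase f') ⊆ B' := by
    apply Finset.union_subset
    · intro X hX
      obtain ⟨A, hAB, rfl⟩ := Finset.mem_image.1 hX
      exact hmap f h1 h2 A hAB
    · intro X hX
      obtain ⟨A, hAB, rfl⟩ := Finset.mem_image.1 hX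
      exact hmap f' h1' h2' A hAB
  have hdisj : Disjoint (B.image (fun A => A.erase f)) (B.image (fun A => A.erase f')) := by
    rw [Finset.disjoint_left]
    intro X hX hX'
    obtain ⟨A, hAB, rfl⟩ := Finset.mem_image.1 hX
    obtain ⟨A2, hAB2, h3⟩ := Finset.mem_image.1 hX'
    have h4 : f' ∈ A.erase f := Finset.mem_erase.2 ⟨hff.symm, hmem f' h1' A hAB⟩
    rw [← h3] at h4
    exact Finset.notMem_erase f' A2 h4
  have h12 := Finset.card_le_card hsub
  rw [Finset.card_union_of_disjoint hdisj, Finset.card_image_of_injOn (hinj f h1),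
    Finset.card_image_of_injOn (hinj f' h1')] at h12
  have h13 : 2 * B.card ≤ B'.card := by omega
  exact_mod_cast h13

end Pool.Agent.MW
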