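import Pool.Agent.Lib_MP_4d7355_co.ProdB

/-!
# The induction step for a parallel class (MP_4d7355_co)
-/

namespace Pool.Agent.MW

/-! ## numbers -/

theorem nat_two_pow_ge (w : ℕ) : w + 1 ≤ 2 ^ w := by
  have := Nat.lt_two_pow_self (n := w)
  omega

theorem nat_sq_le (w : ℕ) (hw : 3 ≤ w) : (1 + w) ^ 2 ≤ 2 ^ (w + 1) := by
  induction w, hw using Nat.le_induction with
  | base => norm_num
  | succ w hw ih =>
    have h : 2 ^ (w + 1 + 1) = 2 * 2 ^ (w + 1) := by ring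
    rw [h]
    nlinarith

theorem pow_w_le {p : ℝ} (hp0 : 0 ≤ p) (hp : p ≤ 1 / 2) (w : ℕ) : (1 + w) * p ^ w ≤ 1 := by
  have h1 : p ^ w ≤ (1 / 2) ^ w := pow_le_pow_left₀ hp0 hp w
  have h2 : ((w : ℝ) + 1) ≤ 2 ^ w := by exact_mod_cast nat_two_pow_ge w
  have h3 : (0 : ℝ) ≤ 1 + w := by positivity
  calc (1 + (w : ℝ)) * p ^ w ≤ (1 + w) * (1 / 2) ^ w := mul_le_mul_of_nonneg_left h1 h3
    _ ≤ 2 ^ w * (1 / 2) ^ w := mul_le_mul_of_nonneg_right (by linarith) (by positivity)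
    _ = 1 := by rw [← mul_pow]; norm_num

theorem half_pow_le {p : ℝ} (hp0 : 0 ≤ p) (hp : p ≤ 1 / 2) (w : ℕ) (hw : 1 ≤ w) :
    p ^ w * (1 - p) ≤ 1 / 2 ^ (w + 1) := by
  obtain ⟨k, rfl⟩ : ∃ k, w = k + 1 := ⟨w - 1, by omega⟩
  have h1 : p ^ k ≤ (1 / 2) ^ k := pow_le_pow_left₀ hp0 hp k
  have h2 : p * (1 - p) ≤ 1 / 4 := by nlinarith [sq_nonneg (p - 1 / 2)]
  have h3 : 0 ≤ p * (1 - p) := mul_nonneg hp0 (by linarith)
  calc p ^ (k + 1) * (1 - p) = p ^ k * (p * (1 - p)) := by ring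
    _ ≤ (1 / 2) ^ k * (1 / 4) := mul_le_mul h1 h2 h3 (by positivity)
    _ = 1 / 2 ^ (k + 1 + 1) := by
      rw [div_pow, one_pow, pow_succ, pow_succ]
      field_simp
      norm_num

variable {p κ : ℝ}

theorem num1 (hp0 : 0 ≤ p) (hp : p ≤ 1 / 2) (hκ0 : 0 ≤ κ) (hκ1 : κ ≤ 1)
    (h9 : 9 * κ ^ 2 * p ^ 2 * (1 - p) ≤ 1) (w : ℕ) (hw : 1 ≤ w) :
    κ ^ w * (p ^ w * (1 - p)) * (1 + w) ^ 2 ≤ 1 := by
  have hk : κ ^ w ≤ 1 := pow_le_one₀ hκ0 hκ1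
  have hkn : 0 ≤ κ ^ w := pow_nonneg hκ0 w
  have hpn : 0 ≤ p ^ w * (1 - p) := mul_nonneg (pow_nonneg hp0 w) (by linarith)
  have h1 := half_pow_le hp0 hp w hw
  rcases Nat.lt_or_ge w 3 with h | h
  · interval_cases w
    · have h2 : κ ^ 1 * (p ^ 1 * (1 - p)) ≤ 1 * (1 / 2 ^ (1 + 1)) :=
        mul_le_mul hk h1 hpn (by norm_num)
      norm_num at h2 ⊢
      linarith
    · norm_num
      nlinarith
  · have h2 : κ ^ w * (p ^ w * (1 - p)) ≤ 1 * (1 / 2 ^ (w + 1)) :=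
      mul_le_mul hk h1 hpn (by norm_num)
    have h3 : ((1 : ℝ) + w) ^ 2 ≤ 2 ^ (w + 1) := by exact_mod_cast nat_sq_le w h
    calc κ ^ w * (p ^ w * (1 - p)) * (1 + w) ^ 2 ≤ 1 * (1 / 2 ^ (w + 1)) * (1 + w) ^ 2 :=
          mul_le_mul_of_nonneg_right h2 (by positivity)
      _ ≤ 1 * (1 / 2 ^ (w + 1)) * 2 ^ (w + 1) := mul_le_mul_of_nonneg_left h3 (by positivity)
      _ = 1 := by field_simp

theorem nat_sq_le2 (w : ℕ) (hw : 3 ≤ w) : 8 * w ^ 2 ≤ 9 * 2 ^ w := by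
  induction w, hw using Nat.le_induction with
  | base => norm_num
  | succ w hw ih =>
    have h : 2 ^ (w + 1) = 2 * 2 ^ w := by ring
    rw [h]
    nlinarith

theorem num3 (hp0 : 0 ≤ p) (hp : p ≤ 1 / 2) (hκ0 : 0 ≤ κ) (hκ1 : κ ≤ 1) (w : ℕ) (hw : 2 ≤ w) :
    κ ^ w * (p ^ w * (1 - p)) * w ^ 2 ≤ 1 - p ^ (w - 1) := by
  have hk : κ ^ w ≤ 1 := pow_le_one₀ hκ0 hκ1
  have hpn : 0 ≤ p ^ w * (1 - p) := mul_nonneg (pow_nonneg hp0 w) (by linarith)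
  have h1 : κ ^ w * (p ^ w * (1 - p)) * w ^ 2 ≤ 1 * (p ^ w * (1 - p)) * w ^ 2 :=
    mul_le_mul_of_nonneg_right (mul_le_mul_of_nonneg_right hk hpn) (by positivity)
  refine h1.trans ?_
  rw [one_mul]
  rcases Nat.lt_or_ge w 3 with h | h
  · have : w = 2 := by omega
    subst this
    norm_num
    nlinarith [mul_nonneg hp0 (by linarith : 0 ≤ 1 - p)]
  · obtain ⟨k, rfl⟩ : ∃ k, w = k + 3 := ⟨w - 3, by omega⟩
    have h2 : p ^ k ≤ (1 / 2) ^ k := pow_le_pow_left₀ hp0 hp k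
    have h3 : (8 : ℝ) * ((k + 3 : ℕ) : ℝ) ^ 2 ≤ 9 * 2 ^ (k + 3) := by
      exact_mod_cast nat_sq_le2 (k + 3) h
    have h4 : p ^ k * ((k + 3 : ℕ) : ℝ) ^ 2 ≤ 9 := by
      calc p ^ k * ((k + 3 : ℕ) : ℝ) ^ 2 ≤ (1 / 2) ^ k * ((k + 3 : ℕ) : ℝ) ^ 2 :=
            mul_le_mul_of_nonneg_right h2 (by positivity)
        _ ≤ (1 / 2) ^ k * (9 * 2 ^ (k + 3) / 8) :=
            mul_le_mul_of_nonneg_left (by linarith) (by positivity)
        _ = 9 := by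
            rw [pow_add, div_pow, one_pow]
            field_simp
            norm_num
    have h5 : p ^ (k + 3) * (1 - p) * ((k + 3 : ℕ) : ℝ) ^ 2 ≤ 9 * (p ^ 3 * (1 - p)) := by
      have : p ^ (k + 3) * (1 - p) * ((k + 3 : ℕ) : ℝ) ^ 2 =
          (p ^ k * ((k + 3 : ℕ) : ℝ) ^ 2) * (p ^ 3 * (1 - p)) := by ring
      rw [this]
      exact mul_le_mul_of_nonneg_right h4 (mul_nonneg (pow_nonneg hp0 3) (by linarith))
    refine h5.trans ?_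
    have h6 : p ^ (k + 3 - 1) ≤ p ^ 2 := by
      have e1 : k + 3 - 1 = k + 2 := by omega
      rw [e1, pow_add]
      have h7 : p ^ k ≤ 1 := pow_le_one₀ hp0 (by linarith)
      have := mul_le_mul_of_nonneg_right h7 (sq_nonneg p)
      linarith
    have h8 : 9 * p ^ 3 ≤ 1 + p := by
      have h9 : p ^ 2 ≤ 1 / 4 := by nlinarith
      nlinarith [mul_le_mul_of_nonneg_left h9 hp0]
    have h10 := mul_le_mul_of_nonneg_right h8 (by linarith : 0 ≤ 1 - p)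
    nlinarith

theorem nat_sq_le4 (w : ℕ) (hw : 3 ≤ w) : (2 * w + 1) ^ 2 ≤ 7 * 2 ^ w := by
  induction w, hw using Nat.le_induction with
  | base => norm_num
  | succ w hw ih =>
    have h : 2 ^ (w + 1) = 2 * 2 ^ w := by ring
    rw [h]
    nlinarith

theorem num4 (hp0 : 0 ≤ p) (hp : p ≤ 1 / 2) (hκ0 : 0 ≤ κ) (hκ1 : κ ≤ 1)
    (h9 : 9 * κ ^ 2 * p ^ 2 * (1 - p) ≤ 1) (w : ℕ) (hw : 2 ≤ w) :
    κ ^ w * (p ^ w * (1 - p)) * (w + 1 / 2) ^ 2 ≤ 1 - p ^ w := by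
  have hk : κ ^ w ≤ 1 := pow_le_one₀ hκ0 hκ1
  have hpn : 0 ≤ p ^ w * (1 - p) := mul_nonneg (pow_nonneg hp0 w) (by linarith)
  rcases Nat.lt_or_ge w 3 with h | h
  · have : w = 2 := by omega
    subst this
    have h1 : κ ^ 2 * (p ^ 2 * (1 - p)) * ((2 : ℕ) + 1 / 2) ^ 2 =
        25 / 36 * (9 * κ ^ 2 * p ^ 2 * (1 - p)) := by
      push_cast
      ring
    rw [h1]
    nlinarith
  · have h1 := half_pow_le hp0 hp w (by omega)
    have h2 : κ ^ w * (p ^ w * (1 - p)) ≤ 1 * (1 / 2 ^ (w + 1)) :=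
      mul_le_mul hk h1 hpn (by norm_num)
    have h3 : ((2 : ℝ) * w + 1) ^ 2 ≤ 7 * 2 ^ w := by exact_mod_cast nat_sq_le4 w h
    have h4 : ((w : ℝ) + 1 / 2) ^ 2 ≤ 7 * 2 ^ w / 4 := by
      have : ((w : ℝ) + 1 / 2) ^ 2 = (2 * w + 1) ^ 2 / 4 := by ring
      rw [this]
      linarith
    have h5 : κ ^ w * (p ^ w * (1 - p)) * (w + 1 / 2) ^ 2 ≤ 7 / 8 := by
      calc κ ^ w * (p ^ w * (1 - p)) * (w + 1 / 2) ^ 2
          ≤ 1 * (1 / 2 ^ (w + 1)) * (w + 1 / 2) ^ 2 :=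
            mul_le_mul_of_nonneg_right h2 (by positivity)
        _ ≤ 1 * (1 / 2 ^ (w + 1)) * (7 * 2 ^ w / 4) :=
            mul_le_mul_of_nonneg_left h4 (by positivity)
        _ = 7 / 8 := by
            rw [pow_succ]
            field_simp
            norm_num
    have h6 : p ^ w ≤ (1 / 2) ^ 3 :=
      calc p ^ w ≤ (1 / 2) ^ w := pow_le_pow_left₀ hp0 hp w
        _ ≤ (1 / 2) ^ 3 := pow_le_pow_of_le_one (by norm_num) (by norm_num) h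
    norm_num at h6
    linarith

/-! ## algebra -/

theorem algA (hp0 : 0 ≤ p) (hp : p ≤ 1 / 2) (hκ0 : 0 ≤ κ) (hκ1 : κ ≤ 1)
    (h9 : 9 * κ ^ 2 * p ^ 2 * (1 - p) ≤ 1) (w : ℕ) (hw : 1 ≤ w) {a c a' c' t0 t1 k : ℝ}
    (hk : 0 ≤ k) (hc : 0 ≤ c) (ha' : 0 ≤ a') (hac : c ≤ a) (hac' : a' ≤ c')
    (ht0 : 0 ≤ t0) (ht1 : 0 ≤ t1) (hX : k * t0 ^ 2 ≤ a * a') (hY : k * t1 ^ 2 ≤ c * c') :
    k * (κ ^ w * (p ^ w * (1 - p)) * (t0 + w * t1) ^ 2) ≤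
      ((1 - p) * a + p * c) * ((1 - p ^ w) * c' + p ^ w * a') := by
  set P := p ^ w with hP
  have hP0 : 0 ≤ P := pow_nonneg hp0 w
  have hPw : (1 + w) * P ≤ 1 := pow_w_le hp0 hp w
  have hw1 : (1 : ℝ) ≤ w := by exact_mod_cast hw
  have hPh : P ≤ 1 / 2 := by nlinarith
  have hN := num1 hp0 hp hκ0 hκ1 h9 w hw
  rw [← hP] at hN
  have hd : p * P ≤ (1 - p) * (1 - P) := by nlinarith
  have L1 : (1 - p) * (a * a') + p * (c * c') ≤
      ((1 - p) * a + p * c) * ((1 - P) * c' + P * a') := by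
    have h1 : 0 ≤ (c' - a') * ((1 - p) * (1 - P) * a - p * P * c) := by
      apply mul_nonneg (by linarith)
      have h2 : p * P * c ≤ (1 - p) * (1 - P) * c := mul_le_mul_of_nonneg_right hd hc
      have h3 : (1 - p) * (1 - P) * c ≤ (1 - p) * (1 - P) * a :=
        mul_le_mul_of_nonneg_left hac (mul_nonneg (by linarith) (by linarith))
      linarith
    nlinarith
  have L2 : (1 - P) * (c * c') + P * (a * a') ≤
      ((1 - p) * a + p * c) * ((1 - P) * c' + P * a') := by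
    have h1 : 0 ≤ (a - c) * ((1 - p) * (1 - P) * c' - p * P * a') := by
      apply mul_nonneg (by linarith)
      have h2 : p * P * a' ≤ (1 - p) * (1 - P) * a' := mul_le_mul_of_nonneg_right hd ha'
      have h3 : (1 - p) * (1 - P) * a' ≤ (1 - p) * (1 - P) * c' :=
        mul_le_mul_of_nonneg_left hac' (mul_nonneg (by linarith) (by linarith))
      linarith
    nlinarith
  have hw0 : (0 : ℝ) < 1 + w := by linarith
  have hQ : κ ^ w * (P * (1 - p)) * (t0 + w * t1) ^ 2 ≤ (t0 ^ 2 + w * t1 ^ 2) / (1 + w) := by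
    have h1 : (t0 + w * t1) ^ 2 ≤ (1 + w) * (t0 ^ 2 + w * t1 ^ 2) := by
      nlinarith [mul_nonneg (by linarith : (0 : ℝ) ≤ w) (sq_nonneg (t0 - t1))]
    have h2 : κ ^ w * (P * (1 - p)) * (t0 + w * t1) ^ 2 ≤
        κ ^ w * (P * (1 - p)) * ((1 + w) * (t0 ^ 2 + w * t1 ^ 2)) :=
      mul_le_mul_of_nonneg_left h1
        (mul_nonneg (pow_nonneg hκ0 w) (mul_nonneg hP0 (by linarith)))
    have h3 : κ ^ w * (P * (1 - p)) * ((1 + w) * (t0 ^ 2 + w * t1 ^ 2)) =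
        (κ ^ w * (P * (1 - p)) * (1 + w) ^ 2) * ((t0 ^ 2 + w * t1 ^ 2) / (1 + w)) := by
      field_simp
    rw [h3] at h2
    have h4 : 0 ≤ (t0 ^ 2 + w * t1 ^ 2) / (1 + w) := by positivity
    have h5 := mul_le_mul_of_nonneg_right hN h4
    linarith
  rcases le_total t1 t0 with h | h
  · have h1 : (t0 ^ 2 + w * t1 ^ 2) / (1 + w) ≤ (1 - p) * t0 ^ 2 + p * t1 ^ 2 := by
      rw [div_le_iff₀ hw0]
      have h2 : t1 ^ 2 ≤ t0 ^ 2 := pow_le_pow_left₀ ht1 h 2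
      have h3 : 0 ≤ w - (1 + w) * p := by nlinarith
      nlinarith [mul_nonneg h3 (sub_nonneg.2 h2)]
    have h2 := mul_le_mul_of_nonneg_left (hQ.trans h1) hk
    have h3 := mul_le_mul_of_nonneg_left hX (by linarith : 0 ≤ 1 - p)
    have h4 := mul_le_mul_of_nonneg_left hY hp0
    refine h2.trans (le_trans ?_ L1)
    nlinarith
  · have h1 : (t0 ^ 2 + w * t1 ^ 2) / (1 + w) ≤ (1 - P) * t1 ^ 2 + P * t0 ^ 2 := by
      rw [div_le_iff₀ hw0]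
      have h2 : t0 ^ 2 ≤ t1 ^ 2 := pow_le_pow_left₀ ht0 h 2
      have h3 : 0 ≤ 1 - (1 + w) * P := by linarith
      nlinarith [mul_nonneg h3 (sub_nonneg.2 h2)]
    have h2 := mul_le_mul_of_nonneg_left (hQ.trans h1) hk
    have h3 := mul_le_mul_of_nonneg_left hX hP0
    have h4 := mul_le_mul_of_nonneg_left hY (by linarith : 0 ≤ 1 - P)
    refine h2.trans (le_trans ?_ L2)
    nlinarith

theorem algB (hp0 : 0 ≤ p) (hp : p ≤ 1 / 2) (hκ0 : 0 ≤ κ) (hκ1 : κ ≤ 1)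
    (w : ℕ) (hw : 2 ≤ w) {c c' t1 k : ℝ}
    (hk : 0 ≤ k) (hY : k * t1 ^ 2 ≤ c * c') :
    k * (κ ^ w * (p ^ w * (1 - p)) * (w * t1) ^ 2) ≤ c * ((1 - p ^ (w - 1)) * c') := by
  have hN := num3 hp0 hp hκ0 hκ1 w hw
  have h1 : 0 ≤ 1 - p ^ (w - 1) := by
    have : p ^ (w - 1) ≤ 1 := pow_le_one₀ hp0 (by linarith)
    linarith
  have h2 := mul_le_mul_of_nonneg_right hN (mul_nonneg hk (sq_nonneg t1))
  have h3 := mul_le_mul_of_nonneg_left hY h1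
  nlinarith

theorem algC (hp0 : 0 ≤ p) (hp : p ≤ 1 / 2) (hκ0 : 0 ≤ κ) (hκ1 : κ ≤ 1)
    (h9 : 9 * κ ^ 2 * p ^ 2 * (1 - p) ≤ 1) (w : ℕ) (hw : 2 ≤ w) {a c a' c' t0 t1 k : ℝ}
    (hk : 0 ≤ k) (hc : 0 ≤ c) (ha' : 0 ≤ a') (hac : c ≤ a) (hac' : a' ≤ c')
    (ht0 : 0 ≤ t0) (ht : 2 * t0 ≤ t1) (hY : k * t1 ^ 2 ≤ c * c') :
    k * (κ ^ w * (p ^ w * (1 - p)) * (t0 + w * t1) ^ 2) ≤
      ((1 - p) * a + p * c) * ((1 - p ^ w) * c' + p ^ w * a') := by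
  have hN := num4 hp0 hp hκ0 hκ1 h9 w hw
  set P := p ^ w with hP
  have hP0 : 0 ≤ P := pow_nonneg hp0 w
  have hP1 : P ≤ 1 := pow_le_one₀ hp0 (by linarith)
  have h1 : (t0 + w * t1) ^ 2 ≤ ((w + 1 / 2) * t1) ^ 2 := by
    apply pow_le_pow_left₀
    · have : 0 ≤ t1 := by linarith
      positivity
    · linarith
  have hM : 0 ≤ κ ^ w * (P * (1 - p)) :=
    mul_nonneg (pow_nonneg hκ0 w) (mul_nonneg hP0 (by linarith))
  have h2 : κ ^ w * (P * (1 - p)) * (t0 + w * t1) ^ 2 ≤ (1 - P) * t1 ^ 2 := by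
    have h3 := mul_le_mul_of_nonneg_left h1 hM
    have h4 := mul_le_mul_of_nonneg_right hN (sq_nonneg t1)
    nlinarith
  have h5 := mul_le_mul_of_nonneg_left h2 hk
  have h6 := mul_le_mul_of_nonneg_left hY (by linarith : 0 ≤ 1 - P)
  have h7 : c ≤ (1 - p) * a + p * c := by nlinarith
  have h8 : (1 - P) * c' ≤ (1 - P) * c' + P * a' := by
    have := mul_nonneg hP0 ha'
    linarith
  have h9' : 0 ≤ (1 - P) * c' := mul_nonneg (by linarith) (by linarith)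
  have h10 : c * ((1 - P) * c') ≤ ((1 - p) * a + p * c) * ((1 - P) * c' + P * a') :=
    mul_le_mul h7 h8 h9' (by linarith)
  nlinarith

end Pool.Agent.MW
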