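import Pool.Agent.Lib_MP_4d7355_co.ProdC

/-!
# The product inequality (MP_4d7355_co)
-/

namespace Pool.Agent.MW

variable {α : Type*} [DecidableEq α]

/-- no loops in `S` -/
def LL (R : RankFn α) (S : Finset α) : Prop := ∀ e ∈ S, R.r {e} = 1

/-- no coloops in `S` -/
def CL (R : RankFn α) (S : Finset α) : Prop := ∀ e ∈ S, R.r (S.erase e) = R.r S

/-- the product inequality -/
def Good (p κ : ℝ) (R : RankFn α) (S : Finset α) : Prop :=
  (κ * (p * (1 - p))) ^ S.card * nb R S ^ 2 ≤ VT p R S * VD p R S

/-- the parallel class of `e` in `S` -/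
def pc (R : RankFn α) (S : Finset α) (e : α) : Finset α := S.filter (fun f => R.r {e, f} = 1)

theorem mem_pc {R : RankFn α} {S : Finset α} {e f : α} :
    f ∈ pc R S e ↔ f ∈ S ∧ R.r {e, f} = 1 := by
  unfold pc
  rw [Finset.mem_filter]

theorem self_mem_pc {R : RankFn α} {S : Finset α} {e : α} (he : e ∈ S) (hL : LL R S) :
    e ∈ pc R S e := by
  rw [mem_pc]
  refine ⟨he, ?_⟩
  have : ({e, e} : Finset α) = {e} := by simp
  rw [this]
  exact hL e he

theorem r_not_pc {R : RankFn α} {S : Finset α} {e f : α} (he : e ∈ S) (hL : LL R S)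
    (hf : f ∈ S \ pc R S e) : R.r {e, f} = 2 := by
  rw [Finset.mem_sdiff, mem_pc] at hf
  rcases R.pair_cases (f := f) (hL e he) with h | h
  · exact absurd ⟨hf.1, h⟩ hf.2
  · exact h

theorem decomp {R : RankFn α} {S : Finset α} {e : α} (he : e ∈ S) (hL : LL R S) :
    S = (pc R S e).erase e ∪ insert e (S \ pc R S e) ∧ e ∉ S \ pc R S e ∧
      Copies R e (S \ pc R S e) ((pc R S e).erase e) ∧
      S.card = (S \ pc R S e).card + (((pc R S e).erase e).card + 1) := by
  have hem := self_mem_pc he hL
  have hsub : pc R S e ⊆ S := Finset.filter_subset _ _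
  refine ⟨?_, ?_, ⟨?_, ?_⟩, ?_⟩
  · ext x
    simp only [Finset.mem_union, Finset.mem_erase, Finset.mem_insert, Finset.mem_sdiff]
    constructor
    · intro hx
      by_cases h1 : x = e
      · exact Or.inr (Or.inl h1)
      · by_cases h2 : x ∈ pc R S e
        · exact Or.inl ⟨h1, h2⟩
        · exact Or.inr (Or.inr ⟨hx, h2⟩)
    · rintro (⟨_, h⟩ | h | h)
      · exact hsub h
      · exact h ▸ he
      · exact h.1
  · rw [Finset.mem_sdiff]
    exact fun h => h.2 hem
  · rw [Finset.disjoint_left]
    intro x hx hx'
    rw [Finset.mem_erase] at hx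
    rw [Finset.mem_insert, Finset.mem_sdiff] at hx'
    rcases hx' with h | h
    · exact hx.1 h
    · exact h.2 hx.2
  · intro f hf
    have hf' := mem_pc.1 (Finset.mem_of_mem_erase hf)
    exact ⟨hL f hf'.1, hf'.2⟩
  · rw [Finset.card_erase_add_one hem, Finset.card_sdiff_of_subset hsub]
    have := Finset.card_le_card hsub
    omega

theorem LL_contract {R : RankFn α} {S : Finset α} {e : α} (he : e ∈ S) (hL : LL R S) :
    LL (R.contract e) (S \ pc R S e) := by
  intro f hf
  exact R.contract_single (hL e he) (r_not_pc he hL hf)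

theorem span_contract {R : RankFn α} {S : Finset α} {e : α} (he : e ∈ S) (hL : LL R S)
    (hC : CL R S) {f : α} (hf : f ∈ S \ pc R S e) :
    R.r (insert e ((S \ pc R S e).erase f)) = R.r S ∧ R.r (insert e (S \ pc R S e)) = R.r S := by
  obtain ⟨h1, h2, h3, _⟩ := decomp he hL
  have hfe : f ≠ e := fun h => h2 (h ▸ hf)
  have hfQ : f ∉ (pc R S e).erase e := by
    intro h
    rw [Finset.mem_sdiff] at hf
    exact hf.2 (Finset.mem_of_mem_erase h)
  constructor
  · have h4 := r_copies R (hL e he) (S := (S \ pc R S e).erase f) _ h3.2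
    rw [← h4, ← hC f (Finset.mem_sdiff.1 hf).1]
    congr 1
    ext x
    simp only [Finset.mem_union, Finset.mem_erase, Finset.mem_insert, Finset.mem_sdiff]
    constructor
    · rintro (⟨hx1, hx2⟩ | rfl | ⟨hx1, hx2, hx3⟩)
      · refine ⟨?_, (mem_pc.1 hx2).1⟩
        rintro rfl
        exact hfQ (Finset.mem_erase.2 ⟨hx1, hx2⟩)
      · exact ⟨hfe.symm, he⟩
      · exact ⟨hx1, hx2⟩
    · rintro ⟨hx1, hx2⟩
      by_cases hxe : x = e
      · exact Or.inr (Or.inl hxe)
      · by_cases hxp : x ∈ pc R S e
        · exact Or.inl ⟨hxe, hxp⟩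
        · exact Or.inr (Or.inr ⟨hx1, hx2, hxp⟩)
  · have h4 := r_copies R (hL e he) (S := (S \ pc R S e)) _ h3.2
    rw [← h4]
    congr 1
    exact h1.symm

theorem CL_contract {R : RankFn α} {S : Finset α} {e : α} (he : e ∈ S) (hL : LL R S)
    (hC : CL R S) : CL (R.contract e) (S \ pc R S e) := by
  intro f hf
  obtain ⟨h1, h2⟩ := span_contract he hL hC hf
  rw [R.contract_r, R.contract_r, h1, h2]

variable {p κ : ℝ}

/-- **The induction step for a parallel class.** -/
theorem step (hp0 : 0 < p) (hp : p ≤ 1 / 2) (hκ0 : 0 ≤ κ) (hκ1 : κ ≤ 1)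
    (h9 : 9 * κ ^ 2 * p ^ 2 * (1 - p) ≤ 1) {R : RankFn α} {S : Finset α}
    (hIH : ∀ (R' : RankFn α) (S' : Finset α), S'.card < S.card → LL R' S' → CL R' S' →
      Good p κ R' S')
    (hL : LL R S) (hC : CL R S) {e : α} (he : e ∈ S)
    (hx : CL R (S \ pc R S e) ∨ (1 ≤ ((pc R S e).erase e).card ∧
      (R.r (insert e (S \ pc R S e)) = R.r (S \ pc R S e) →
        2 * nb R (S \ pc R S e) ≤ nb (R.contract e) (S \ pc R S e)))) : Good p κ R S := by
  obtain ⟨hdec, heS', hcop, hcard⟩ := decomp he hL
  set P := pc R S e with hP
  set Q := P.erase e with hQ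
  set T := S \ P with hT
  have he1 := hL e he
  have hp1 : p < 1 := by linarith
  have hq : 0 ≤ 1 - p := by linarith
  have hLc : LL (R.contract e) T := LL_contract he hL
  have hCc : CL (R.contract e) T := CL_contract he hL hC
  have hIHc : Good p κ (R.contract e) T := hIH _ _ (by omega) hLc hCc
  have hVT := VT_copies hp1 R hcop
  have hVD := VD_copies hp1 R he1 heS' Q hcop
  have hnb := nb_copies R he1 heS' Q hcop
  rw [← hdec] at hVT hVD hnb
  have hK0 : 0 ≤ κ * (p * (1 - p)) := by positivity
  have hc : 0 ≤ VT p (R.contract e) T := VT_nonneg hp0.le hp1 _ _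
  have hc' : 0 ≤ VD p (R.contract e) T := VD_nonneg hp0.le hp1 _ _
  have ha' : 0 ≤ VD p R T := VD_nonneg hp0.le hp1 _ _
  have hac : VT p (R.contract e) T ≤ VT p R T := VT_contract_le hp0.le hp1 R he1 T
  have hac' : VD p R T ≤ VD p (R.contract e) T := VD_le_contract hp0.le hp1 R he1 T
  have ht0 : 0 ≤ nb R T := nb_nonneg _ _
  have ht1 : 0 ≤ nb (R.contract e) T := nb_nonneg _ _
  have hk0 : 0 ≤ (κ * (p * (1 - p))) ^ T.card := pow_nonneg hK0 _
  have hKw : ∀ w : ℕ, (κ * (p * (1 - p))) ^ (w + 1) =
      (1 - p) ^ w * (κ ^ (w + 1) * (p ^ (w + 1) * (1 - p))) := by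
    intro w
    rw [mul_pow, mul_pow]
    ring
  unfold Good at hIHc ⊢
  rw [hcard, pow_add, hKw, hVT, hVD, hnb]
  have hpq : 0 ≤ (1 - p) ^ Q.card := pow_nonneg hq _
  rcases R.r_insert_cases he1 T with hA | hB
  · rw [VT_insert hp1 R heS' he1, VD_insert hp1 R heS' he1 hA, nb_insert R heS' he1 hA]
    have e1 : nb R T + nb (R.contract e) T + Q.card * nb (R.contract e) T =
        nb R T + (Q.card + 1 : ℕ) * nb (R.contract e) T := by
      push_cast
      ring
    have e2 : (1 - p ^ Q.card) * VD p (R.contract e) T + p ^ Q.card *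
        ((1 - p) * VD p (R.contract e) T + p * VD p R T) =
        (1 - p ^ (Q.card + 1)) * VD p (R.contract e) T + p ^ (Q.card + 1) * VD p R T := by
      ring
    rw [e1, e2]
    rcases hx with hx | ⟨hQ1, hx⟩
    · have hLT : LL R T := fun f hf => hL f (Finset.mem_sdiff.1 hf).1
      have hIHd : Good p κ R T := hIH _ _ (by omega) hLT hx
      unfold Good at hIHd
      have h := algA hp0.le hp hκ0 hκ1 h9 (Q.card + 1) (by omega) hk0 hc ha' hac hac' ht0 ht1
        hIHd hIHc
      have h' := mul_le_mul_of_nonneg_left h hpq
      nlinarith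
    · have h := algC hp0.le hp hκ0 hκ1 h9 (Q.card + 1) (by omega) hk0 hc ha' hac hac' ht0
        (hx hA) hIHc
      have h' := mul_le_mul_of_nonneg_left h hpq
      nlinarith
  · have hcongr : ∀ A ⊆ T, R.r A = (R.contract e).r A := by
      intro A hA
      rw [R.contract_r, he1, R.r_insert_coloop hB hA]
      rfl
    have hQ1 : 1 ≤ Q.card := by
      by_contra hneg
      have h0 : Q = ∅ := Finset.card_eq_zero.1 (by omega)
      rw [h0, Finset.empty_union] at hdec
      have h1 := hC e he
      rw [hdec, Finset.erase_insert heS'] at h1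
      omega
    rw [VT_insert hp1 R heS' he1, VD_coloop p R heS' hB, nb_coloop R heS' hB,
      VT_congr p hcongr, nb_congr hcongr]
    have h := algB hp0.le hp hκ0 hκ1 (Q.card + 1) (by omega) hk0 hIHc
    have e1 : Q.card + 1 - 1 = Q.card := by omega
    rw [e1] at h
    have h' := mul_le_mul_of_nonneg_left h hpq
    have e2 : nb (R.contract e) T + Q.card * nb (R.contract e) T =
        (Q.card + 1 : ℕ) * nb (R.contract e) T := by
      push_cast
      ring
    rw [e2]
    have e3 : (1 - p) * VT p (R.contract e) T + p * VT p (R.contract e) T =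
        VT p (R.contract e) T := by ring
    rw [e3, mul_zero, add_zero]
    nlinarith

/-- a nontrivial parallel class exists -/
theorem step2 (hp0 : 0 < p) (hp : p ≤ 1 / 2) (hκ0 : 0 ≤ κ) (hκ1 : κ ≤ 1)
    (h9 : 9 * κ ^ 2 * p ^ 2 * (1 - p) ≤ 1) {R : RankFn α} {S : Finset α}
    (hIH : ∀ (R' : RankFn α) (S' : Finset α), S'.card < S.card → LL R' S' → CL R' S' →
      Good p κ R' S')
    (hL : LL R S) (hC : CL R S) {e g : α} (he : e ∈ S) (hg : g ∈ S) (heg : e ≠ g)
    (hpar : R.r {e, g} = 1) : Good p κ R S := by
  by_cases hCL : CL R (S \ pc R S e)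
  · exact step hp0 hp hκ0 hκ1 h9 hIH hL hC he (Or.inl hCL)
  · unfold CL at hCL
    push Not at hCL
    obtain ⟨f, hf, hfr⟩ := hCL
    have hfS := (Finset.mem_sdiff.1 hf).1
    have hfP := (Finset.mem_sdiff.1 hf).2
    have hef2 := r_not_pc he hL hf
    have hflt : R.r ((S \ pc R S e).erase f) < R.r (S \ pc R S e) := by
      have := R.mono _ _ (Finset.erase_subset f (S \ pc R S e))
      omega
    have hem := self_mem_pc he hL
    by_cases hs : ∃ f' ∈ S, f' ≠ f ∧ R.r ((S.erase f).erase f') < R.r S
    · obtain ⟨f', hf'S, hff', hlt⟩ := hs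
      have hf'P : f' ∉ pc R S e := by
        intro h
        have hef' := (mem_pc.1 h).2
        -- a parallel element different from f'
        obtain ⟨x, hxS, hxf', hxf, hxr⟩ : ∃ x ∈ S, x ≠ f' ∧ x ≠ f ∧ R.r {x, f'} = 1 := by
          by_cases h1 : f' = e
          · refine ⟨g, hg, ?_, ?_, ?_⟩
            · rw [h1]
              exact heg.symm
            · rintro rfl
              rw [hpar] at hef2
              omega
            · rw [h1, Finset.pair_comm]
              exact hpar
          · refine ⟨e, he, fun h2 => h1 h2.symm, ?_, hef'⟩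
            rintro rfl
            exact hfP hem
        have hxm : x ∈ (S.erase f).erase f' :=
          Finset.mem_erase.2 ⟨hxf', Finset.mem_erase.2 ⟨hxf, hxS⟩⟩
        have h2 := par_span R (hL x hxS) hxr hxm
        rw [Finset.insert_erase (Finset.mem_erase.2 ⟨hff', hf'S⟩), hC f hfS] at h2
        omega
      have hf'T : f' ∈ S \ pc R S e := Finset.mem_sdiff.2 ⟨hf'S, hf'P⟩
      apply step hp0 hp hκ0 hκ1 h9 hIH hL hC he
      right
      constructor
      · have : g ∈ (pc R S e).erase e := Finset.mem_erase.2 ⟨heg.symm, mem_pc.2 ⟨hg, hpar⟩⟩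
        exact Finset.card_pos.2 ⟨g, this⟩
      · intro hA
        obtain ⟨hc1, hc2⟩ := span_contract he hL hC hf
        obtain ⟨hc3, _⟩ := span_contract he hL hC hf'T
        apply nb_half R (f := f) (f' := f') (decomp he hL).2.1 (hL e he) hf hf'T hff'.symm hA hflt
        · -- f' is a coloop as well
          have h1 := R.submod ((S \ pc R S e).erase f) ((S.erase f).erase f')
          have h2 : R.r (S.erase f) ≤ R.r ((S \ pc R S e).erase f ∪ (S.erase f).erase f') := by
            apply R.mono
            intro x hx
            rw [Finset.mem_erase] at hx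
            rw [Finset.mem_union]
            by_cases hxf' : x = f'
            · left
              rw [hxf']
              exact Finset.mem_erase.2 ⟨hff', hf'T⟩
            · right
              exact Finset.mem_erase.2 ⟨hxf', Finset.mem_erase.2 hx⟩
          have h3 : R.r (((S \ pc R S e).erase f').erase f) ≤
              R.r ((S \ pc R S e).erase f ∩ (S.erase f).erase f') := by
            apply R.mono
            intro x hx
            rw [Finset.mem_erase, Finset.mem_erase] at hx
            rw [Finset.mem_inter, Finset.mem_erase, Finset.mem_erase, Finset.mem_erase]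
            exact ⟨⟨hx.1, hx.2.2⟩, hx.2.1, hx.1, (Finset.mem_sdiff.1 hx.2.2).1⟩
          have h4 := R.r_insert_le f (((S \ pc R S e).erase f').erase f)
          rw [Finset.insert_erase (Finset.mem_erase.2 ⟨hff'.symm, hf⟩)] at h4
          have h5 := R.r_singleton_le f
          have h6 := hC f hfS
          omega
        · rw [hc1, hc2]
        · rw [hc3, hc2]
    · push Not at hs
      have hf1 := hL f hfS
      have hpcf : pc R S f = {f} := by
        ext x
        rw [mem_pc, Finset.mem_singleton]
        constructor
        · rintro ⟨hxS, hxr⟩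
          by_contra hxf
          by_cases hxP : x ∈ pc R S e
          · -- then e and f are parallel
            have h1 : R.r {e, f} ≤ 1 := by
              have h2 := par_span R (hL x hxS) (f := f) (by rw [Finset.pair_comm]; exact hxr)
                (X := {e, x}) (by simp)
              have h3 : R.r {e, f} ≤ R.r (insert f {e, x}) := by
                apply R.mono
                intro y hy
                simp only [Finset.mem_insert, Finset.mem_singleton] at hy ⊢
                tauto
              rw [h2, (mem_pc.1 hxP).2] at h3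
              exact h3
            omega
          · have hxT : x ∈ (S \ pc R S e).erase f :=
              Finset.mem_erase.2 ⟨hxf, Finset.mem_sdiff.2 ⟨hxS, hxP⟩⟩
            have h2 := par_span R (hL x hxS) (f := f) (by rw [Finset.pair_comm]; exact hxr) hxT
            rw [Finset.insert_erase hf] at h2
            omega
        · rintro rfl
          refine ⟨hfS, ?_⟩
          have : ({x, x} : Finset α) = {x} := by simp
          rw [this]
          exact hf1
      apply step hp0 hp hκ0 hκ1 h9 hIH hL hC hfS
      left
      rw [hpcf]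
      intro y hy
      have e1 : S \ {f} = S.erase f := by
        ext x
        simp only [Finset.mem_sdiff, Finset.mem_singleton, Finset.mem_erase]
        tauto
      rw [e1] at hy ⊢
      rw [Finset.mem_erase] at hy
      have h1 := hs y hy.2 hy.1
      have h2 := hC f hfS
      have h3 := R.mono _ _ (Finset.erase_subset y (S.erase f))
      omega

theorem LL_dualOn {R : RankFn α} {S : Finset α} (hC : CL R S) : LL (R.dualOn S) S := by
  intro e he
  rw [R.dualOn_r (Finset.singleton_subset_iff.2 he), Finset.card_singleton]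
  have e1 : S \ {e} = S.erase e := by
    ext x
    simp only [Finset.mem_sdiff, Finset.mem_singleton, Finset.mem_erase]
    tauto
  rw [e1, hC e he]
  omega

theorem CL_dualOn {R : RankFn α} {S : Finset α} (hL : LL R S) : CL (R.dualOn S) S := by
  intro e he
  rw [R.dualOn_r (Finset.erase_subset e S), R.dualOn_self]
  have e1 : S \ S.erase e = {e} := by
    ext x
    simp only [Finset.mem_sdiff, Finset.mem_singleton, Finset.mem_erase]
    constructor
    · rintro ⟨h1, h2⟩
      by_contra h3
      exact h2 ⟨h3, h1⟩
    · rintro rfl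
      exact ⟨he, fun h => h.1 rfl⟩
  rw [e1, hL e he, Finset.card_erase_add_one he]

/-- **The product inequality.** -/
theorem product_good (hp0 : 0 < p) (hp : p ≤ 1 / 2) (hκ0 : 0 ≤ κ) (hκ1 : κ ≤ 1)
    (h9 : 9 * κ ^ 2 * p ^ 2 * (1 - p) ≤ 1) (n : ℕ) :
    ∀ (R : RankFn α) (S : Finset α), S.card = n → LL R S → CL R S → Good p κ R S := by
  induction n using Nat.strong_induction_on with
  | _ n ih =>
    intro R S hS hL hC
    have hIH : ∀ (R' : RankFn α) (S' : Finset α), S'.card < S.card → LL R' S' → CL R' S' →
      Good p κ R' S' := fun R' S' h h1 h2 => ih S'.card (by omega) R' S' rfl h1 h2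
    rcases S.eq_empty_or_nonempty with h0 | ⟨e, he⟩
    · subst h0
      have h1 : nb R ∅ = 1 := by
        unfold nb
        rw [Finset.powerset_empty, Finset.sum_singleton, if_pos ⟨by simp [R.r_empty], rfl⟩]
      have h2 : VT p R ∅ = 1 := by
        unfold VT U
        simp [R.r_empty]
      have h3 : VD p R ∅ = 1 := by
        unfold VD UD
        simp [R.r_empty]
      unfold Good
      rw [h1, h2, h3]
      simp
    · by_cases hpar : ∃ g ∈ S, e ≠ g ∧ R.r {e, g} = 1
      · obtain ⟨g, hg, heg, hr⟩ := hpar
        exact step2 hp0 hp hκ0 hκ1 h9 hIH hL hC he hg heg hr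
      · push Not at hpar
        have hpce : pc R S e = {e} := by
          ext x
          rw [mem_pc, Finset.mem_singleton]
          constructor
          · rintro ⟨hxS, hxr⟩
            by_contra hxe
            exact hpar x hxS (fun h => hxe h.symm) hxr
          · rintro rfl
            exact mem_pc.1 (self_mem_pc he hL)
        have e1 : S \ {e} = S.erase e := by
          ext x
          simp only [Finset.mem_sdiff, Finset.mem_singleton, Finset.mem_erase]
          tauto
        by_cases hCL : CL R (S \ pc R S e)
        · exact step hp0 hp hκ0 hκ1 h9 hIH hL hC he (Or.inl hCL)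
        · rw [hpce, e1] at hCL
          unfold CL at hCL
          push Not at hCL
          obtain ⟨f, hf, hfr⟩ := hCL
          have hfS := Finset.mem_of_mem_erase hf
          have hfe := Finset.ne_of_mem_erase hf
          have hce := hC e he
          have hlt : R.r ((S.erase e).erase f) < R.r S := by
            have := R.mono _ _ (Finset.erase_subset f (S.erase e))
            omega
          have hge : R.r (S.erase e) ≤ R.r ((S.erase e).erase f) + 1 := by
            have h4 := R.r_insert_le f ((S.erase e).erase f)
            rw [Finset.insert_erase hf] at h4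
            have := R.r_singleton_le f
            omega
          have hdual : Good p κ (R.dualOn S) S := by
            apply step2 hp0 hp hκ0 hκ1 h9 hIH (LL_dualOn hC) (CL_dualOn hL) he hfS hfe.symm
            have hsub : ({e, f} : Finset α) ⊆ S := by
              intro x hx
              rw [Finset.mem_insert, Finset.mem_singleton] at hx
              rcases hx with rfl | rfl
              · exact he
              · exact hfS
            rw [R.dualOn_r hsub, Finset.card_pair hfe.symm]
            have e2 : S \ {e, f} = (S.erase e).erase f := by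
              ext x
              simp only [Finset.mem_sdiff, Finset.mem_insert, Finset.mem_singleton,
                Finset.mem_erase]
              tauto
            rw [e2]
            omega
          unfold Good at hdual ⊢
          rw [nb_dualOn, VT_dualOn, VD_dualOn] at hdual
          linarith

end Pool.Agent.MW
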