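import Pool.Agent.Lib_MP_4d7355_co.ProdD
import Pool.Agent.Lib_MP_4d7355_co.GraphBounds

/-!
# The product inequality for the Tutte polynomial (MP_4d7355_co)
-/

namespace Pool.Agent.MW

variable {α : Type*} [DecidableEq α] [Fintype α]

theorem VD_eq_TT (R : RankFn α) {b : ℝ} (hb : 1 < b) :
    b ^ Fintype.card α * (b - 1) ^ (Fintype.card α - R.r Finset.univ) *
      VD (1 / b) R Finset.univ = (b - 1) ^ Fintype.card α * TT R 0 b := by
  have hb0 : b ≠ 0 := by linarith
  have hb1 : b - 1 ≠ 0 := by linarith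
  unfold VD UD TT
  rw [Finset.card_univ]
  have e1 : (1 - 1 / b) ^ Fintype.card α = (b - 1) ^ Fintype.card α / b ^ Fintype.card α := by
    rw [← div_pow]
    congr 1
    field_simp
  have e2 : 1 / b / (1 - 1 / b) = 1 / (b - 1) := by
    field_simp
  rw [e1, e2]
  have e3 : ∀ X : ℝ, b ^ Fintype.card α * (b - 1) ^ (Fintype.card α - R.r Finset.univ) *
      ((b - 1) ^ Fintype.card α / b ^ Fintype.card α * X) =
      (b - 1) ^ Fintype.card α * ((b - 1) ^ (Fintype.card α - R.r Finset.univ) * X) := by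
    intro X
    field_simp
  rw [e3]
  congr 1
  rw [Finset.mul_sum]
  apply Finset.sum_congr rfl
  intro A _
  have h1 := R.null_mono (Finset.subset_univ A)
  rw [Finset.card_univ] at h1
  set N := Fintype.card α - R.r Finset.univ with hN
  set ν := A.card - R.r A with hν
  have e4 : (b - 1) ^ N = (b - 1) ^ (N - ν) * (b - 1) ^ ν := by
    rw [← pow_add]
    congr 1
    omega
  rw [e4, one_div, inv_pow]
  have e5 : (b - 1) ^ (N - ν) ≠ 0 := pow_ne_zero _ hb1
  have e6 : (0 - 1 : ℝ) = -1 := by ring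
  rw [e6]
  field_simp

theorem nb_eq_TT (R : RankFn α) : nb R Finset.univ = TT R 1 1 := by
  unfold nb TT
  apply Finset.sum_congr rfl
  intro A _
  have h1 := R.mono A Finset.univ (Finset.subset_univ _)
  have h2 := R.le_card A
  rw [sub_self]
  by_cases h : R.r A = A.card ∧ R.r A = R.r Finset.univ
  · rw [if_pos h, ← h.2, ← h.1, Nat.sub_self]
    simp
  · rw [if_neg h]
    rcases Nat.eq_zero_or_pos (R.r Finset.univ - R.r A) with h3 | h3
    · rcases Nat.eq_zero_or_pos (A.card - R.r A) with h4 | h4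
      · exact absurd ⟨by omega, by omega⟩ h
      · rw [zero_pow (n := A.card - R.r A) (by omega), mul_zero]
    · rw [zero_pow (by omega), zero_mul]

/-- **The product inequality**, for a rank function without loops and coloops. -/
theorem TT_product (R : RankFn α) (hL : ∀ e, R.r {e} = 1)
    (hC : ∀ e, R.r (Finset.univ.erase e) = R.r Finset.univ) {b κ : ℝ} (hb : 2 ≤ b)
    (hκ0 : 0 ≤ κ) (hκ1 : κ ≤ 1) (h9 : 9 * (b - 1) * κ ^ 2 ≤ b ^ 3) :
    κ ^ Fintype.card α * TT R 1 1 ^ 2 ≤ TT R b 0 * TT R 0 b := by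
  have hb0 : 0 < b := by linarith
  have hb1 : 0 < b - 1 := by linarith
  have hg : Good (1 / b) κ R Finset.univ := by
    apply product_good (by positivity) _ hκ0 hκ1 _ _ R Finset.univ rfl
    · intro e _
      exact hL e
    · intro e _
      exact hC e
    · rw [div_le_div_iff₀ hb0 (by norm_num)]
      linarith
    · have e1 : 9 * κ ^ 2 * (1 / b) ^ 2 * (1 - 1 / b) = 9 * (b - 1) * κ ^ 2 / b ^ 3 := by
        field_simp
      rw [e1, div_le_one (by positivity)]
      exact h9
  unfold Good at hg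
  rw [nb_eq_TT, Finset.card_univ] at hg
  have h1 := VT_eq_TT R (b := b) (by linarith)
  have h2 := VD_eq_TT R (b := b) (by linarith)
  have h5 : R.r Finset.univ ≤ Fintype.card α := by
    have := R.le_card Finset.univ
    rwa [Finset.card_univ] at this
  set m := Fintype.card α with hm
  set r := R.r Finset.univ with hr
  have hbm : 0 < b ^ m := by positivity
  have hbm1 : 0 < (b - 1) ^ m := by positivity
  have h3 : (b ^ m) ^ 2 * (b - 1) ^ m * (VT (1 / b) R Finset.univ * VD (1 / b) R Finset.univ) =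
      ((b - 1) ^ m) ^ 2 * (TT R b 0 * TT R 0 b) := by
    have e1 : (b - 1) ^ m = (b - 1) ^ r * (b - 1) ^ (m - r) := by
      rw [← pow_add]
      congr 1
      omega
    have e2 : (b ^ m) ^ 2 * (b - 1) ^ m * (VT (1 / b) R Finset.univ * VD (1 / b) R Finset.univ) =
        (b ^ m * (b - 1) ^ r * VT (1 / b) R Finset.univ) *
          (b ^ m * (b - 1) ^ (m - r) * VD (1 / b) R Finset.univ) := by
      rw [e1]
      ring
    rw [e2, h1, h2]
    ring
  have h4 : (b ^ m) ^ 2 * (b - 1) ^ m * ((κ * (1 / b * (1 - 1 / b))) ^ m * TT R 1 1 ^ 2) =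
      ((b - 1) ^ m) ^ 2 * (κ ^ m * TT R 1 1 ^ 2) := by
    have e1 : (b ^ m) ^ 2 * (b - 1) ^ m * (κ * (1 / b * (1 - 1 / b))) ^ m =
        ((b - 1) ^ m) ^ 2 * κ ^ m := by
      rw [← pow_mul, mul_comm m 2, pow_mul, ← mul_pow, ← mul_pow, ← pow_mul, mul_comm m 2,
        pow_mul, ← mul_pow]
      congr 1
      field_simp
    rw [← mul_assoc, e1]
    ring
  have h6 := mul_le_mul_of_nonneg_left hg (by positivity : 0 ≤ (b ^ m) ^ 2 * (b - 1) ^ m)
  rw [h3, h4] at h6
  exact le_of_mul_le_mul_left h6 (by positivity)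

end Pool.Agent.MW
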