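import Pool.Agent.Lib_MP_4d7355_co.ProdE

/-!
# Classes of size at least three (MP_4d7355_co)
-/

namespace Pool.Agent.MW

section algebra

variable {p κ : ℝ}

theorem algA' (hp0 : 0 ≤ p) (hp : p ≤ 1 / 2) (hκ0 : 0 ≤ κ)
    (w : ℕ) (hw : 1 ≤ w) (hN : κ ^ w * (p ^ w * (1 - p)) * (1 + w) ^ 2 ≤ 1) {a c a' c' t0 t1 k : ℝ}
    (hk : 0 ≤ k) (hc : 0 ≤ c) (ha' : 0 ≤ a') (hac : c ≤ a) (hac' : a' ≤ c')
    (ht0 : 0 ≤ t0) (ht1 : 0 ≤ t1) (hX : k * t0 ^ 2 ≤ a * a') (hY : k * t1 ^ 2 ≤ c * c') :
    k * (κ ^ w * (p ^ w * (1 - p)) * (t0 + w * t1) ^ 2) ≤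
      ((1 - p) * a + p * c) * ((1 - p ^ w) * c' + p ^ w * a') := by
  set P := p ^ w with hP
  have hP0 : 0 ≤ P := pow_nonneg hp0 w
  have hPw : (1 + w) * P ≤ 1 := pow_w_le hp0 hp w
  have hw1 : (1 : ℝ) ≤ w := by exact_mod_cast hw
  have hPh : P ≤ 1 / 2 := by nlinarith
  have hd : p * P ≤ (1 - p) * (1 - P) := by nlinarith
  have L1 : (1 - p) * (a * a') + p * (c * c') ≤
      ((1 - p) * a + p * c) * ((1 - P) * c' + P * a') := by
    have h1 : 0 ≤ (c' - a') * ((1 - p) * (1 - P) * a - p * P * c) := by
      apply mul_nonneg (by linarith)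
      have h2 : p * P * c ≤ (1 - p) * (1 - P) * c := mul_le_mul_of_nonneg_right hd hc
      have h3 : (1 - p) * (1 - P) * c ≤ (1 - p) * (1 - P) * a :=
        mul_le_mul_of_nonneg_left hac (mul_nonneg (by linarith) (by linarith))
      linarith
    nlinarith
  have L2 : (1 - P) * (c * c') + P * (a * a') ≤
      ((1 - p) * a + p * c) * ((1 - P) * c' + P * a') := by
    have h1 : 0 ≤ (a - c) * ((1 - p) * (1 - P) * c' - p * P * a') := by
      apply mul_nonneg (by linarith)
      have h2 : p * P * a' ≤ (1 - p) * (1 - P) * a' := mul_le_mul_of_nonneg_right hd ha'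
      have h3 : (1 - p) * (1 - P) * a' ≤ (1 - p) * (1 - P) * c' :=
        mul_le_mul_of_nonneg_left hac' (mul_nonneg (by linarith) (by linarith))
      linarith
    nlinarith
  have hw0 : (0 : ℝ) < 1 + w := by linarith
  have hQ : κ ^ w * (P * (1 - p)) * (t0 + w * t1) ^ 2 ≤ (t0 ^ 2 + w * t1 ^ 2) / (1 + w) := by
    have h1 : (t0 + w * t1) ^ 2 ≤ (1 + w) * (t0 ^ 2 + w * t1 ^ 2) := by
      nlinarith [mul_nonneg (by linarith : (0 : ℝ) ≤ w) (sq_nonneg (t0 - t1))]
    have h2 : κ ^ w * (P * (1 - p)) * (t0 + w * t1) ^ 2 ≤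
        κ ^ w * (P * (1 - p)) * ((1 + w) * (t0 ^ 2 + w * t1 ^ 2)) :=
      mul_le_mul_of_nonneg_left h1
        (mul_nonneg (pow_nonneg hκ0 w) (mul_nonneg hP0 (by linarith)))
    have h3 : κ ^ w * (P * (1 - p)) * ((1 + w) * (t0 ^ 2 + w * t1 ^ 2)) =
        (κ ^ w * (P * (1 - p)) * (1 + w) ^ 2) * ((t0 ^ 2 + w * t1 ^ 2) / (1 + w)) := by
      field_simp
    rw [h3] at h2
    have h4 : 0 ≤ (t0 ^ 2 + w * t1 ^ 2) / (1 + w) := by positivity
    have h5 := mul_le_mul_of_nonneg_right hN h4
    linarith
  rcases le_total t1 t0 with h | h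
  · have h1 : (t0 ^ 2 + w * t1 ^ 2) / (1 + w) ≤ (1 - p) * t0 ^ 2 + p * t1 ^ 2 := by
      rw [div_le_iff₀ hw0]
      have h2 : t1 ^ 2 ≤ t0 ^ 2 := pow_le_pow_left₀ ht1 h 2
      have h3 : 0 ≤ w - (1 + w) * p := by nlinarith
      nlinarith [mul_nonneg h3 (sub_nonneg.2 h2)]
    have h2 := mul_le_mul_of_nonneg_left (hQ.trans h1) hk
    have h3 := mul_le_mul_of_nonneg_left hX (by linarith : 0 ≤ 1 - p)
    have h4 := mul_le_mul_of_nonneg_left hY hp0
    refine h2.trans (le_trans ?_ L1)
    nlinarith
  · have h1 : (t0 ^ 2 + w * t1 ^ 2) / (1 + w) ≤ (1 - P) * t1 ^ 2 + P * t0 ^ 2 := by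
      rw [div_le_iff₀ hw0]
      have h2 : t0 ^ 2 ≤ t1 ^ 2 := pow_le_pow_left₀ ht0 h 2
      have h3 : 0 ≤ 1 - (1 + w) * P := by linarith
      nlinarith [mul_nonneg h3 (sub_nonneg.2 h2)]
    have h2 := mul_le_mul_of_nonneg_left (hQ.trans h1) hk
    have h3 := mul_le_mul_of_nonneg_left hX hP0
    have h4 := mul_le_mul_of_nonneg_left hY (by linarith : 0 ≤ 1 - P)
    refine h2.trans (le_trans ?_ L2)
    nlinarith

theorem algC' (hp0 : 0 ≤ p) (hp : p ≤ 1 / 2) (hκ0 : 0 ≤ κ)
    (w : ℕ) (hN : κ ^ w * (p ^ w * (1 - p)) * (w + 1 / 2) ^ 2 ≤ 1 - p ^ w) {a c a' c' t0 t1 k : ℝ}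
    (hk : 0 ≤ k) (hc : 0 ≤ c) (ha' : 0 ≤ a') (hac : c ≤ a) (hac' : a' ≤ c')
    (ht0 : 0 ≤ t0) (ht : 2 * t0 ≤ t1) (hY : k * t1 ^ 2 ≤ c * c') :
    k * (κ ^ w * (p ^ w * (1 - p)) * (t0 + w * t1) ^ 2) ≤
      ((1 - p) * a + p * c) * ((1 - p ^ w) * c' + p ^ w * a') := by
  set P := p ^ w with hP
  have hP0 : 0 ≤ P := pow_nonneg hp0 w
  have hP1 : P ≤ 1 := pow_le_one₀ hp0 (by linarith)
  have h1 : (t0 + w * t1) ^ 2 ≤ ((w + 1 / 2) * t1) ^ 2 := by
    apply pow_le_pow_left₀
    · have : 0 ≤ t1 := by linarith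
      positivity
    · linarith
  have hM : 0 ≤ κ ^ w * (P * (1 - p)) :=
    mul_nonneg (pow_nonneg hκ0 w) (mul_nonneg hP0 (by linarith))
  have h2 : κ ^ w * (P * (1 - p)) * (t0 + w * t1) ^ 2 ≤ (1 - P) * t1 ^ 2 := by
    have h3 := mul_le_mul_of_nonneg_left h1 hM
    have h4 := mul_le_mul_of_nonneg_right hN (sq_nonneg t1)
    nlinarith
  have h5 := mul_le_mul_of_nonneg_left h2 hk
  have h6 := mul_le_mul_of_nonneg_left hY (by linarith : 0 ≤ 1 - P)
  have h7 : c ≤ (1 - p) * a + p * c := by nlinarith
  have h8 : (1 - P) * c' ≤ (1 - P) * c' + P * a' := by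
    have := mul_nonneg hP0 ha'
    linarith
  have h9' : 0 ≤ (1 - P) * c' := mul_nonneg (by linarith) (by linarith)
  have h10 : c * ((1 - P) * c') ≤ ((1 - p) * a + p * c) * ((1 - P) * c' + P * a') :=
    mul_le_mul h7 h8 h9' (by linarith)
  nlinarith

end algebra

variable {α : Type*} [DecidableEq α]

/-- **The induction step for a parallel class**, with the numerical conditions on its size. -/
theorem stepW {p κ : ℝ} (hp0 : 0 < p) (hp : p ≤ 1 / 2) (hκ0 : 0 ≤ κ) (hκ1 : κ ≤ 1)
    {R : RankFn α} {S : Finset α}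
    (hL : LL R S) (hC : CL R S) {e : α} (he : e ∈ S)
    (hN1 : κ ^ (((pc R S e).erase e).card + 1) *
      (p ^ (((pc R S e).erase e).card + 1) * (1 - p)) *
      (1 + (((pc R S e).erase e).card + 1 : ℕ)) ^ 2 ≤ 1)
    (hIHc : Good p κ (R.contract e) (S \ pc R S e))
    (hx : (CL R (S \ pc R S e) ∧ Good p κ R (S \ pc R S e)) ∨
      (1 ≤ ((pc R S e).erase e).card ∧
        κ ^ (((pc R S e).erase e).card + 1) *
          (p ^ (((pc R S e).erase e).card + 1) * (1 - p)) *
          ((((pc R S e).erase e).card + 1 : ℕ) + 1 / 2) ^ 2 ≤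
          1 - p ^ (((pc R S e).erase e).card + 1) ∧
      (R.r (insert e (S \ pc R S e)) = R.r (S \ pc R S e) →
        2 * nb R (S \ pc R S e) ≤ nb (R.contract e) (S \ pc R S e)))) : Good p κ R S := by
  obtain ⟨hdec, heS', hcop, hcard⟩ := decomp he hL
  set P := pc R S e with hP
  set Q := P.erase e with hQ
  set T := S \ P with hT
  have he1 := hL e he
  have hp1 : p < 1 := by linarith
  have hq : 0 ≤ 1 - p := by linarith
  have hVT := VT_copies hp1 R hcop
  have hVD := VD_copies hp1 R he1 heS' Q hcop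
  have hnb := nb_copies R he1 heS' Q hcop
  rw [← hdec] at hVT hVD hnb
  have hK0 : 0 ≤ κ * (p * (1 - p)) := by positivity
  have hc : 0 ≤ VT p (R.contract e) T := VT_nonneg hp0.le hp1 _ _
  have ha' : 0 ≤ VD p R T := VD_nonneg hp0.le hp1 _ _
  have hac : VT p (R.contract e) T ≤ VT p R T := VT_contract_le hp0.le hp1 R he1 T
  have hac' : VD p R T ≤ VD p (R.contract e) T := VD_le_contract hp0.le hp1 R he1 T
  have ht0 : 0 ≤ nb R T := nb_nonneg _ _
  have ht1 : 0 ≤ nb (R.contract e) T := nb_nonneg _ _
  have hk0 : 0 ≤ (κ * (p * (1 - p))) ^ T.card := pow_nonneg hK0 _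
  have hKw : ∀ w : ℕ, (κ * (p * (1 - p))) ^ (w + 1) =
      (1 - p) ^ w * (κ ^ (w + 1) * (p ^ (w + 1) * (1 - p))) := by
    intro w
    rw [mul_pow, mul_pow]
    ring
  unfold Good at hIHc ⊢
  rw [hcard, pow_add, hKw, hVT, hVD, hnb]
  have hpq : 0 ≤ (1 - p) ^ Q.card := pow_nonneg hq _
  rcases R.r_insert_cases he1 T with hA | hB
  · rw [VT_insert hp1 R heS' he1, VD_insert hp1 R heS' he1 hA, nb_insert R heS' he1 hA]
    have e1 : nb R T + nb (R.contract e) T + Q.card * nb (R.contract e) T =
        nb R T + (Q.card + 1 : ℕ) * nb (R.contract e) T := by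
      push_cast
      ring
    have e2 : (1 - p ^ Q.card) * VD p (R.contract e) T + p ^ Q.card *
        ((1 - p) * VD p (R.contract e) T + p * VD p R T) =
        (1 - p ^ (Q.card + 1)) * VD p (R.contract e) T + p ^ (Q.card + 1) * VD p R T := by
      ring
    rw [e1, e2]
    rcases hx with ⟨_, hIHd⟩ | ⟨hQ1, hN4, hx⟩
    · unfold Good at hIHd
      have h := algA' hp0.le hp hκ0 (Q.card + 1) (by omega) hN1 hk0 hc ha' hac hac' ht0 ht1
        hIHd hIHc
      have h' := mul_le_mul_of_nonneg_left h hpq
      nlinarith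
    · have h := algC' hp0.le hp hκ0 (Q.card + 1) hN4 hk0 hc ha' hac hac' ht0
        (hx hA) hIHc
      have h' := mul_le_mul_of_nonneg_left h hpq
      nlinarith
  · have hcongr : ∀ A ⊆ T, R.r A = (R.contract e).r A := by
      intro A hA
      rw [R.contract_r, he1, R.r_insert_coloop hB hA]
      rfl
    have hQ1 : 1 ≤ Q.card := by
      by_contra hneg
      have h0 : Q = ∅ := Finset.card_eq_zero.1 (by omega)
      rw [h0, Finset.empty_union] at hdec
      have h1 := hC e he
      rw [hdec, Finset.erase_insert heS'] at h1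
      omega
    rw [VT_insert hp1 R heS' he1, VD_coloop p R heS' hB, nb_coloop R heS' hB,
      VT_congr p hcongr, nb_congr hcongr]
    have h := algB hp0.le hp hκ0 hκ1 (Q.card + 1) (by omega) hk0 hIHc
    have e1 : Q.card + 1 - 1 = Q.card := by omega
    rw [e1] at h
    have h' := mul_le_mul_of_nonneg_left h hpq
    have e2 : nb (R.contract e) T + Q.card * nb (R.contract e) T =
        (Q.card + 1 : ℕ) * nb (R.contract e) T := by
      push_cast
      ring
    rw [e2]
    have e3 : (1 - p) * VT p (R.contract e) T + p * VT p (R.contract e) T =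
        VT p (R.contract e) T := by ring
    rw [e3, mul_zero, add_zero]
    nlinarith

/-- the series class of `e` in `S` -/
def sc (R : RankFn α) (S : Finset α) (e : α) : Finset α :=
  S.filter (fun f => f = e ∨ R.r ((S.erase e).erase f) < R.r S)

theorem mem_sc {R : RankFn α} {S : Finset α} {e f : α} :
    f ∈ sc R S e ↔ f ∈ S ∧ (f = e ∨ R.r ((S.erase e).erase f) < R.r S) := by
  unfold sc
  rw [Finset.mem_filter]

/-- every element is in a parallel or series class of size at least 3 -/
def D3 (R : RankFn α) (S : Finset α) : Prop :=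
  ∀ e ∈ S, 3 ≤ (pc R S e).card ∨ 3 ≤ (sc R S e).card

theorem span_trans (R : RankFn α) {e f g : α} (he : R.r {g} = 1) (h1 : R.r {e, g} = 1)
    (h2 : R.r {g, f} = 1) : R.r {e, f} ≤ 1 := by
  have h3 := par_span R he h2 (X := {e, g}) (by simp)
  have h4 : R.r {e, f} ≤ R.r (insert f {e, g}) := by
    apply R.mono
    intro y hy
    simp only [Finset.mem_insert, Finset.mem_singleton] at hy ⊢
    tauto
  rw [h3, h1] at h4
  exact h4

theorem pc_sub {R : RankFn α} {S : Finset α} {e f : α} (he : e ∈ S) (hL : LL R S)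
    (hf : f ∈ S \ pc R S e) : pc R S f ⊆ S \ pc R S e := by
  intro g hg
  rw [mem_pc] at hg
  rw [Finset.mem_sdiff]
  refine ⟨hg.1, fun h => ?_⟩
  have h1 := span_trans R (hL g hg.1) (mem_pc.1 h).2 (by rw [Finset.pair_comm]; exact hg.2)
  have h2 := r_not_pc he hL hf
  omega

/-- the rank with a parallel class is determined by one element -/
theorem r_union_pc {R : RankFn α} {S : Finset α} {e : α} (he : e ∈ S) (hL : LL R S)
    (X : Finset α) : R.r (pc R S e ∪ X) = R.r (insert e X) := by
  have hem := self_mem_pc he hL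
  have h1 := r_copies R (hL e he) (S := X) ((pc R S e).erase e)
    (fun f hf => ⟨hL f (mem_pc.1 (Finset.mem_of_mem_erase hf)).1,
      (mem_pc.1 (Finset.mem_of_mem_erase hf)).2⟩)
  rw [← h1]
  congr 1
  ext x
  simp only [Finset.mem_union, Finset.mem_erase, Finset.mem_insert]
  constructor
  · rintro (h | h)
    · by_cases hx : x = e
      · exact Or.inr (Or.inl hx)
      · exact Or.inl ⟨hx, h⟩
    · exact Or.inr (Or.inr h)
  · rintro (h | h | h)
    · exact Or.inl h.2
    · exact Or.inl (h ▸ hem)
    · exact Or.inr h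

theorem sc_sub {R : RankFn α} {S : Finset α} {e f : α} (he : e ∈ S) (hL : LL R S) (hC : CL R S)
    (hP : 2 ≤ (pc R S e).card) (hf : f ∈ S \ pc R S e) : sc R S f ⊆ S \ pc R S e := by
  intro g hg
  rw [mem_sc] at hg
  rcases hg.2 with rfl | h
  · exact hf
  · rw [Finset.mem_sdiff]
    refine ⟨hg.1, fun hgP => ?_⟩
    obtain ⟨x, hx, hxg⟩ : ∃ x ∈ pc R S e, x ≠ g := by
      by_contra hneg
      push Not at hneg
      have : pc R S e ⊆ {g} := fun y hy => Finset.mem_singleton.2 (hneg y hy)
      have := Finset.card_le_card this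
      rw [Finset.card_singleton] at this
      omega
    have hfP := (Finset.mem_sdiff.1 hf).2
    have hfS := (Finset.mem_sdiff.1 hf).1
    have hxf : x ≠ f := fun h1 => hfP (h1 ▸ hx)
    have hgf : g ≠ f := fun h1 => hfP (h1 ▸ hgP)
    have hxS := (mem_pc.1 hx).1
    have hxg1 : R.r {x, g} ≤ 1 := by
      have h1 := span_trans R (hL e he) (e := x) (f := g)
        (by rw [Finset.pair_comm]; exact (mem_pc.1 hx).2) (mem_pc.1 hgP).2
      exact h1
    have hxg2 : R.r {x, g} = 1 := by
      have := R.r_single_le_insert x {g}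
      have := hL x hxS
      omega
    have h2 := par_span R (hL x hxS) hxg2 (X := (S.erase f).erase g)
      (Finset.mem_erase.2 ⟨hxg, Finset.mem_erase.2 ⟨hxf, hxS⟩⟩)
    rw [Finset.insert_erase (Finset.mem_erase.2 ⟨hgf, hg.1⟩), hC f hfS] at h2
    omega

theorem S_eq_pc {R : RankFn α} {S : Finset α} {e : α} : S = pc R S e ∪ (S \ pc R S e) := by
  have hsub : pc R S e ⊆ S := Finset.filter_subset _ _
  rw [Finset.union_sdiff_of_subset hsub]

theorem D3_deletion {R : RankFn α} {S : Finset α} {e : α} (he : e ∈ S) (hL : LL R S)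
    (hC : CL R S) (hP : 2 ≤ (pc R S e).card) (hD : D3 R S) : D3 R (S \ pc R S e) := by
  intro f hf
  have hfS := (Finset.mem_sdiff.1 hf).1
  rcases hD f hfS with h | h
  · left
    refine h.trans (Finset.card_le_card ?_)
    intro g hg
    exact mem_pc.2 ⟨pc_sub he hL hf hg, (mem_pc.1 hg).2⟩
  · right
    refine h.trans (Finset.card_le_card ?_)
    intro g hg
    have hgT := sc_sub he hL hC hP hf hg
    rw [mem_sc]
    refine ⟨hgT, ?_⟩
    rcases (mem_sc.1 hg).2 with h1 | h1
    · exact Or.inl h1
    · right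
      by_contra hneg
      push Not at hneg
      -- the rank of T minus two elements equals the rank of T, then the same after adding P
      have h2 := R.submod (pc R S e ∪ ((S \ pc R S e).erase f).erase g) (S \ pc R S e)
      have h3 : pc R S e ∪ ((S \ pc R S e).erase f).erase g ∪ (S \ pc R S e) = S := by
        ext x
        simp only [Finset.mem_union, Finset.mem_erase, Finset.mem_sdiff]
        constructor
        · rintro ((h | h) | h)
          · exact (mem_pc.1 h).1
          · exact h.2.2.1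
          · exact h.1
        · intro h
          by_cases hx : x ∈ pc R S e
          · exact Or.inl (Or.inl hx)
          · exact Or.inr ⟨h, hx⟩
      have h4 : R.r (((S \ pc R S e).erase f).erase g) ≤
          R.r ((pc R S e ∪ ((S \ pc R S e).erase f).erase g) ∩ (S \ pc R S e)) := by
        apply R.mono
        intro x hx
        refine Finset.mem_inter.2 ⟨Finset.mem_union_right _ hx, ?_⟩
        exact Finset.mem_of_mem_erase (Finset.mem_of_mem_erase hx)
      have h5 : R.r (pc R S e ∪ ((S \ pc R S e).erase f).erase g) ≤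
          R.r ((S.erase f).erase g) := by
        apply R.mono
        intro x hx
        rw [Finset.mem_union] at hx
        rw [Finset.mem_erase, Finset.mem_erase]
        rcases hx with hx | hx
        · refine ⟨?_, ?_, (mem_pc.1 hx).1⟩
          · rintro rfl
            exact (Finset.mem_sdiff.1 hgT).2 hx
          · rintro rfl
            exact (Finset.mem_sdiff.1 hf).2 hx
        · rw [Finset.mem_erase, Finset.mem_erase] at hx
          exact ⟨hx.1, hx.2.1, (Finset.mem_sdiff.1 hx.2.2).1⟩
      rw [h3] at h2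
      omega

theorem D3_contraction {R : RankFn α} {S : Finset α} {e : α} (he : e ∈ S) (hL : LL R S)
    (hC : CL R S) (hP : 2 ≤ (pc R S e).card) (hD : D3 R S) :
    D3 (R.contract e) (S \ pc R S e) := by
  intro f hf
  have hfS := (Finset.mem_sdiff.1 hf).1
  rcases hD f hfS with h | h
  · left
    refine h.trans (Finset.card_le_card ?_)
    intro g hg
    have hgT := pc_sub he hL hf hg
    refine mem_pc.2 ⟨hgT, ?_⟩
    have hfc : (R.contract e).r {f} = 1 := LL_contract he hL f hf
    have h1 := (R.contract e).r_single_le_insert f {g}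
    have h2 : (R.contract e).r {f, g} ≤ 1 := by
      rw [R.contract_r, hL e he]
      have h3 := par_span R (hL f hfS) (mem_pc.1 hg).2 (X := {e, f}) (by simp)
      have h4 : (insert e {f, g} : Finset α) = insert g {e, f} := by
        ext x
        simp only [Finset.mem_insert, Finset.mem_singleton]
        tauto
      rw [h4, h3, r_not_pc he hL hf]
    rw [hfc] at h1
    have h3 : (insert f {g} : Finset α) = {f, g} := rfl
    rw [h3] at h1
    omega
  · right
    refine h.trans (Finset.card_le_card ?_)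
    intro g hg
    have hgT := sc_sub he hL hC hP hf hg
    rw [mem_sc]
    refine ⟨hgT, ?_⟩
    rcases (mem_sc.1 hg).2 with h1 | h1
    · exact Or.inl h1
    · right
      have h2 : R.r (insert e (((S \ pc R S e).erase f).erase g)) ≤
          R.r ((S.erase f).erase g) := by
        apply R.mono
        intro x hx
        rw [Finset.mem_insert] at hx
        rw [Finset.mem_erase, Finset.mem_erase]
        rcases hx with rfl | hx
        · have hem := self_mem_pc he hL
          refine ⟨?_, ?_, he⟩
          · rintro rfl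
            exact (Finset.mem_sdiff.1 hgT).2 hem
          · rintro rfl
            exact (Finset.mem_sdiff.1 hf).2 hem
        · rw [Finset.mem_erase, Finset.mem_erase] at hx
          exact ⟨hx.1, hx.2.1, (Finset.mem_sdiff.1 hx.2.2).1⟩
      have h3 : R.r (insert e (S \ pc R S e)) = R.r S := (span_contract he hL hC hf).2
      have h4 := R.contract_r' (hL e he) (((S \ pc R S e).erase f).erase g)
      have h5 := R.contract_r' (hL e he) (S \ pc R S e)
      omega

theorem numh1 (w : ℕ) (hw : 3 ≤ w) :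
    (1 : ℝ) ^ w * ((1 / 2) ^ w * (1 - 1 / 2)) * (1 + (w : ℕ)) ^ 2 ≤ 1 := by
  have h3 : ((1 : ℝ) + w) ^ 2 ≤ 2 ^ (w + 1) := by exact_mod_cast nat_sq_le w hw
  have h4 : (1 : ℝ) ^ w * ((1 / 2) ^ w * (1 - 1 / 2)) = 1 / 2 ^ (w + 1) := by
    rw [one_pow, pow_succ, div_pow, one_pow]
    field_simp
    norm_num
  rw [h4, div_mul_eq_mul_div, one_mul, div_le_one (by positivity)]
  exact h3

theorem numh4 (w : ℕ) (hw : 3 ≤ w) :
    (1 : ℝ) ^ w * ((1 / 2) ^ w * (1 - 1 / 2)) * ((w : ℕ) + 1 / 2) ^ 2 ≤ 1 - (1 / 2) ^ w := by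
  have h3 : ((2 : ℝ) * w + 1) ^ 2 ≤ 7 * 2 ^ w := by exact_mod_cast nat_sq_le4 w hw
  have h4 : (1 : ℝ) ^ w * ((1 / 2) ^ w * (1 - 1 / 2)) = 1 / 2 ^ (w + 1) := by
    rw [one_pow, pow_succ, div_pow, one_pow]
    field_simp
    norm_num
  have h5 : ((w : ℝ) + 1 / 2) ^ 2 ≤ 7 * 2 ^ w / 4 := by
    have : ((w : ℝ) + 1 / 2) ^ 2 = (2 * w + 1) ^ 2 / 4 := by ring
    rw [this]
    linarith
  have h6 : (1 / 2 : ℝ) ^ w ≤ (1 / 2) ^ 3 :=
    pow_le_pow_of_le_one (by norm_num) (by norm_num) hw
  rw [h4]
  have h7 : 1 / 2 ^ (w + 1) * ((w : ℝ) + 1 / 2) ^ 2 ≤ 7 / 8 := by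
    calc 1 / 2 ^ (w + 1) * ((w : ℝ) + 1 / 2) ^ 2 ≤ 1 / 2 ^ (w + 1) * (7 * 2 ^ w / 4) :=
          mul_le_mul_of_nonneg_left h5 (by positivity)
      _ = 7 / 8 := by
          rw [pow_succ]
          field_simp
          norm_num
  norm_num at h6 h7 ⊢
  linarith

/-- a parallel class of size at least three -/
theorem step3 {R : RankFn α} {S : Finset α}
    (hIH : ∀ (R' : RankFn α) (S' : Finset α), S'.card < S.card → LL R' S' → CL R' S' →
      D3 R' S' → Good (1 / 2) 1 R' S')
    (hL : LL R S) (hC : CL R S) (hD : D3 R S) {e : α} (he : e ∈ S)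
    (hP : 3 ≤ (pc R S e).card) : Good (1 / 2) 1 R S := by
  have hem := self_mem_pc he hL
  have hQ : ((pc R S e).erase e).card + 1 = (pc R S e).card := Finset.card_erase_add_one hem
  have hcard := (decomp he hL).2.2.2
  have hN1 := numh1 (((pc R S e).erase e).card + 1) (by omega)
  have hN4 := numh4 (((pc R S e).erase e).card + 1) (by omega)
  have hIHc : Good (1 / 2) 1 (R.contract e) (S \ pc R S e) :=
    hIH _ _ (by omega) (LL_contract he hL) (CL_contract he hL hC)
      (D3_contraction he hL hC (by omega) hD)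
  by_cases hCL : CL R (S \ pc R S e)
  · have hIHd : Good (1 / 2) 1 R (S \ pc R S e) :=
      hIH _ _ (by omega) (fun f hf => hL f (Finset.mem_sdiff.1 hf).1) hCL
        (D3_deletion he hL hC (by omega) hD)
    exact stepW (by norm_num) le_rfl (by norm_num) le_rfl hL hC he hN1 hIHc
      (Or.inl ⟨hCL, hIHd⟩)
  · unfold CL at hCL
    push Not at hCL
    obtain ⟨f, hf, hfr⟩ := hCL
    have hfS := (Finset.mem_sdiff.1 hf).1
    have hflt : R.r ((S \ pc R S e).erase f) < R.r (S \ pc R S e) := by
      have := R.mono _ _ (Finset.erase_subset f (S \ pc R S e))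
      omega
    -- f has no parallel partner, hence a series partner
    have hsc : 3 ≤ (sc R S f).card := by
      rcases hD f hfS with h | h
      · exfalso
        obtain ⟨x, hx, hxf⟩ : ∃ x ∈ pc R S f, x ≠ f := by
          by_contra hneg
          push Not at hneg
          have : pc R S f ⊆ {f} := fun y hy => Finset.mem_singleton.2 (hneg y hy)
          have := Finset.card_le_card this
          rw [Finset.card_singleton] at this
          omega
        have hxT := pc_sub he hL hf hx
        have h2 := par_span R (hL x (Finset.mem_sdiff.1 hxT).1) (f := f)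
          (by rw [Finset.pair_comm]; exact (mem_pc.1 hx).2)
          (X := (S \ pc R S e).erase f) (Finset.mem_erase.2 ⟨hxf, hxT⟩)
        rw [Finset.insert_erase hf] at h2
        omega
      · exact h
    obtain ⟨f', hf's, hff'⟩ : ∃ x ∈ sc R S f, x ≠ f := by
      by_contra hneg
      push Not at hneg
      have : sc R S f ⊆ {f} := fun y hy => Finset.mem_singleton.2 (hneg y hy)
      have := Finset.card_le_card this
      rw [Finset.card_singleton] at this
      omega
    have hf'T := sc_sub he hL hC (by omega) hf hf's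
    have hlt : R.r ((S.erase f).erase f') < R.r S := by
      rcases (mem_sc.1 hf's).2 with h | h
      · exact absurd h hff'
      · exact h
    apply stepW (by norm_num) le_rfl (by norm_num) le_rfl hL hC he hN1 hIHc
    right
    refine ⟨by omega, hN4, ?_⟩
    intro hA
    obtain ⟨hc1, hc2⟩ := span_contract he hL hC hf
    obtain ⟨hc3, _⟩ := span_contract he hL hC hf'T
    apply nb_half R (f := f) (f' := f') (decomp he hL).2.1 (hL e he) hf hf'T hff'.symm hA hflt
    · have h1 := R.submod ((S \ pc R S e).erase f) ((S.erase f).erase f')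
      have h2 : R.r (S.erase f) ≤ R.r ((S \ pc R S e).erase f ∪ (S.erase f).erase f') := by
        apply R.mono
        intro x hx
        rw [Finset.mem_erase] at hx
        rw [Finset.mem_union]
        by_cases hxf' : x = f'
        · left
          rw [hxf']
          exact Finset.mem_erase.2 ⟨hff', hf'T⟩
        · right
          exact Finset.mem_erase.2 ⟨hxf', Finset.mem_erase.2 hx⟩
      have h3 : R.r (((S \ pc R S e).erase f').erase f) ≤
          R.r ((S \ pc R S e).erase f ∩ (S.erase f).erase f') := by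
        apply R.mono
        intro x hx
        rw [Finset.mem_erase, Finset.mem_erase] at hx
        rw [Finset.mem_inter, Finset.mem_erase, Finset.mem_erase, Finset.mem_erase]
        exact ⟨⟨hx.1, hx.2.2⟩, hx.2.1, hx.1, (Finset.mem_sdiff.1 hx.2.2).1⟩
      have h4 := R.r_insert_le f (((S \ pc R S e).erase f').erase f)
      rw [Finset.insert_erase (Finset.mem_erase.2 ⟨hff'.symm, hf⟩)] at h4
      have h5 := R.r_singleton_le f
      have h6 := hC f hfS
      omega
    · rw [hc1, hc2]
    · rw [hc3, hc2]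

theorem pc_dualOn {R : RankFn α} {S : Finset α} (hC : CL R S) {e : α} (he : e ∈ S) :
    pc (R.dualOn S) S e = sc R S e := by
  ext f
  rw [mem_pc, mem_sc]
  constructor
  · rintro ⟨hf, h⟩
    refine ⟨hf, ?_⟩
    by_cases hfe : f = e
    · exact Or.inl hfe
    · right
      have hsub : ({e, f} : Finset α) ⊆ S := by
        intro x hx
        rw [Finset.mem_insert, Finset.mem_singleton] at hx
        rcases hx with rfl | rfl
        · exact he
        · exact hf
      have e2 : S \ {e, f} = (S.erase e).erase f := by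
        ext x
        simp only [Finset.mem_sdiff, Finset.mem_insert, Finset.mem_singleton,
          Finset.mem_erase]
        tauto
      rw [R.dualOn_r hsub, Finset.card_pair (fun h => hfe h.symm), e2] at h
      omega
  · rintro ⟨hf, h⟩
    refine ⟨hf, ?_⟩
    by_cases hfe : f = e
    · subst hfe
      have : ({f, f} : Finset α) = {f} := by simp
      rw [this]
      exact LL_dualOn hC f hf
    · have h' : R.r ((S.erase e).erase f) < R.r S := by
        rcases h with h | h
        · exact absurd h hfe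
        · exact h
      have hsub : ({e, f} : Finset α) ⊆ S := by
        intro x hx
        rw [Finset.mem_insert, Finset.mem_singleton] at hx
        rcases hx with rfl | rfl
        · exact he
        · exact hf
      have e2 : S \ {e, f} = (S.erase e).erase f := by
        ext x
        simp only [Finset.mem_sdiff, Finset.mem_insert, Finset.mem_singleton,
          Finset.mem_erase]
        tauto
      rw [R.dualOn_r hsub, Finset.card_pair (fun h => hfe h.symm), e2]
      have h4 := R.r_insert_le f ((S.erase e).erase f)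
      rw [Finset.insert_erase (Finset.mem_erase.2 ⟨hfe, hf⟩)] at h4
      have h5 := R.r_singleton_le f
      have h6 := hC e he
      omega

theorem sc_dualOn {R : RankFn α} {S : Finset α} {e : α} (he : e ∈ S) :
    pc R S e ⊆ sc (R.dualOn S) S e := by
  intro f hf
  rw [mem_pc] at hf
  rw [mem_sc]
  refine ⟨hf.1, ?_⟩
  by_cases hfe : f = e
  · exact Or.inl hfe
  · right
    have e2 : (S.erase e).erase f = S \ {e, f} := by
      ext x
      simp only [Finset.mem_sdiff, Finset.mem_insert, Finset.mem_singleton,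
        Finset.mem_erase]
      tauto
    have hsub : ({e, f} : Finset α) ⊆ S := by
      intro x hx
      rw [Finset.mem_insert, Finset.mem_singleton] at hx
      rcases hx with rfl | rfl
      · exact he
      · exact hf.1
    rw [e2, R.dualOn_r Finset.sdiff_subset, Finset.sdiff_sdiff_eq_self hsub, hf.2,
      R.dualOn_self, Finset.card_sdiff_of_subset hsub, Finset.card_pair (fun h => hfe h.symm)]
    have h1 := Finset.card_le_card hsub
    rw [Finset.card_pair (fun h => hfe h.symm)] at h1
    have h2 : R.r S ≤ R.r {e, f} + (S \ {e, f}).card := by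
      have h3 := R.submod {e, f} (S \ {e, f})
      rw [Finset.union_sdiff_of_subset hsub] at h3
      have h4 := R.le_card (S \ {e, f})
      omega
    rw [Finset.card_sdiff_of_subset hsub, Finset.card_pair (fun h => hfe h.symm), hf.2] at h2
    omega

/-- **All classes of size at least three.** -/
theorem product_D3 (n : ℕ) :
    ∀ (R : RankFn α) (S : Finset α), S.card = n → LL R S → CL R S → D3 R S →
      Good (1 / 2) 1 R S := by
  induction n using Nat.strong_induction_on with
  | _ n ih =>
    intro R S hS hL hC hD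
    have hIH : ∀ (R' : RankFn α) (S' : Finset α), S'.card < S.card → LL R' S' → CL R' S' →
      D3 R' S' → Good (1 / 2) 1 R' S' :=
      fun R' S' h h1 h2 h3 => ih S'.card (by omega) R' S' rfl h1 h2 h3
    rcases S.eq_empty_or_nonempty with h0 | ⟨e, he⟩
    · subst h0
      exact product_good (κ := 1 / 2) (by norm_num) le_rfl (by norm_num) (by norm_num)
        (by norm_num) 0 R ∅ rfl hL hC |>.trans_eq' (by simp)
    · rcases hD e he with hP | hP
      · exact step3 hIH hL hC hD he hP
      · have hdual : Good (1 / 2) 1 (R.dualOn S) S := by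
          apply step3 hIH (LL_dualOn hC) (CL_dualOn hL) _ he
          · rw [pc_dualOn hC he]
            exact hP
          · intro f hf
            rcases hD f hf with h | h
            · right
              exact h.trans (Finset.card_le_card (sc_dualOn hf))
            · left
              rw [pc_dualOn hC hf]
              exact h
        unfold Good at hdual ⊢
        rw [nb_dualOn, VT_dualOn, VD_dualOn] at hdual
        linarith

end Pool.Agent.MW
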