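import Mathlib

/-!
# Rank functions, deletion and contraction (MP_4d7355_co)
-/

namespace Pool.Agent.MW

/-- A matroid rank function on the finite subsets of `α`. -/
structure RankFn (α : Type*) [DecidableEq α] where
  /-- the rank -/
  r : Finset α → ℕ
  le_card : ∀ A, r A ≤ A.card
  mono : ∀ A B, A ⊆ B → r A ≤ r B
  submod : ∀ A B, r (A ∪ B) + r (A ∩ B) ≤ r A + r B

variable {α : Type*} [DecidableEq α]

theorem RankFn.r_empty (R : RankFn α) : R.r ∅ = 0 := by
  have := R.le_card ∅
  simpa using this

theorem RankFn.r_singleton_le (R : RankFn α) (e : α) : R.r {e} ≤ 1 := by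
  have := R.le_card {e}
  simpa using this

theorem RankFn.r_le_insert (R : RankFn α) (e : α) (A : Finset α) : R.r A ≤ R.r (insert e A) :=
  R.mono _ _ (Finset.subset_insert e A)

theorem RankFn.r_single_le_insert (R : RankFn α) (e : α) (A : Finset α) :
    R.r {e} ≤ R.r (insert e A) :=
  R.mono _ _ (by simp)

theorem RankFn.r_insert_le (R : RankFn α) (e : α) (A : Finset α) :
    R.r (insert e A) ≤ R.r A + R.r {e} := by
  have h := R.submod A {e}
  rw [Finset.union_comm, ← Finset.insert_eq] at h
  omega

/-- Contraction of `e`. -/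
def RankFn.contract (R : RankFn α) (e : α) : RankFn α where
  r A := R.r (insert e A) - R.r {e}
  le_card A := by
    have := R.r_insert_le e A
    have := R.le_card A
    omega
  mono A B h := by
    have := R.mono _ _ (Finset.insert_subset_insert e h)
    omega
  submod A B := by
    have h := R.submod (insert e A) (insert e B)
    have e1 : insert e A ∪ insert e B = insert e (A ∪ B) := by
      ext x
      simp only [Finset.mem_union, Finset.mem_insert]
      tauto
    have e2 : insert e A ∩ insert e B = insert e (A ∩ B) := by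
      ext x
      simp only [Finset.mem_inter, Finset.mem_insert]
      tauto
    rw [e1, e2] at h
    have h1 := R.r_single_le_insert e (A ∪ B)
    have h2 := R.r_single_le_insert e (A ∩ B)
    have h3 := R.r_single_le_insert e A
    have h4 := R.r_single_le_insert e B
    omega

theorem RankFn.contract_r (R : RankFn α) (e : α) (A : Finset α) :
    (R.contract e).r A = R.r (insert e A) - R.r {e} := rfl

theorem RankFn.contract_r' (R : RankFn α) {e : α} (he : R.r {e} = 1) (A : Finset α) :
    (R.contract e).r A + 1 = R.r (insert e A) := by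
  rw [R.contract_r]
  have := R.r_single_le_insert e A
  omega

/-- a loop does not change the rank -/
theorem RankFn.r_insert_loop (R : RankFn α) {e : α} (he : R.r {e} = 0) (A : Finset α) :
    R.r (insert e A) = R.r A := by
  have := R.r_insert_le e A
  have := R.r_le_insert e A
  omega

/-- parallel elements are exchangeable -/
theorem RankFn.r_insert_parallel (R : RankFn α) {e f : α} (he : R.r {e} = 1)
    (hf : R.r {f} = 1) (hef : R.r {e, f} = 1) (A : Finset α) :
    R.r (insert e A) = R.r (insert f A) := by
  have key : ∀ a b : α, R.r {a} = 1 → R.r {a, b} = 1 → R.r (insert b A) ≤ R.r (insert a A) := by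
    intro a b ha hab
    have h := R.submod (insert a A) {a, b}
    have h1 : R.r (insert b A) ≤ R.r (insert a A ∪ {a, b}) := by
      apply R.mono
      intro x hx
      simp only [Finset.mem_union, Finset.mem_insert, Finset.mem_singleton] at hx ⊢
      tauto
    have h2 : R.r {a} ≤ R.r (insert a A ∩ {a, b}) := by
      apply R.mono
      intro x hx
      simp only [Finset.mem_inter, Finset.mem_insert, Finset.mem_singleton] at hx ⊢
      tauto
    omega
  apply le_antisymm
  · apply key f e hf
    rw [Finset.pair_comm]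
    exact hef
  · exact key e f he hef

/-- The alternating sum `∑ s^{r(A)} (-1)^{|A| - r(A)}`. -/
noncomputable def U (s : ℝ) (R : RankFn α) (S : Finset α) : ℝ :=
  ∑ A ∈ S.powerset, s ^ R.r A * (-1) ^ (A.card - R.r A)

/-- The probability that a random subset (density `q`) is independent. -/
noncomputable def VQ (q : ℝ) (R : RankFn α) (S : Finset α) : ℝ :=
  ∑ A ∈ S.powerset, if R.r A = A.card then q ^ A.card * (1 - q) ^ (S.card - A.card) else 0

/-- The normalised value of the Tutte polynomial at `(1/p, 0)`. -/
noncomputable def VT (p : ℝ) (R : RankFn α) (S : Finset α) : ℝ :=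
  (1 - p) ^ S.card * U (p / (1 - p)) R S

theorem U_insert (s : ℝ) (R : RankFn α) {e : α} {S : Finset α} (heS : e ∉ S)
    (he : R.r {e} = 1) : U s R (insert e S) = U s R S + s * U s (R.contract e) S := by
  unfold U
  rw [Finset.sum_powerset_insert heS]
  congr 1
  rw [Finset.mul_sum]
  apply Finset.sum_congr rfl
  intro A hA
  have hA' := Finset.mem_powerset.1 hA
  have heA : e ∉ A := fun h => heS (hA' h)
  have h1 := R.contract_r' he A
  rw [← h1, Finset.card_insert_of_notMem heA, pow_succ]
  have h2 : A.card + 1 - ((R.contract e).r A + 1) = A.card - (R.contract e).r A := by omega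
  rw [h2]
  ring

theorem U_loop (s : ℝ) (R : RankFn α) {e : α} {S : Finset α} (heS : e ∉ S)
    (he : R.r {e} = 0) : U s R (insert e S) = 0 := by
  unfold U
  rw [Finset.sum_powerset_insert heS, ← Finset.sum_add_distrib]
  apply Finset.sum_eq_zero
  intro A hA
  have hA' := Finset.mem_powerset.1 hA
  have heA : e ∉ A := fun h => heS (hA' h)
  rw [R.r_insert_loop he, Finset.card_insert_of_notMem heA]
  have h1 := R.le_card A
  have h2 : A.card + 1 - R.r A = A.card - R.r A + 1 := by omega
  rw [h2, pow_succ]
  ring

theorem VT_insert {p : ℝ} (hp : p < 1) (R : RankFn α) {e : α} {S : Finset α} (heS : e ∉ S)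
    (he : R.r {e} = 1) :
    VT p R (insert e S) = (1 - p) * VT p R S + p * VT p (R.contract e) S := by
  unfold VT
  rw [U_insert _ R heS he, Finset.card_insert_of_notMem heS, pow_succ]
  have h : (1 - p) ≠ 0 := by linarith
  field_simp

theorem VT_loop (p : ℝ) (R : RankFn α) {e : α} {S : Finset α} (heS : e ∉ S)
    (he : R.r {e} = 0) : VT p R (insert e S) = 0 := by
  unfold VT
  rw [U_loop _ R heS he, mul_zero]

theorem VQ_insert (q : ℝ) (R : RankFn α) {e : α} {S : Finset α} (heS : e ∉ S)
    (he : R.r {e} = 1) :
    VQ q R (insert e S) = (1 - q) * VQ q R S + q * VQ q (R.contract e) S := by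
  unfold VQ
  rw [Finset.sum_powerset_insert heS, Finset.mul_sum, Finset.mul_sum]
  congr 1
  · apply Finset.sum_congr rfl
    intro A hA
    have hA' := Finset.card_le_card (Finset.mem_powerset.1 hA)
    rw [Finset.card_insert_of_notMem heS]
    have h1 : S.card + 1 - A.card = S.card - A.card + 1 := by omega
    rw [h1, pow_succ]
    split_ifs
    · ring
    · simp
  · apply Finset.sum_congr rfl
    intro A hA
    have hA' := Finset.mem_powerset.1 hA
    have heA : e ∉ A := fun h => heS (hA' h)
    have h1 := R.contract_r' he A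
    rw [Finset.card_insert_of_notMem heS, Finset.card_insert_of_notMem heA, ← h1]
    have h2 : S.card + 1 - (A.card + 1) = S.card - A.card := by omega
    rw [h2]
    by_cases h3 : (R.contract e).r A = A.card
    · rw [if_pos h3, if_pos (by rw [h3]), pow_succ]
      ring
    · rw [if_neg h3, if_neg (fun h => h3 (by omega))]
      simp

theorem VQ_loop (q : ℝ) (R : RankFn α) {e : α} {S : Finset α} (heS : e ∉ S)
    (he : R.r {e} = 0) : VQ q R (insert e S) = (1 - q) * VQ q R S := by
  unfold VQ
  rw [Finset.sum_powerset_insert heS, Finset.mul_sum]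
  have h0 : ∑ A ∈ S.powerset, (if R.r (insert e A) = (insert e A).card then
      q ^ (insert e A).card * (1 - q) ^ ((insert e S).card - (insert e A).card) else 0) = 0 := by
    apply Finset.sum_eq_zero
    intro A hA
    have hA' := Finset.mem_powerset.1 hA
    have heA : e ∉ A := fun h => heS (hA' h)
    rw [R.r_insert_loop he, Finset.card_insert_of_notMem heA, if_neg]
    have := R.le_card A
    omega
  rw [h0, add_zero]
  apply Finset.sum_congr rfl
  intro A hA
  have hA' := Finset.card_le_card (Finset.mem_powerset.1 hA)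
  rw [Finset.card_insert_of_notMem heS]
  have h1 : S.card + 1 - A.card = S.card - A.card + 1 := by omega
  rw [h1, pow_succ]
  split_ifs
  · ring
  · simp

theorem VQ_nonneg {q : ℝ} (h0 : 0 ≤ q) (h1 : q ≤ 1) (R : RankFn α) (S : Finset α) :
    0 ≤ VQ q R S := by
  unfold VQ
  apply Finset.sum_nonneg
  intro A _
  split_ifs
  · have : 0 ≤ 1 - q := by linarith
    positivity
  · exact le_rfl

theorem indep_of_contract (R : RankFn α) {e : α} (he : R.r {e} = 1) {A : Finset α}
    (h : (R.contract e).r A = A.card) : R.r A = A.card := by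
  have h1 := R.contract_r' he A
  have h2 := R.r_insert_le e A
  have h3 := R.le_card A
  omega

theorem VQ_contract_le {q : ℝ} (h0 : 0 ≤ q) (h1 : q ≤ 1) (R : RankFn α) {e : α}
    (he : R.r {e} = 1) (S : Finset α) : VQ q (R.contract e) S ≤ VQ q R S := by
  unfold VQ
  apply Finset.sum_le_sum
  intro A _
  by_cases h3 : (R.contract e).r A = A.card
  · rw [if_pos h3, if_pos (indep_of_contract R he h3)]
  · rw [if_neg h3]
    split_ifs
    · have : 0 ≤ 1 - q := by linarith
      positivity
    · exact le_rfl

theorem VQ_congr (q : ℝ) {R R' : RankFn α} {S : Finset α} (h : ∀ A ⊆ S, R.r A = R'.r A) :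
    VQ q R S = VQ q R' S := by
  unfold VQ
  apply Finset.sum_congr rfl
  intro A hA
  rw [h A (Finset.mem_powerset.1 hA)]

theorem VT_parallel {p : ℝ} (hp : p < 1) (R : RankFn α) {e f : α} {S : Finset α}
    (heS : e ∉ S) (hfS : f ∈ S) (he : R.r {e} = 1) (hef : R.r {e, f} = 1) :
    VT p R (insert e S) = (1 - p) * VT p R S := by
  rw [VT_insert hp R heS he]
  have h1 : (R.contract e).r {f} = 0 := by
    rw [R.contract_r, hef, he]
  have h2 : VT p (R.contract e) S = 0 := by
    rw [← Finset.insert_erase hfS]
    exact VT_loop p _ (Finset.notMem_erase f S) h1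
  rw [h2, mul_zero, add_zero]

theorem VQ_parallel {q : ℝ} (h0 : 0 ≤ q) (h1 : q ≤ 1) (R : RankFn α) {e f : α} {S : Finset α}
    (heS : e ∉ S) (hfS : f ∈ S) (he : R.r {e} = 1) (hf : R.r {f} = 1) (hef : R.r {e, f} = 1) :
    VQ q R (insert e S) ≤ (1 - q ^ 2) * VQ q R S := by
  obtain ⟨S', hS', hfS'⟩ : ∃ S', S = insert f S' ∧ f ∉ S' :=
    ⟨S.erase f, (Finset.insert_erase hfS).symm, Finset.notMem_erase f S⟩
  rw [VQ_insert q R heS he]
  subst hS'
  have h2 : (R.contract e).r {f} = 0 := by
    rw [R.contract_r, hef, he]
  rw [VQ_loop q _ hfS' h2, VQ_insert q R hfS' hf]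
  have h3 : VQ q (R.contract e) S' = VQ q (R.contract f) S' := by
    apply VQ_congr
    intro A _
    rw [R.contract_r, R.contract_r, he, hf, R.r_insert_parallel he hf hef]
  rw [h3]
  have h4 := VQ_contract_le h0 h1 R hf S'
  nlinarith [mul_nonneg (mul_nonneg h0 (sq_nonneg (1 - q))) (sub_nonneg.2 h4)]

/-- **Loopless matroids.** -/
theorem VQ_le_VT {p q : ℝ} (hp0 : 0 < p) (hp : p < 1) (hq : 0 ≤ q) (hq1 : q ≤ 1)
    (hpq : p ≤ q ^ 2) (n : ℕ) : ∀ (R : RankFn α) (S : Finset α), S.card = n →
    (∀ e ∈ S, R.r {e} = 1) → VQ q R S ≤ VT p R S := by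
  have hpq' : p ≤ q := by nlinarith
  induction n with
  | zero =>
    intro R S hS _
    rw [Finset.card_eq_zero] at hS
    subst hS
    unfold VQ VT U
    simp [R.r_empty]
  | succ n ih =>
    intro R S hS hl
    obtain ⟨e, S', heS', rfl, hS'⟩ : ∃ e S', e ∉ S' ∧ insert e S' = S ∧ S'.card = n :=
      Finset.card_eq_succ.1 hS
    have he := hl e (Finset.mem_insert_self e S')
    have hl' : ∀ f ∈ S', R.r {f} = 1 := fun f hf => hl f (Finset.mem_insert_of_mem hf)
    have ih1 := ih R S' hS' hl'
    by_cases hpar : ∃ f ∈ S', R.r {e, f} = 1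
    · obtain ⟨f, hfS, hef⟩ := hpar
      rw [VT_parallel hp R heS' hfS he hef]
      refine (VQ_parallel hq hq1 R heS' hfS he (hl' f hfS) hef).trans ?_
      have h0 := VQ_nonneg hq hq1 R S'
      have h1 : (1 - q ^ 2) * VQ q R S' ≤ (1 - p) * VQ q R S' :=
        mul_le_mul_of_nonneg_right (by linarith) h0
      have h2 : (1 - p) * VQ q R S' ≤ (1 - p) * VT p R S' :=
        mul_le_mul_of_nonneg_left ih1 (by linarith)
      linarith
    · push Not at hpar
      have hlc : ∀ f ∈ S', (R.contract e).r {f} = 1 := by
        intro f hf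
        have h1 := R.contract_r' he {f}
        have h2 : R.r (insert e {f}) ≤ 2 := by
          have := R.le_card (insert e {f})
          have h3 : (insert e {f} : Finset α).card ≤ 2 := Finset.card_le_two
          omega
        have h3 : R.r (insert e {f}) ≠ 1 := hpar f hf
        have h4 := R.r_single_le_insert e {f}
        omega
      have ih2 := ih (R.contract e) S' hS' hlc
      rw [VT_insert hp R heS' he, VQ_insert q R heS' he]
      have h1 := VQ_contract_le hq hq1 R he S'
      nlinarith [mul_nonneg (sub_nonneg.2 hpq') (sub_nonneg.2 h1),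
        mul_nonneg (sub_nonneg.2 hp.le) (sub_nonneg.2 ih1), mul_nonneg hp0.le (sub_nonneg.2 ih2)]

end Pool.Agent.MW
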