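import Pool.Agent.Lib_MP_4d7355_co.Rank
import Pool.Agent.Lib_MP_4d7355_co.Core

/-!
# Simple matroids (MP_4d7355_co)
-/

namespace Pool.Agent.MW

variable {α : Type*} [DecidableEq α]

/-- Representatives of the parallel classes. -/
theorem exists_reps (N : RankFn α) (S : Finset α) : (∀ f ∈ S, N.r {f} = 1) →
    ∃ (T : Finset α) (ρ : α → α), T ⊆ S ∧ (∀ g ∈ S, ρ g ∈ T ∧ N.r {g, ρ g} = 1) ∧
      (∀ t ∈ T, ρ t = t) ∧ (∀ f ∈ T, ∀ g ∈ T, f ≠ g → N.r {f, g} = 2) := by
  induction S using Finset.induction_on with
  | empty =>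
    intro _
    exact ⟨∅, id, by simp, by simp, by simp, by simp⟩
  | insert g S hg ih =>
    intro hl
    obtain ⟨T, ρ, hTS, hρ, hρT, hT⟩ := ih (fun f hf => hl f (Finset.mem_insert_of_mem hf))
    have hgT : g ∉ T := fun h => hg (hTS h)
    by_cases h : ∃ t ∈ T, N.r {g, t} = 1
    · obtain ⟨t, ht, hgt⟩ := h
      refine ⟨T, Function.update ρ g t, hTS.trans (Finset.subset_insert _ _), ?_, ?_, hT⟩
      · intro x hx
        rcases Finset.mem_insert.1 hx with rfl | hx
        · rw [Function.update_self]
          exact ⟨ht, hgt⟩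
        · have hxg : x ≠ g := fun h => hg (h ▸ hx)
          rw [Function.update_of_ne hxg]
          exact hρ x hx
      · intro x hx
        have hxg : x ≠ g := fun h => hgT (h ▸ hx)
        rw [Function.update_of_ne hxg]
        exact hρT x hx
    · push Not at h
      have h2 : ∀ t ∈ T, N.r {g, t} = 2 := by
        intro t ht
        have h3 := h t ht
        have h4 : N.r {g, t} ≤ 2 := by
          have h5 := N.le_card {g, t}
          have h6 : ({g, t} : Finset α).card ≤ 2 := Finset.card_le_two
          omega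
        have h7 : N.r {t} ≤ N.r {g, t} := N.mono _ _ (by simp)
        have h8 := hl t (Finset.mem_insert_of_mem (hTS ht))
        omega
      refine ⟨insert g T, Function.update ρ g g, Finset.insert_subset_insert _ hTS, ?_, ?_, ?_⟩
      · intro x hx
        rcases Finset.mem_insert.1 hx with rfl | hx
        · rw [Function.update_self]
          refine ⟨Finset.mem_insert_self _ _, ?_⟩
          rw [Finset.pair_eq_singleton]
          exact hl x (Finset.mem_insert_self _ _)
        · have hxg : x ≠ g := fun h => hg (h ▸ hx)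
          rw [Function.update_of_ne hxg]
          exact ⟨Finset.mem_insert_of_mem (hρ x hx).1, (hρ x hx).2⟩
      · intro x hx
        rcases Finset.mem_insert.1 hx with rfl | hx
        · rw [Function.update_self]
        · have hxg : x ≠ g := fun h => hgT (h ▸ hx)
          rw [Function.update_of_ne hxg]
          exact hρT x hx
      · intro x hx y hy hxy
        rcases Finset.mem_insert.1 hx with hx' | hx'
        · rcases Finset.mem_insert.1 hy with hy' | hy'
          · exact absurd (hx'.trans hy'.symm) hxy
          · rw [hx']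
            exact h2 y hy'
        · rcases Finset.mem_insert.1 hy with hy' | hy'
          · rw [hy', Finset.pair_comm]
            exact h2 x hx'
          · exact hT x hx' y hy' hxy

theorem r_image {N : RankFn α} {S : Finset α} {ρ : α → α} (hl : ∀ f ∈ S, N.r {f} = 1)
    (hl' : ∀ f ∈ S, N.r {ρ f} = 1) (hρ : ∀ g ∈ S, N.r {g, ρ g} = 1) (A : Finset α) :
    A ⊆ S → ∀ B : Finset α, N.r (A ∪ B) = N.r (A.image ρ ∪ B) := by
  induction A using Finset.induction_on with
  | empty =>
    intro _ B
    simp
  | insert g A hg ih =>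
    intro hA B
    have hgS : g ∈ S := hA (Finset.mem_insert_self _ _)
    have hAS : A ⊆ S := fun x hx => hA (Finset.mem_insert_of_mem hx)
    rw [Finset.insert_union, N.r_insert_parallel (hl g hgS) (hl' g hgS) (hρ g hgS),
      ← Finset.union_insert, ih hAS, Finset.image_insert, Finset.union_insert,
      Finset.insert_union]

theorem VT_reps {p : ℝ} (hp : p < 1) (N : RankFn α) {T : Finset α} (D : Finset α) :
    Disjoint D T → (∀ g ∈ D, N.r {g} = 1 ∧ ∃ t ∈ T, N.r {g, t} = 1) →
    VT p N (D ∪ T) = (1 - p) ^ D.card * VT p N T := by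
  induction D using Finset.induction_on with
  | empty =>
    intro _ _
    simp
  | insert g D hg ih =>
    intro hdis hD
    rw [Finset.disjoint_insert_left] at hdis
    obtain ⟨h1, t, ht, h2⟩ := hD g (Finset.mem_insert_self _ _)
    have hgDT : g ∉ D ∪ T := by
      rw [Finset.mem_union]
      exact fun h => h.elim hg hdis.1
    rw [Finset.insert_union, VT_parallel hp N hgDT (Finset.mem_union_right _ ht) h1 h2,
      ih hdis.2 (fun x hx => hD x (Finset.mem_insert_of_mem hx)),
      Finset.card_insert_of_notMem hg, pow_succ]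
    ring

/-- **Simple matroids.** -/
theorem VQ_le_VT_simple {p q h β : ℝ} (hp0 : 0 < p) (hp : p < 1) (hpq : p ≤ q) (hq1 : q < 1)
    (hh : h * (1 - p) = 1 - q) (hβ : β * (2 * p * (1 - q)) = (q - p) * q)
    (hcube : q ^ 3 = p ^ 2)
    (hg : ∀ σ : ℕ, h * ((2 * h) ^ σ * (1 - β * σ)) ≤ 1)
    (hg' : ∀ σ : ℕ, 3 / 4 * ((2 * h) ^ σ * (1 - β * σ)) ≤ 1) (n : ℕ) :
    ∀ (R : RankFn α) (S : Finset α), S.card = n → (∀ e ∈ S, R.r {e} = 1) →
    (∀ e ∈ S, ∀ f ∈ S, e ≠ f → R.r {e, f} = 2) → VQ q R S ≤ VT p R S := by
  have hq0 : 0 < q := lt_of_lt_of_le hp0 hpq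
  have hq2 : 0 < 1 - q := by linarith
  have hp2 : 0 < 1 - p := by linarith
  have h0 : 0 < h := by
    by_contra hneg
    push Not at hneg
    nlinarith
  have h1 : h ≤ 1 := by
    by_contra hneg
    push Not at hneg
    nlinarith
  have hβ0 : 0 ≤ β := by
    by_contra hneg
    push Not at hneg
    have e1 : 0 < 2 * p * (1 - q) := by positivity
    have e2 : 0 ≤ (q - p) * q := mul_nonneg (by linarith) hq0.le
    nlinarith
  have huv : h * (1 + q) = 1 + 2 * q * β * h := by
    -- multiply by p (1 - p)
    have e3 : p * (1 - p) ≠ 0 := by positivity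
    apply mul_left_cancel₀ e3
    have e4 : p * (1 - p) * (h * (1 + q)) = p * (1 - q) * (1 + q) := by
      calc p * (1 - p) * (h * (1 + q)) = p * (1 + q) * (h * (1 - p)) := by ring
        _ = _ := by rw [hh]; ring
    have e5 : p * (1 - p) * (1 + 2 * q * β * h) = p * (1 - p) + q * (q - p) * q := by
      calc p * (1 - p) * (1 + 2 * q * β * h)
          = p * (1 - p) + q * β * (2 * p) * (h * (1 - p)) := by ring
        _ = p * (1 - p) + q * (β * (2 * p * (1 - q))) := by rw [hh]; ring
        _ = _ := by rw [hβ]; ring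
    rw [e4, e5]
    nlinarith [hcube]
  induction n using Nat.strong_induction_on with
  | _ n ih =>
  intro R S hS hl hs
  rcases S.eq_empty_or_nonempty with hS0 | ⟨e, heS⟩
  · subst hS0
    unfold VQ VT U
    simp [R.r_empty]
  obtain ⟨S', rfl, heS'⟩ : ∃ S', insert e S' = S ∧ e ∉ S' :=
    ⟨S.erase e, Finset.insert_erase heS, Finset.notMem_erase e S⟩
  rw [Finset.card_insert_of_notMem heS'] at hS
  have he := hl e (Finset.mem_insert_self _ _)
  have hl' : ∀ f ∈ S', R.r {f} = 1 := fun f hf => hl f (Finset.mem_insert_of_mem hf)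
  have hs' : ∀ f ∈ S', ∀ g ∈ S', f ≠ g → R.r {f, g} = 2 := fun f hf g hg' =>
    hs f (Finset.mem_insert_of_mem hf) g (Finset.mem_insert_of_mem hg')
  have ih1 := ih S'.card (by omega) R S' rfl hl' hs'
  set N := R.contract e with hN
  have hNl : ∀ f ∈ S', N.r {f} = 1 := by
    intro f hf
    have h2 := R.contract_r' he {f}
    have h3 : e ≠ f := fun h => heS' (h ▸ hf)
    have h4 : R.r (insert e {f}) = 2 := hs e (Finset.mem_insert_self _ _) f
      (Finset.mem_insert_of_mem hf) h3
    rw [← hN] at h2
    omega
  obtain ⟨T, ρ, hTS, hρ, hρT, hT⟩ := exists_reps N S' hNl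
  have hTl : ∀ t ∈ T, N.r {t} = 1 := fun t ht => hNl t (hTS ht)
  have ih2 := ih T.card (by have := Finset.card_le_card hTS; omega) N T rfl hTl hT
  have hNρ : ∀ f ∈ S', N.r {ρ f} = 1 := fun f hf => hTl _ (hρ f hf).1
  -- the number of elements in the classes
  set w := cls ρ S' with hw
  have hw1 : ∀ t ∈ T, 1 ≤ w t := by
    intro t ht
    rw [hw]
    unfold cls
    rw [Nat.one_le_iff_ne_zero, Finset.card_ne_zero]
    exact ⟨t, Finset.mem_filter.2 ⟨hTS ht, hρT t ht⟩⟩
  have hwsum : ∑ t ∈ T, w t = S'.card := by
    rw [hw]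
    unfold cls
    exact (Finset.card_eq_sum_card_fiberwise (fun g hg' => (hρ g hg').1)).symm
  have hW : ∑ t ∈ T, (w t - 1) + T.card = S'.card := by
    rw [← hwsum, Finset.card_eq_sum_ones, ← Finset.sum_add_distrib]
    apply Finset.sum_congr rfl
    intro t ht
    have := hw1 t ht
    omega
  set W := ∑ t ∈ T, (w t - 1) with hWdef
  -- the value of `VT` of the contraction
  have hVT : VT p N S' = (1 - p) ^ W * VT p N T := by
    have h2 : S' = (S' \ T) ∪ T := (Finset.sdiff_union_of_subset hTS).symm
    have h3 : (S' \ T).card = W := by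
      rw [Finset.card_sdiff_of_subset hTS]
      omega
    rw [← h3]
    conv_lhs => rw [h2]
    apply VT_reps hp N _ Finset.sdiff_disjoint
    intro g hg'
    have hgS := (Finset.mem_sdiff.1 hg').1
    exact ⟨hNl g hgS, ρ g, (hρ g hgS).1, (hρ g hgS).2⟩
  have hrank : ∀ A ⊆ S', N.r A = N.r (A.image ρ) := by
    intro A hA
    have := r_image hNl hNρ (fun g hg' => (hρ g hg').2) A hA ∅
    simpa using this
  have hρS : ∀ g ∈ S', ρ g ∈ T := fun g hg' => (hρ g hg').1
  -- the two sums
  let π : Finset α → ℝ := fun J =>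
    if N.r J = J.card then q ^ J.card * (1 - q) ^ (T.card - J.card) else 0
  have hVQN : VQ q N S' = (1 - q) ^ W * ∑ J ∈ T.powerset, π J * ∏ j ∈ J, (w j : ℝ) := by
    have e1 : VQ q N S' = ∑ A ∈ S'.powerset, (if (A.image ρ).card = A.card then
        (fun J => if N.r J = J.card then q ^ J.card * (1 - q) ^ (S'.card - J.card) else 0)
          (A.image ρ) else 0) := by
      unfold VQ
      apply Finset.sum_congr rfl
      intro A hA
      have hA' := Finset.mem_powerset.1 hA
      show _ = if (A.image ρ).card = A.card then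
        (if N.r (A.image ρ) = (A.image ρ).card then
          q ^ (A.image ρ).card * (1 - q) ^ (S'.card - (A.image ρ).card) else 0) else 0
      rw [hrank A hA']
      have h2 : (A.image ρ).card ≤ A.card := Finset.card_image_le
      have h3 := N.le_card (A.image ρ)
      by_cases h4 : (A.image ρ).card = A.card
      · rw [if_pos h4, h4]
      · rw [if_neg h4, if_neg (by omega)]
    rw [e1, sum_trans ρ S' hρS (fun J => if N.r J = J.card then
      q ^ J.card * (1 - q) ^ (S'.card - J.card) else 0), Finset.mul_sum]
    apply Finset.sum_congr rfl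
    intro J hJ
    have hJT := Finset.card_le_card (Finset.mem_powerset.1 hJ)
    show (if N.r J = J.card then q ^ J.card * (1 - q) ^ (S'.card - J.card) else 0) * _ =
      (1 - q) ^ W * ((if N.r J = J.card then q ^ J.card * (1 - q) ^ (T.card - J.card) else 0) * _)
    have h3 : S'.card - J.card = W + (T.card - J.card) := by omega
    rw [h3, pow_add]
    split_ifs
    · ring
    · ring
  have hVQR : VQ q N S' + (1 - q) ^ W * (q / (1 - q)) * ∑ J ∈ T.powerset, π J *
      ((∏ j ∈ J, (w j : ℝ)) * (∑ j ∈ J, ((w j : ℝ) - 1)) / 2) ≤ VQ q R S' := by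
    have e2 : (1 - q) ^ W * (q / (1 - q)) * ∑ J ∈ T.powerset, π J *
      ((∏ j ∈ J, (w j : ℝ)) * (∑ j ∈ J, ((w j : ℝ) - 1)) / 2) =
      ∑ A ∈ S'.powerset, (if A.card = (A.image ρ).card + 1 then
        (fun J => (1 - q) ^ W * (q / (1 - q)) * π J) (A.image ρ) else 0) := by
      rw [sum_dbl ρ S' hρS (fun J => (1 - q) ^ W * (q / (1 - q)) * π J), Finset.mul_sum]
      apply Finset.sum_congr rfl
      intro J _
      ring
    rw [e2]
    unfold VQ
    rw [← Finset.sum_add_distrib]
    apply Finset.sum_le_sum
    intro A hA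
    have hA' := Finset.mem_powerset.1 hA
    have hAc := Finset.card_le_card hA'
    have hr := hrank A hA'
    have hcard : (A.image ρ).card ≤ A.card := Finset.card_image_le
    have hle := N.le_card (A.image ρ)
    show (if N.r A = A.card then q ^ A.card * (1 - q) ^ (S'.card - A.card) else 0) +
      (if A.card = (A.image ρ).card + 1 then (1 - q) ^ W * (q / (1 - q)) *
        (if N.r (A.image ρ) = (A.image ρ).card then
          q ^ (A.image ρ).card * (1 - q) ^ (T.card - (A.image ρ).card) else 0) else 0) ≤
      (if R.r A = A.card then q ^ A.card * (1 - q) ^ (S'.card - A.card) else 0)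
    have hnn : 0 ≤ (if R.r A = A.card then q ^ A.card * (1 - q) ^ (S'.card - A.card) else 0) := by
      split_ifs
      · positivity
      · exact le_rfl
    by_cases hc : A.card = (A.image ρ).card + 1
    · rw [if_pos hc, if_neg (by omega : ¬ N.r A = A.card), zero_add]
      by_cases hi : N.r (A.image ρ) = (A.image ρ).card
      · rw [if_pos hi]
        -- `A` is independent in `R`
        have hnotinj : ¬ Set.InjOn ρ A := by
          intro hinj
          have := Finset.card_image_of_injOn hinj
          omega
        obtain ⟨f, hf, g, hgA, hfg, hne⟩ : ∃ f ∈ A, ∃ g ∈ A, ρ f = ρ g ∧ f ≠ g := by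
          by_contra hcon
          push Not at hcon
          apply hnotinj
          intro x hx y hy hxy
          exact hcon x hx y hy hxy
        have hfS := hA' hf
        have hgS := hA' hgA
        have hpar : N.r {f, g} = 1 := by
          have h2 := N.r_insert_parallel (hNl f hfS) (hNρ f hfS) (hρ f hfS).2 {g}
          have h3 : N.r (insert (ρ f) {g}) = 1 := by
            rw [hfg]
            have h4 := (hρ g hgS).2
            rw [Finset.pair_comm] at h4
            exact h4
          rw [h3] at h2
          exact h2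
        have hR3 : R.r (insert e {f, g}) = 2 := by
          have h2 := R.contract_r' he {f, g}
          rw [← hN, hpar] at h2
          exact h2.symm
        have hR2 : R.r {f, g} = 2 := hs' f hfS g hgS hne
        have hsub := R.submod A (insert e {f, g})
        have h5 : R.r {f, g} ≤ R.r (A ∩ insert e {f, g}) := by
          apply R.mono
          intro x hx
          rw [Finset.mem_inter]
          refine ⟨?_, Finset.mem_insert_of_mem hx⟩
          simp only [Finset.mem_insert, Finset.mem_singleton] at hx
          rcases hx with rfl | rfl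
          · exact hf
          · exact hgA
        have h6 : R.r (insert e A) ≤ R.r (A ∪ insert e {f, g}) := by
          apply R.mono
          intro x hx
          simp only [Finset.mem_union, Finset.mem_insert, Finset.mem_singleton] at hx ⊢
          tauto
        have h7 := R.contract_r' he A
        rw [← hN] at h7
        have h8 := R.le_card A
        have h9 : R.r A = A.card := by omega
        rw [if_pos h9]
        have hWS : S'.card = W + T.card := by omega
        have hρT' : (A.image ρ).card ≤ T.card := by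
          apply Finset.card_le_card
          intro x hx
          obtain ⟨y, hy, rfl⟩ := Finset.mem_image.1 hx
          exact hρS y (hA' hy)
        have e3 : (1 - q) ^ W * (q / (1 - q)) *
            (q ^ (A.image ρ).card * (1 - q) ^ (T.card - (A.image ρ).card)) =
            q ^ A.card * (1 - q) ^ (S'.card - A.card) := by
          rw [hc, pow_succ]
          have e4 : (1 - q) ^ W * (1 - q) ^ (T.card - (A.image ρ).card) =
              (1 - q) ^ (S'.card - ((A.image ρ).card + 1)) * (1 - q) := by
            rw [← pow_add, ← pow_succ]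
            congr 1
            omega
          have hq3 : (1 - q) ≠ 0 := hq2.ne'
          calc (1 - q) ^ W * (q / (1 - q)) *
              (q ^ (A.image ρ).card * (1 - q) ^ (T.card - (A.image ρ).card))
              = q ^ (A.image ρ).card * (q / (1 - q)) *
                ((1 - q) ^ W * (1 - q) ^ (T.card - (A.image ρ).card)) := by ring
            _ = q ^ (A.image ρ).card * (q / (1 - q)) *
                ((1 - q) ^ (S'.card - ((A.image ρ).card + 1)) * (1 - q)) := by rw [e4]
            _ = _ := by field_simp
        rw [e3]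
      · rw [if_neg hi, mul_zero]
        exact hnn
    · rw [if_neg hc, add_zero]
      by_cases hi : N.r A = A.card
      · rw [if_pos hi, if_pos (indep_of_contract R he hi)]
      · rw [if_neg hi]
        exact hnn
  have hVQT : VQ q N T = ∑ J ∈ T.powerset, π J := rfl
  -- the core inequality
  have hcore := core hq0.le hq1.le h0 h1 hβ0 huv hg hg' hw1 (fun J => N.r J = J.card)
    (by
      intro A B hAB hB
      have h2 : N.r B ≤ N.r A + (B \ A).card := by
        have h3 := N.submod A (B \ A)
        rw [Finset.union_sdiff_of_subset hAB] at h3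
        have h4 := N.le_card (B \ A)
        omega
      have h5 := Finset.card_sdiff_of_subset hAB
      have h6 := Finset.card_le_card hAB
      have h7 := N.le_card A
      omega)
  have hkey : 0 ≤ p * (1 - p) ^ W * VQ q N T - p * VQ q N S' +
      (q - p) * ((1 - q) ^ W * (q / (1 - q)) * ∑ J ∈ T.powerset, π J *
      ((∏ j ∈ J, (w j : ℝ)) * (∑ j ∈ J, ((w j : ℝ) - 1)) / 2)) := by
    have e5 : p * (1 - p) ^ W * VQ q N T - p * VQ q N S' +
      (q - p) * ((1 - q) ^ W * (q / (1 - q)) * ∑ J ∈ T.powerset, π J *
      ((∏ j ∈ J, (w j : ℝ)) * (∑ j ∈ J, ((w j : ℝ) - 1)) / 2)) =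
      p * (1 - p) ^ W * ∑ J ∈ T.powerset, π J * phi h β T w J := by
      rw [hVQT, hVQN, Finset.mul_sum, Finset.mul_sum, Finset.mul_sum, Finset.mul_sum,
        Finset.mul_sum, Finset.mul_sum, ← Finset.sum_sub_distrib, ← Finset.sum_add_distrib]
      apply Finset.sum_congr rfl
      intro J hJ
      have hJ' := Finset.mem_powerset.1 hJ
      unfold phi
      have e6 : (1 - q) ^ W = h ^ W * (1 - p) ^ W := by rw [← hh, mul_pow]
      have e7 : ((∑ j ∈ J, (w j - 1) : ℕ) : ℝ) = ∑ j ∈ J, ((w j : ℝ) - 1) := by
        push_cast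
        apply Finset.sum_congr rfl
        intro j hj
        rw [Nat.cast_sub (hw1 j (hJ' hj))]
        simp
      have e8 : (q - p) * (q / (1 - q)) / 2 = p * β := by
        field_simp
        linarith
      rw [← hWdef, e7, e6]
      calc p * (1 - p) ^ W * π J - p * (h ^ W * (1 - p) ^ W * (π J * ∏ j ∈ J, (w j : ℝ))) +
          (q - p) * (h ^ W * (1 - p) ^ W * (q / (1 - q)) *
            (π J * ((∏ j ∈ J, (w j : ℝ)) * (∑ j ∈ J, ((w j : ℝ) - 1)) / 2)))
          = p * (1 - p) ^ W * π J - p * (h ^ W * (1 - p) ^ W * (π J * ∏ j ∈ J, (w j : ℝ))) +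
          ((q - p) * (q / (1 - q)) / 2) * (h ^ W * (1 - p) ^ W *
            (π J * ((∏ j ∈ J, (w j : ℝ)) * (∑ j ∈ J, ((w j : ℝ) - 1))))) := by ring
        _ = _ := by rw [e8]; ring
    rw [e5]
    exact mul_nonneg (by positivity) hcore
  rw [VT_insert hp R heS' he, VQ_insert q R heS' he, ← hN, hVT]
  have hVN : p * ((1 - p) ^ W * VQ q N T) ≤ p * ((1 - p) ^ W * VT p N T) :=
    mul_le_mul_of_nonneg_left (mul_le_mul_of_nonneg_left ih2 (by positivity)) hp0.le
  have h2 : (1 - p) * VQ q R S' ≤ (1 - p) * VT p R S' := mul_le_mul_of_nonneg_left ih1 hp2.le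
  have h3 : (q - p) * (VQ q N S' + (1 - q) ^ W * (q / (1 - q)) * ∑ J ∈ T.powerset, π J *
      ((∏ j ∈ J, (w j : ℝ)) * (∑ j ∈ J, ((w j : ℝ) - 1)) / 2)) ≤ (q - p) * VQ q R S' :=
    mul_le_mul_of_nonneg_left hVQR (by linarith)
  nlinarith

end Pool.Agent.MW
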