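import Pool.Agent.Lib_MP_4d7355_co.Simple

/-!
# Tutte polynomial, duality, the general inequalities (MP_4d7355_co)
-/

namespace Pool.Agent.MW

variable {α : Type*} [DecidableEq α] [Fintype α]

/-- The Tutte polynomial of a rank function, by the rank-nullity expansion. -/
noncomputable def TT (R : RankFn α) (x y : ℝ) : ℝ :=
  ∑ A ∈ (Finset.univ : Finset α).powerset,
    (x - 1) ^ (R.r Finset.univ - R.r A) * (y - 1) ^ (A.card - R.r A)

/-- The dual rank function. -/
def RankFn.dual (R : RankFn α) : RankFn α where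
  r A := A.card + R.r Aᶜ - R.r Finset.univ
  le_card A := by
    have := R.mono Aᶜ Finset.univ (Finset.subset_univ _)
    omega
  mono A B h := by
    have h1 : R.r Aᶜ ≤ R.r Bᶜ + (B \ A).card := by
      have h2 := R.submod Bᶜ (B \ A)
      have h3 : R.r Aᶜ ≤ R.r (Bᶜ ∪ (B \ A)) := by
        apply R.mono
        intro x hx
        simp only [Finset.mem_union, Finset.mem_compl, Finset.mem_sdiff] at hx ⊢
        tauto
      have h4 := R.le_card (B \ A)
      omega
    have h5 := Finset.card_sdiff_of_subset h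
    have h6 := Finset.card_le_card h
    omega
  submod A B := by
    have h1 := R.submod Aᶜ Bᶜ
    have e1 : Aᶜ ∪ Bᶜ = (A ∩ B)ᶜ := by
      ext x
      simp only [Finset.mem_union, Finset.mem_compl, Finset.mem_inter]
      tauto
    have e2 : Aᶜ ∩ Bᶜ = (A ∪ B)ᶜ := by
      ext x
      simp only [Finset.mem_union, Finset.mem_compl, Finset.mem_inter]
      tauto
    rw [e1, e2] at h1
    have h2 := Finset.card_union_add_card_inter A B
    have key : ∀ C : Finset α, R.r Finset.univ ≤ C.card + R.r Cᶜ := by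
      intro C
      have h3 := R.submod C Cᶜ
      rw [Finset.union_compl] at h3
      have h4 := R.le_card C
      omega
    have k1 := key (A ∪ B)
    have k2 := key (A ∩ B)
    have k3 := key A
    have k4 := key B
    omega

theorem RankFn.univ_le (R : RankFn α) (C : Finset α) :
    R.r Finset.univ ≤ C.card + R.r Cᶜ := by
  have h3 := R.submod C Cᶜ
  rw [Finset.union_compl] at h3
  have h4 := R.le_card C
  omega

theorem RankFn.dual_r (R : RankFn α) (A : Finset α) :
    R.dual.r A = A.card + R.r Aᶜ - R.r Finset.univ := rfl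

theorem RankFn.dual_r_univ (R : RankFn α) :
    R.dual.r Finset.univ = Fintype.card α - R.r Finset.univ := by
  rw [R.dual_r, Finset.compl_univ, R.r_empty, Finset.card_univ]
  rfl

theorem TT_dual (R : RankFn α) (x y : ℝ) : TT R.dual x y = TT R y x := by
  unfold TT
  refine Finset.sum_bij' (fun A _ => Aᶜ) (fun A _ => Aᶜ) (by simp) (by simp) (by simp)
    (by simp) ?_
  intro A _
  show (x - 1) ^ (R.dual.r Finset.univ - R.dual.r A) * (y - 1) ^ (A.card - R.dual.r A) =
    (y - 1) ^ (R.r Finset.univ - R.r Aᶜ) * (x - 1) ^ (Aᶜ.card - R.r Aᶜ)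
  rw [R.dual_r_univ, R.dual_r]
  have h1 := R.univ_le A
  have h2 := R.mono Aᶜ Finset.univ (Finset.subset_univ _)
  have h3 := Finset.card_add_card_compl A
  have h4 := R.le_card Aᶜ
  have h5 : R.r Finset.univ ≤ Fintype.card α := by
    have := R.le_card Finset.univ
    rwa [Finset.card_univ] at this
  have e1 : Fintype.card α - R.r Finset.univ - (A.card + R.r Aᶜ - R.r Finset.univ) =
      Aᶜ.card - R.r Aᶜ := by omega
  have e2 : A.card - (A.card + R.r Aᶜ - R.r Finset.univ) = R.r Finset.univ - R.r Aᶜ := by omega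
  rw [e1, e2]
  ring

theorem VT_eq_TT (R : RankFn α) {b : ℝ} (hb : 1 < b) :
    b ^ Fintype.card α * (b - 1) ^ R.r Finset.univ * VT (1 / b) R Finset.univ =
      (b - 1) ^ Fintype.card α * TT R b 0 := by
  have hb0 : b ≠ 0 := by linarith
  have hb1 : b - 1 ≠ 0 := by linarith
  unfold VT U TT
  rw [Finset.card_univ]
  have e1 : (1 - 1 / b) ^ Fintype.card α = (b - 1) ^ Fintype.card α / b ^ Fintype.card α := by
    rw [← div_pow]
    congr 1
    field_simp
  have e2 : 1 / b / (1 - 1 / b) = 1 / (b - 1) := by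
    field_simp
  rw [e1, e2]
  have e3 : b ^ Fintype.card α * (b - 1) ^ R.r Finset.univ *
      ((b - 1) ^ Fintype.card α / b ^ Fintype.card α *
        ∑ A ∈ Finset.univ.powerset, (1 / (b - 1)) ^ R.r A * (-1) ^ (A.card - R.r A)) =
      (b - 1) ^ Fintype.card α * ((b - 1) ^ R.r Finset.univ *
        ∑ A ∈ Finset.univ.powerset, (1 / (b - 1)) ^ R.r A * (-1) ^ (A.card - R.r A)) := by
    field_simp
  rw [e3]
  congr 1
  rw [Finset.mul_sum]
  apply Finset.sum_congr rfl
  intro A _
  have h1 := R.mono A Finset.univ (Finset.subset_univ _)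
  have e4 : (b - 1) ^ R.r Finset.univ = (b - 1) ^ (R.r Finset.univ - R.r A) * (b - 1) ^ R.r A := by
    rw [← pow_add]
    congr 1
    omega
  rw [e4, one_div, inv_pow]
  have e5 : (b - 1) ^ R.r A ≠ 0 := pow_ne_zero _ hb1
  have e6 : (0 - 1 : ℝ) = -1 := by ring
  rw [e6]
  field_simp

theorem VQ_eq_TT (R : RankFn α) {q : ℝ} (hq : 0 < q) :
    VQ q R Finset.univ = q ^ R.r Finset.univ *
      (1 - q) ^ (Fintype.card α - R.r Finset.univ) * TT R (1 / q) 1 := by
  unfold VQ TT
  rw [Finset.mul_sum, Finset.card_univ]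
  apply Finset.sum_congr rfl
  intro A _
  have h1 := R.mono A Finset.univ (Finset.subset_univ _)
  have h2 := R.le_card A
  have h5 : R.r Finset.univ ≤ Fintype.card α := by
    have := R.le_card Finset.univ
    rwa [Finset.card_univ] at this
  have e1 : (1 / q - 1) = (1 - q) / q := by
    field_simp
  rw [sub_self, e1]
  by_cases h : R.r A = A.card
  · rw [if_pos h, h, Nat.sub_self, pow_zero, mul_one, div_pow]
    rw [h] at h1
    have e2 : Fintype.card α - A.card = (Fintype.card α - R.r Finset.univ) +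
      (R.r Finset.univ - A.card) := by omega
    have e3 : q ^ R.r Finset.univ = q ^ A.card * q ^ (R.r Finset.univ - A.card) := by
      rw [← pow_add]
      congr 1
      omega
    rw [e2, pow_add, e3]
    have e4 : q ^ (R.r Finset.univ - A.card) ≠ 0 := pow_ne_zero _ hq.ne'
    field_simp
  · rw [if_neg h, zero_pow (by omega), mul_zero, mul_zero]

theorem TT_one_le (R : RankFn α) {x : ℝ} (hx : 1 ≤ x) : TT R 1 1 ≤ TT R x 1 := by
  unfold TT
  apply Finset.sum_le_sum
  intro A _
  rw [sub_self]
  apply mul_le_mul_of_nonneg_right _ (by positivity)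
  rcases Nat.eq_zero_or_pos (R.r Finset.univ - R.r A) with h | h
  · rw [h]
    simp
  · rw [zero_pow (by omega)]
    exact pow_nonneg (by linarith) _

theorem TT_one_nonneg (R : RankFn α) {x y : ℝ} (hx : 1 ≤ x) (hy : 1 ≤ y) : 0 ≤ TT R x y := by
  unfold TT
  apply Finset.sum_nonneg
  intro A _
  have h1 : 0 ≤ x - 1 := by linarith
  have h2 : 0 ≤ y - 1 := by linarith
  positivity

/-- From the inequality for the normalised values to the Tutte polynomial. -/
theorem TT_of_VQ_le_VT (R : RankFn α) {b q : ℝ} (hb : 1 < b) (hq : 0 < q)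
    (h : VQ q R Finset.univ ≤ VT (1 / b) R Finset.univ) :
    (b * q) ^ R.r Finset.univ * (b * (1 - q) / (b - 1)) ^ (Fintype.card α - R.r Finset.univ) *
      TT R (1 / q) 1 ≤ TT R b 0 := by
  have hb0 : 0 < b := by linarith
  have hb1 : 0 < b - 1 := by linarith
  have h5 : R.r Finset.univ ≤ Fintype.card α := by
    have := R.le_card Finset.univ
    rwa [Finset.card_univ] at this
  have h1 : b ^ Fintype.card α * (b - 1) ^ R.r Finset.univ * VQ q R Finset.univ ≤
      b ^ Fintype.card α * (b - 1) ^ R.r Finset.univ * VT (1 / b) R Finset.univ :=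
    mul_le_mul_of_nonneg_left h (by positivity)
  rw [VT_eq_TT R hb, VQ_eq_TT R hq] at h1
  have h2 : 0 < (b - 1) ^ Fintype.card α := by positivity
  rw [← mul_le_mul_iff_right₀ h2]
  refine le_trans (le_of_eq ?_) h1
  set r := R.r Finset.univ with hr
  set m := Fintype.card α with hm
  obtain ⟨k, hk⟩ : ∃ k, m = r + k := ⟨m - r, by omega⟩
  rw [hk, Nat.add_sub_cancel_left, pow_add, pow_add, mul_pow, div_pow, mul_pow]
  field_simp

end Pool.Agent.MW
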